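import Pool.Agent.GenMed.SM

/-!
# The generalised median stable matchings through counting
-/

namespace GenMed

theorem getElem?_sorted {L : List ℕ} (h : L.Pairwise (· ≤ ·)) (k r : ℕ) :
    L[k]? = some r ↔ L.countP (fun x => decide (x < r)) ≤ k ∧ k < L.countP (fun x => decide (x ≤ r)) := by
  induction L generalizing k with
  | nil => simp
  | cons a L ih =>
    rw [List.pairwise_cons] at h
    obtain ⟨h1, h2⟩ := h
    rw [List.countP_cons, List.countP_cons]
    have hz : ∀ c, c ≤ a → L.countP (fun x => decide (x < c)) = 0 := by
      intro c hc
      rw [List.countP_eq_zero]
      intro x hx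
      have := h1 x hx
      simp only [decide_eq_true_eq, not_lt]
      omega
    have hz' : ∀ c, c < a → L.countP (fun x => decide (x ≤ c)) = 0 := by
      intro c hc
      rw [List.countP_eq_zero]
      intro x hx
      have := h1 x hx
      simp only [decide_eq_true_eq, not_le]
      omega
    rcases k with _ | k
    · simp only [List.getElem?_cons_zero, Option.some.injEq]
      rcases Nat.lt_trichotomy a r with h3 | h3 | h3
      · simp only [h3, decide_true, if_true]
        constructor
        · intro h4; omega
        · rintro ⟨h4, -⟩; omega
      · subst h3
        simp only [lt_irrefl, decide_false, Bool.false_eq_true, if_false, le_refl, decide_true,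
          if_true, true_iff]
        rw [hz a le_rfl]
        omega
      · have h4 : ¬ a ≤ r := by omega
        have h5 : ¬ a < r := by omega
        simp only [h4, h5, decide_false, Bool.false_eq_true, if_false]
        rw [hz' r h3]
        constructor
        · intro h6; omega
        · rintro ⟨-, h6⟩; omega
    · rw [List.getElem?_cons_succ, ih h2]
      rcases Nat.lt_trichotomy a r with h3 | h3 | h3
      · have h4 : a ≤ r := by omega
        simp only [h3, h4, decide_true, if_true]
        omega
      · subst h3
        simp only [lt_irrefl, decide_false, Bool.false_eq_true, if_false, le_refl, decide_true,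
          if_true]
        rw [hz a le_rfl]
        omega
      · have h4 : ¬ a ≤ r := by omega
        have h5 : ¬ a < r := by omega
        simp only [h4, h5, decide_false, Bool.false_eq_true, if_false]
        rw [hz' r h3, hz r (by omega)]
        omega

open Classical in
theorem partners_getElem? (n : ℕ) (men women : List (List ℕ)) (m : Fin n) (k r : ℕ) :
    (partners n men women m)[k]? = some r ↔
      ((stableSet n men women).filter (fun ν => rank men m (ν m) < r)).card ≤ k ∧
      k < ((stableSet n men women).filter (fun ν => rank men m (ν m) ≤ r)).card := by
  have h1 : (partners n men women m).Pairwise (· ≤ ·) := Multiset.pairwise_sort _ _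
  have h2 : ∀ (p : ℕ → Prop) [DecidablePred p],
      (partners n men women m).countP (fun x => decide (p x)) =
      ((stableSet n men women).filter (fun ν => p (rank men m (ν m)))).card := by
    intro p _
    rw [← Multiset.coe_countP, partners, Multiset.sort_eq, Multiset.countP_map]
    rfl
  rw [getElem?_sorted h1, h2, h2]

open Classical in
/-- `μ = α_j` in terms of counting. -/
theorem isAlpha_iff (n : ℕ) (men women : List (List ℕ)) (j : ℕ) (hj : 1 ≤ j)
    (μ : Equiv.Perm (Fin n)) : IsAlpha n men women j μ ↔ ∀ m : Fin n,
      ((stableSet n men women).filter (fun ν => rank men m (ν m) < rank men m (μ m))).card < j ∧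
      j ≤ ((stableSet n men women).filter (fun ν => rank men m (ν m) ≤ rank men m (μ m))).card := by
  unfold IsAlpha
  refine forall_congr' fun m => ?_
  rw [partners_getElem?]
  omega

end GenMed
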