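import Pool.Agent.GenMed.Count

/-!
# Cyclic successors in the colour classes of a list; the instance of an incidence list
-/

namespace GenMed

/-- the indices with the colour of `i` -/
def cls (C : List ℕ) (i : ℕ) : List ℕ := (List.range C.length).filter (fun j => decide (C[j]? = C[i]?))

/-- the cyclically next index of the same colour -/
def nxt (C : List ℕ) (i : ℕ) : ℕ := (cls C i).getD (((cls C i).idxOf i + 1) % (cls C i).length) 0

/-- the cyclically previous index of the same colour -/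
def prv (C : List ℕ) (i : ℕ) : ℕ :=
  (cls C i).getD (((cls C i).idxOf i + ((cls C i).length - 1)) % (cls C i).length) 0

theorem mem_cls {C : List ℕ} {i j : ℕ} : j ∈ cls C i ↔ j < C.length ∧ C[j]? = C[i]? := by
  simp [cls]

theorem cls_nodup (C : List ℕ) (i : ℕ) : (cls C i).Nodup := List.nodup_range.filter _

theorem cls_congr {C : List ℕ} {i j : ℕ} (h : C[j]? = C[i]?) : cls C j = cls C i := by
  unfold cls; rw [h]

section
variable {C : List ℕ} {i : ℕ} (hi : i < C.length)
include hi

theorem self_mem_cls : i ∈ cls C i := mem_cls.2 ⟨hi, rfl⟩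

theorem cls_pos : 0 < (cls C i).length := List.length_pos_of_mem (self_mem_cls hi)

theorem getD_mem_cls {k : ℕ} (hk : k < (cls C i).length) :
    (cls C i).getD k 0 ∈ cls C i := by
  rw [List.getD_eq_getElem _ _ hk]; exact List.getElem_mem hk

theorem nxt_mem : nxt C i ∈ cls C i := getD_mem_cls hi (Nat.mod_lt _ (cls_pos hi))

theorem prv_mem : prv C i ∈ cls C i := getD_mem_cls hi (Nat.mod_lt _ (cls_pos hi))

theorem nxt_lt : nxt C i < C.length := (mem_cls.1 (nxt_mem hi)).1

theorem prv_lt : prv C i < C.length := (mem_cls.1 (prv_mem hi)).1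

theorem col_nxt : C[nxt C i]? = C[i]? := (mem_cls.1 (nxt_mem hi)).2

theorem col_prv : C[prv C i]? = C[i]? := (mem_cls.1 (prv_mem hi)).2

omit hi in
theorem idxOf_getD {k : ℕ} (hk : k < (cls C i).length) :
    (cls C i).idxOf ((cls C i).getD k 0) = k := by
  rw [List.getD_eq_getElem _ _ hk]
  exact (cls_nodup C i).idxOf_getElem k hk

omit hi in
theorem getD_idxOf {j : ℕ} (hj : j ∈ cls C i) : (cls C i).getD ((cls C i).idxOf j) 0 = j := by
  rw [List.getD_eq_getElem _ _ (List.idxOf_lt_length_of_mem hj)]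
  exact List.getElem_idxOf _

theorem prv_nxt : prv C (nxt C i) = i := by
  have h1 : cls C (nxt C i) = cls C i := cls_congr (col_nxt hi)
  have hp := cls_pos hi
  have hx : (cls C i).idxOf i < (cls C i).length := List.idxOf_lt_length_of_mem (self_mem_cls hi)
  rw [prv, h1]
  conv_lhs => rw [nxt]
  rw [idxOf_getD (Nat.mod_lt _ hp), Nat.mod_add_mod,
    show (cls C i).idxOf i + 1 + ((cls C i).length - 1) = (cls C i).idxOf i + (cls C i).length by omega,
    Nat.add_mod_right, Nat.mod_eq_of_lt hx]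
  exact getD_idxOf (self_mem_cls hi)

theorem nxt_prv : nxt C (prv C i) = i := by
  have h1 : cls C (prv C i) = cls C i := cls_congr (col_prv hi)
  have hp := cls_pos hi
  have hx : (cls C i).idxOf i < (cls C i).length := List.idxOf_lt_length_of_mem (self_mem_cls hi)
  rw [nxt, h1]
  conv_lhs => rw [prv]
  rw [idxOf_getD (Nat.mod_lt _ hp), Nat.mod_add_mod,
    show (cls C i).idxOf i + ((cls C i).length - 1) + 1 = (cls C i).idxOf i + (cls C i).length by omega,
    Nat.add_mod_right, Nat.mod_eq_of_lt hx]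
  exact getD_idxOf (self_mem_cls hi)

theorem nxt_ne {j : ℕ} (hj : j ∈ cls C i) (hji : j ≠ i) : nxt C i ≠ i := by
  intro h
  have hp := cls_pos hi
  have hx : (cls C i).idxOf i < (cls C i).length := List.idxOf_lt_length_of_mem (self_mem_cls hi)
  have hy : (cls C i).idxOf j < (cls C i).length := List.idxOf_lt_length_of_mem hj
  have hxy : (cls C i).idxOf i ≠ (cls C i).idxOf j := by
    intro h1
    apply hji
    rw [← getD_idxOf hj, ← h1, getD_idxOf (self_mem_cls hi)]
  have h2 : (cls C i).idxOf (nxt C i) = ((cls C i).idxOf i + 1) % (cls C i).length := by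
    rw [nxt, idxOf_getD (Nat.mod_lt _ hp)]
  rw [h] at h2
  rcases Nat.lt_or_ge ((cls C i).idxOf i + 1) (cls C i).length with h3 | h3
  · rw [Nat.mod_eq_of_lt h3] at h2; omega
  · have h4 : (cls C i).idxOf i + 1 = (cls C i).length := by omega
    rw [h4, Nat.mod_self] at h2
    omega

theorem nxt_conn (S : ℕ → Prop) (hS : ∀ j < C.length, S j → S (nxt C j)) (h : S i) {j : ℕ}
    (hj : j ∈ cls C i) : S j := by
  have hp := cls_pos hi
  have key : ∀ k, S ((cls C i).getD (((cls C i).idxOf i + k) % (cls C i).length) 0) := by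
    intro k
    induction k with
    | zero =>
      have hx : (cls C i).idxOf i < (cls C i).length := List.idxOf_lt_length_of_mem (self_mem_cls hi)
      rw [Nat.add_zero, Nat.mod_eq_of_lt hx, getD_idxOf (self_mem_cls hi)]
      exact h
    | succ k ih =>
      set y := (cls C i).getD (((cls C i).idxOf i + k) % (cls C i).length) 0 with hy
      have hym : y ∈ cls C i := getD_mem_cls hi (Nat.mod_lt _ hp)
      obtain ⟨hy1, hy2⟩ := mem_cls.1 hym
      have h1 := hS y hy1 ih
      have h2 : nxt C y = (cls C i).getD (((cls C i).idxOf i + (k + 1)) % (cls C i).length) 0 := by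
        rw [nxt, cls_congr hy2]
        congr 1
        rw [hy, idxOf_getD (Nat.mod_lt _ hp), Nat.mod_add_mod, Nat.add_assoc]
      rw [h2] at h1
      exact h1
  have hx : (cls C i).idxOf i < (cls C i).length := List.idxOf_lt_length_of_mem (self_mem_cls hi)
  have hy : (cls C i).idxOf j < (cls C i).length := List.idxOf_lt_length_of_mem hj
  have := key ((cls C i).idxOf j + (cls C i).length - (cls C i).idxOf i)
  rw [show (cls C i).idxOf i + ((cls C i).idxOf j + (cls C i).length - (cls C i).idxOf i) =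
    (cls C i).idxOf j + (cls C i).length by omega, Nat.add_mod_right, Nat.mod_eq_of_lt hy,
    getD_idxOf hj] at this
  exact this

end

/-- the successor permutation -/
def nxtPerm (C : List ℕ) {n : ℕ} (hn : C.length = n) : Equiv.Perm (Fin n) where
  toFun e := ⟨nxt C e, by have := nxt_lt (C := C) (i := e) (by omega); omega⟩
  invFun e := ⟨prv C e, by have := prv_lt (C := C) (i := e) (by omega); omega⟩
  left_inv e := Fin.ext (prv_nxt (by omega))
  right_inv e := Fin.ext (nxt_prv (by omega))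

/-- A preference list beginning with `x, y, z`. -/
def pref (n x y z : ℕ) : List ℕ :=
  x :: y :: z :: (List.range n).filter (fun j => decide (j ≠ x ∧ j ≠ y ∧ j ≠ z))

theorem pref_perm {n x y z : ℕ} (hx : x < n) (hy : y < n) (hz : z < n) (hxy : x ≠ y) (hxz : x ≠ z)
    (hyz : y ≠ z) : (pref n x y z).Perm (List.range n) := by
  rw [List.perm_ext_iff_of_nodup _ List.nodup_range]
  · intro j
    simp only [pref, List.mem_cons, List.mem_filter, List.mem_range, decide_eq_true_eq]
    constructor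
    · rintro (rfl | rfl | rfl | h)
      · exact hx
      · exact hy
      · exact hz
      · exact h.1
    · intro h
      by_cases h1 : j = x
      · left; exact h1
      · by_cases h2 : j = y
        · right; left; exact h2
        · by_cases h3 : j = z
          · right; right; left; exact h3
          · right; right; right; exact ⟨h, h1, h2, h3⟩
  · unfold pref
    rw [List.nodup_cons, List.nodup_cons, List.nodup_cons]
    refine ⟨?_, ?_, ?_, List.nodup_range.filter _⟩
    · simp [hxy, hxz]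
    · simp [hyz]
    · simp

theorem idx_pref0 (n x y z : ℕ) : (pref n x y z).idxOf x = 0 := by simp [pref]

theorem idx_pref1 {n x y z : ℕ} (h : x ≠ y) : (pref n x y z).idxOf y = 1 := by
  rw [pref, List.idxOf_cons_ne _ h, List.idxOf_cons_self]

theorem idx_pref2 {n x y z : ℕ} (h : x ≠ z) (h' : y ≠ z) : (pref n x y z).idxOf z = 2 := by
  rw [pref, List.idxOf_cons_ne _ h, List.idxOf_cons_ne _ h', List.idxOf_cons_self]

theorem idx_pref3 {n x y z j : ℕ} (h : j ≠ x) (h' : j ≠ y) (h'' : j ≠ z) :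
    3 ≤ (pref n x y z).idxOf j := by
  rw [pref, List.idxOf_cons_ne _ h.symm, List.idxOf_cons_ne _ h'.symm, List.idxOf_cons_ne _ h''.symm]
  omega

/-- The successor in the lower class. -/
def nA (E : List (ℕ × ℕ)) (e : ℕ) : ℕ := nxt (E.map Prod.fst) e
/-- The successor in the upper class. -/
def nB (E : List (ℕ × ℕ)) (e : ℕ) : ℕ := nxt (E.map Prod.snd) e
/-- The predecessor in the lower class. -/
def pA (E : List (ℕ × ℕ)) (e : ℕ) : ℕ := prv (E.map Prod.fst) e
/-- The predecessor in the upper class. -/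
def pB (E : List (ℕ × ℕ)) (e : ℕ) : ℕ := prv (E.map Prod.snd) e

/-- The preference lists of the men. -/
def menOf (E : List (ℕ × ℕ)) : List (List ℕ) :=
  (List.range E.length).map (fun e => pref E.length e (nA E e) (nA E (nB E e)))

/-- The preference lists of the women. -/
def womenOf (E : List (ℕ × ℕ)) : List (List ℕ) :=
  (List.range E.length).map (fun y => pref E.length (pB E (pA E y)) (pA E y) y)

/-- Conditions on an incidence list with the lower elements `0, …, u - 1` and the upper elements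
`0, …, v - 1`. -/
structure Good (E : List (ℕ × ℕ)) (u v : ℕ) : Prop where
  nodup : E.Nodup
  lt1 : ∀ p ∈ E, p.1 < u
  lt2 : ∀ p ∈ E, p.2 < v
  two1 : ∀ x < u, ∃ p ∈ E, ∃ q ∈ E, p ≠ q ∧ p.1 = x ∧ q.1 = x
  two2 : ∀ y < v, ∃ p ∈ E, ∃ q ∈ E, p ≠ q ∧ p.2 = y ∧ q.2 = y

section
variable {E : List (ℕ × ℕ)} {u v : ℕ} (hE : Good E u v)

theorem map_getElem_aux (f : ℕ × ℕ → ℕ) {i : ℕ} (hi : i < E.length) :
    (E.map f)[i]? = some (f (E[i]'hi)) := by
  rw [List.getElem?_map, List.getElem?_eq_getElem hi]; rfl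

theorem same_iff (f : ℕ × ℕ → ℕ) {i j : ℕ} (hi : i < E.length) (hj : j < E.length) :
    (E.map f)[i]? = (E.map f)[j]? ↔ f E[i] = f E[j] := by
  rw [map_getElem_aux f hi, map_getElem_aux f hj, Option.some.injEq]

theorem ne_of_two (f : ℕ × ℕ → ℕ) (C : ℕ) (h : ∃ p ∈ E, ∃ q ∈ E, p ≠ q ∧ f p = C ∧ f q = C)
    {i : ℕ} (hi : i < E.length) (hc : f E[i] = C) : nxt (E.map f) i ≠ i := by
  obtain ⟨p, hp, q, hq, hpq, h1, h2⟩ := h
  obtain ⟨j, hj, rfl⟩ := List.mem_iff_getElem.1 hp
  obtain ⟨k, hk, rfl⟩ := List.mem_iff_getElem.1 hq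
  have hlen : i < (E.map f).length := by simpa using hi
  by_cases hji : j = i
  · have hki : k ≠ i := by
      intro h
      apply hpq
      subst hji; subst h; rfl
    refine nxt_ne hlen (j := k) (mem_cls.2 ⟨by simpa using hk, ?_⟩) hki
    rw [same_iff f hk hi, h2, hc]
  · refine nxt_ne hlen (j := j) (mem_cls.2 ⟨by simpa using hj, ?_⟩) hji
    rw [same_iff f hj hi, h1, hc]

/-- The system of rotations of an incidence list. -/
def rotOf (hE : Good E u v) : Rot E.length (Fin u) (Fin v) where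
  lo e := ⟨(E[e]).1, hE.lt1 _ (List.getElem_mem _)⟩
  hi e := ⟨(E[e]).2, hE.lt2 _ (List.getElem_mem _)⟩
  a := nxtPerm (E.map Prod.fst) (by simp)
  b := nxtPerm (E.map Prod.snd) (by simp)
  lo_a e := by
    have h := col_nxt (C := E.map Prod.fst) (i := e) (by simp)
    rw [same_iff Prod.fst (by simpa using nxt_lt (C := E.map Prod.fst) (i := e) (by simp)) e.2] at h
    exact Fin.ext h
  hi_b e := by
    have h := col_nxt (C := E.map Prod.snd) (i := e) (by simp)
    rw [same_iff Prod.snd (by simpa using nxt_lt (C := E.map Prod.snd) (i := e) (by simp)) e.2] at h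
    exact Fin.ext h
  conn_a S hS e e' hl he := by
    have := nxt_conn (C := E.map Prod.fst) (i := e) (by simp)
      (fun j => ∃ h : j < E.length, (⟨j, h⟩ : Fin E.length) ∈ S) ?_ ⟨e.2, he⟩ (j := e')
      (mem_cls.2 ⟨by simp, ?_⟩)
    · obtain ⟨_, h⟩ := this; exact h
    · rintro j hj ⟨h1, h2⟩
      have := hS _ h2
      exact ⟨by simpa using nxt_lt (C := E.map Prod.fst) (i := j) hj, this⟩
    · rw [same_iff Prod.fst e'.2 e.2]
      exact (congrArg Fin.val hl).symm
  conn_b S hS e e' hl he := by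
    have := nxt_conn (C := E.map Prod.snd) (i := e) (by simp)
      (fun j => ∃ h : j < E.length, (⟨j, h⟩ : Fin E.length) ∈ S) ?_ ⟨e.2, he⟩ (j := e')
      (mem_cls.2 ⟨by simp, ?_⟩)
    · obtain ⟨_, h⟩ := this; exact h
    · rintro j hj ⟨h1, h2⟩
      have := hS _ h2
      exact ⟨by simpa using nxt_lt (C := E.map Prod.snd) (i := j) hj, this⟩
    · rw [same_iff Prod.snd e'.2 e.2]
      exact (congrArg Fin.val hl).symm
  ne_a e h := ne_of_two Prod.fst _ (hE.two1 _ (hE.lt1 _ (List.getElem_mem e.2))) e.2 rfl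
    (congrArg Fin.val h)
  ne_b e h := ne_of_two Prod.snd _ (hE.two2 _ (hE.lt2 _ (List.getElem_mem e.2))) e.2 rfl
    (congrArg Fin.val h)
  lo_b e h := by
    have h1 := ne_of_two Prod.snd _ (hE.two2 _ (hE.lt2 _ (List.getElem_mem e.2))) e.2 rfl
    have h2 := col_nxt (C := E.map Prod.snd) (i := e) (by simp)
    have hlt : nxt (E.map Prod.snd) e < E.length := by
      simpa using nxt_lt (C := E.map Prod.snd) (i := e) (by simp)
    rw [same_iff Prod.snd hlt e.2] at h2
    have h3 : (E[nxt (E.map Prod.snd) e]).1 = (E[(e : ℕ)]).1 := congrArg Fin.val h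
    have h4 : E[nxt (E.map Prod.snd) e] = E[(e : ℕ)] := Prod.ext h3 h2
    exact h1 ((hE.nodup.getElem_inj_iff).1 h4)
  surj_lo x := by
    obtain ⟨p, hp, -, -, -, h, -⟩ := hE.two1 x x.2
    obtain ⟨j, hj, rfl⟩ := List.mem_iff_getElem.1 hp
    exact ⟨⟨j, hj⟩, Fin.ext h⟩
  surj_hi y := by
    obtain ⟨p, hp, -, -, -, h, -⟩ := hE.two2 y y.2
    obtain ⟨j, hj, rfl⟩ := List.mem_iff_getElem.1 hp
    exact ⟨⟨j, hj⟩, Fin.ext h⟩

@[simp] theorem val_a (hE : Good E u v) (e : Fin E.length) : ((rotOf hE).a e : ℕ) = nA E e := rfl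
@[simp] theorem val_b (hE : Good E u v) (e : Fin E.length) : ((rotOf hE).b e : ℕ) = nB E e := rfl
@[simp] theorem val_a_symm (hE : Good E u v) (e : Fin E.length) :
    ((rotOf hE).a.symm e : ℕ) = pA E e := rfl
@[simp] theorem val_b_symm (hE : Good E u v) (e : Fin E.length) :
    ((rotOf hE).b.symm e : ℕ) = pB E e := rfl

theorem men_getD {e : ℕ} (he : e < E.length) :
    (menOf E).getD e [] = pref E.length e (nA E e) (nA E (nB E e)) := by
  rw [menOf, List.getD_eq_getElem _ _ (by simpa using he)]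
  simp

theorem women_getD {y : ℕ} (hy : y < E.length) :
    (womenOf E).getD y [] = pref E.length (pB E (pA E y)) (pA E y) y := by
  rw [womenOf, List.getD_eq_getElem _ _ (by simpa using hy)]
  simp

theorem ranksOf (hE : Good E u v) : (rotOf hE).Ranks (fun e y => rank (menOf E) e y)
    (fun y e => rank (womenOf E) y e) := by
  have hva : ∀ {x y : Fin E.length}, x ≠ y → (x : ℕ) ≠ y := fun h h' => h (Fin.ext h')
  have hwa : ∀ y : Fin E.length, (rotOf hE).b.symm ((rotOf hE).a.symm y) ≠ (rotOf hE).a.symm y := by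
    intro y h
    rw [Equiv.symm_apply_eq] at h
    exact (rotOf hE).ne_b _ h.symm
  have hwb : ∀ y : Fin E.length, (rotOf hE).a.symm y ≠ y := by
    intro y h
    rw [Equiv.symm_apply_eq] at h
    exact (rotOf hE).ne_a _ h.symm
  have hwc : ∀ y : Fin E.length, (rotOf hE).b.symm ((rotOf hE).a.symm y) ≠ y := by
    intro y h
    rw [Equiv.symm_apply_eq, Equiv.symm_apply_eq] at h
    exact (rotOf hE).ab_ne _ h.symm
  constructor
  · intro e
    simp only [rank]
    rw [men_getD e.2, idx_pref0]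
  · intro e
    simp only [rank]
    rw [men_getD e.2, val_a, idx_pref1]
    exact fun h => hva ((rotOf hE).ne_a e) h.symm
  · intro e
    simp only [rank]
    rw [men_getD e.2, val_a, val_b, idx_pref2]
    · exact fun h => hva ((rotOf hE).ab_ne e) h.symm
    · exact fun h => hva ((rotOf hE).ab_ne_a e) h.symm
  · intro e y h1 h2 h3
    simp only [rank]
    rw [men_getD e.2]
    exact idx_pref3 (hva h1) (hva h2) (hva h3)
  · intro y
    simp only [rank]
    rw [women_getD y.2]
    exact idx_pref0 _ _ _ _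
  · intro y
    simp only [rank]
    rw [women_getD y.2]
    exact idx_pref1 (hva (hwa y))
  · intro y
    simp only [rank]
    rw [women_getD y.2]
    exact idx_pref2 (hva (hwc y)) (hva (hwb y))
  · intro y e h1 h2 h3
    simp only [rank]
    rw [women_getD y.2]
    exact idx_pref3 (hva h3) (hva h2) (hva h1)

theorem men_isPrefs (hE : Good E u v) : IsPrefs E.length (menOf E) := by
  have hva : ∀ {x y : Fin E.length}, x ≠ y → (x : ℕ) ≠ y := fun h h' => h (Fin.ext h')
  refine ⟨by simp [menOf], ?_⟩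
  intro l hl
  simp only [menOf, List.mem_map, List.mem_range] at hl
  obtain ⟨e, he, rfl⟩ := hl
  have h1 := (rotOf hE).ne_a ⟨e, he⟩
  have h2 := (rotOf hE).ab_ne ⟨e, he⟩
  have h3 := (rotOf hE).ab_ne_a ⟨e, he⟩
  exact pref_perm he ((rotOf hE).a ⟨e, he⟩).2 ((rotOf hE).a ((rotOf hE).b ⟨e, he⟩)).2
    (hva h1.symm) (hva h2.symm) (hva h3.symm)

theorem women_isPrefs (hE : Good E u v) : IsPrefs E.length (womenOf E) := by
  have hva : ∀ {x y : Fin E.length}, x ≠ y → (x : ℕ) ≠ y := fun h h' => h (Fin.ext h')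
  refine ⟨by simp [womenOf], ?_⟩
  intro l hl
  simp only [womenOf, List.mem_map, List.mem_range] at hl
  obtain ⟨y, hy, rfl⟩ := hl
  have h1 : (rotOf hE).b.symm ((rotOf hE).a.symm ⟨y, hy⟩) ≠ (rotOf hE).a.symm ⟨y, hy⟩ := by
    intro h
    rw [Equiv.symm_apply_eq] at h
    exact (rotOf hE).ne_b _ h.symm
  have h2 : (rotOf hE).a.symm ⟨y, hy⟩ ≠ ⟨y, hy⟩ := by
    intro h
    rw [Equiv.symm_apply_eq] at h
    exact (rotOf hE).ne_a _ h.symm
  have h3 : (rotOf hE).b.symm ((rotOf hE).a.symm ⟨y, hy⟩) ≠ ⟨y, hy⟩ := by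
    intro h
    rw [Equiv.symm_apply_eq, Equiv.symm_apply_eq] at h
    exact (rotOf hE).ab_ne _ h.symm
  exact pref_perm ((rotOf hE).b.symm ((rotOf hE).a.symm ⟨y, hy⟩)).2 ((rotOf hE).a.symm ⟨y, hy⟩).2 hy
    (hva h1) (hva h3) (hva h2)

theorem stable_iff_R {n : ℕ} (men women : List (List ℕ)) (μ : Equiv.Perm (Fin n)) :
    Stable men women μ ↔ StableR (fun e y => rank men e y) (fun y e => rank women y e) μ := Iff.rfl

end

end GenMed
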