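import Pool.Agent.NPC.Defs

/-!
# Generalised median stable matchings as a decision problem; the class PP
-/

namespace GenMed

open NPC

/-- Preference lists of the `n` people of one sex: the `i`-th list names all `n` people of the
other sex, from the most preferred to the least preferred. -/
def IsPrefs (n : ℕ) (P : List (List ℕ)) : Prop :=
  P.length = n ∧ ∀ l ∈ P, l.Perm (List.range n)

/-- The rank of person `j` in the preference list of person `i` (`0` is the most preferred). -/
def rank (P : List (List ℕ)) (i j : ℕ) : ℕ := (P.getD i []).idxOf j

/-- Stability of a perfect matching `μ` (man `i` is married to woman `μ i`): no man `m` and woman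
`w` prefer each other to their partners. -/
def Stable {n : ℕ} (men women : List (List ℕ)) (μ : Equiv.Perm (Fin n)) : Prop :=
  ∀ m w : Fin n, ¬ (rank men m w < rank men m (μ m) ∧ rank women w m < rank women w (μ.symm w))

open Classical in
/-- The set of all stable matchings. -/
noncomputable def stableSet (n : ℕ) (men women : List (List ℕ)) : Finset (Equiv.Perm (Fin n)) :=
  Finset.univ.filter (fun μ => Stable men women μ)

/-- The ranks of the partners of man `m` in all stable matchings, with multiplicity, sorted from
his most preferred to his least preferred partner. -/
noncomputable def partners (n : ℕ) (men women : List (List ℕ)) (m : Fin n) : List ℕ :=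
  ((stableSet n men women).val.map (fun μ => rank men m (μ m))).sort (· ≤ ·)

/-- `μ` is the `j`-th generalised median stable matching: the partner of every man `m` is the
`j`-th entry `p_j(m)` of his sorted list of partners. -/
def IsAlpha (n : ℕ) (men women : List (List ℕ)) (j : ℕ) (μ : Equiv.Perm (Fin n)) : Prop :=
  ∀ m : Fin n, (partners n men women m)[j - 1]? = some (rank men m (μ m))

/-- Inputs of the decision problem: preference lists of the men and of the women, a matching (the
list of the partners of the men), and a number `j`. -/
abbrev Data := (List (List ℕ) × List (List ℕ)) × (List ℕ × ℕ)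

/-- `d` consists of an instance of size `n ≥ 1` with `s` stable matchings, the stable matching `μ`
and a number `j` with `1 ≤ j ≤ s`. -/
def Input (d : Data) (n : ℕ) (μ : Equiv.Perm (Fin n)) : Prop :=
  1 ≤ n ∧ IsPrefs n d.1.1 ∧ IsPrefs n d.1.2 ∧ d.2.1 = List.ofFn (fun i => (μ i : ℕ)) ∧
    Stable d.1.1 d.1.2 μ ∧ 1 ≤ d.2.2 ∧ d.2.2 ≤ (stableSet n d.1.1 d.1.2).card

/-- `d` is a legal input. -/
def Legal (d : Data) : Prop := ∃ n μ, Input d n μ

/-- `d` is a legal input with answer yes: the matching is `α_j`. -/
def Yes (d : Data) : Prop := ∃ n μ, Input d n μ ∧ IsAlpha n d.1.1 d.1.2 d.2.2 μ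

/-- A bit string in self-delimiting form: every bit `b` becomes `1 b`, and a final `0` is added. -/
def sdl (x : List Bool) : List Bool := x.flatMap (fun b => [true, b]) ++ [false]

/-- A list is encoded by the self-delimiting forms of the codes of its entries. -/
def encList {α : Type} (e : α → List Bool) (l : List α) : List Bool := (l.map e).flatMap sdl

/-- The encoding of an input by a bit string; numbers are written in binary (`Nat.bits`, least
significant bit first), and a pair is the self-delimiting form of the code of its first component,
followed by the code of the second. -/
def encData (d : Data) : List Bool :=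
  sdl (sdl (encList (encList Nat.bits) d.1.1) ++ encList (encList Nat.bits) d.1.2) ++
    (sdl (encList Nat.bits d.2.1) ++ Nat.bits d.2.2)

/-- The decision problem as a set of bit strings: the codes of the inputs with answer yes. -/
def GMSM : Set (List Bool) := {x | ∃ d, encData d = x ∧ Yes d}

open Classical in
/-- The class PP: `L` is in PP iff there are a polynomial-time verifier `V` and a polynomial `p` such
that `x ∈ L` iff more than half of the bit strings `w` of length `p (|x|)` satisfy `V (x, w)`. -/
noncomputable def PP : Set (Set (List Bool)) :=
  {L | ∃ (V : List Bool × List Bool → Bool) (p : Polynomial ℕ), PolyTime encPair encBool V ∧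
    ∀ x, x ∈ L ↔ 2 ^ p.eval x.length <
      2 * (Finset.univ.filter (fun w : Fin (p.eval x.length) → Bool =>
        V (x, List.ofFn w) = true)).card}

end GenMed
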