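import Pool.Agent.GenMed.Hyper

/-!
# Extracting the number of solutions of a constraint satisfaction problem from the threshold
-/

namespace GenMed

/-- weights and forbidden patterns as hyperedges -/
def hyp (q r t : ℕ) (Pat : List (List ℕ)) : List (List ℕ) :=
  (List.range q).flatMap (fun u => List.replicate r [u]) ++ Pat.flatMap (fun h => List.replicate t h)

theorem countP_range_sub {q : ℕ} (S : Finset (Fin q)) :
    (List.range q).countP (fun u => decide (∃ i ∈ S, (i : ℕ) = u)) = S.card := by
  have h1 : (List.range q).countP (fun u => decide (∃ i ∈ S, (i : ℕ) = u)) =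
      ((Finset.range q).filter (fun u => ∃ i ∈ S, (i : ℕ) = u)).card := by
    rw [← List.toFinset_range, List.Nodup.card_eq_countP List.nodup_range]
  rw [h1, ← Finset.card_image_of_injective S Fin.val_injective]
  congr 1
  ext u
  simp only [Finset.mem_filter, Finset.mem_range, Finset.mem_image]
  constructor
  · rintro ⟨_, h⟩; exact h
  · rintro ⟨i, hi, rfl⟩; exact ⟨i.2, i, hi, rfl⟩

theorem countP_hyp {q : ℕ} (r t : ℕ) (Pat : List (List ℕ)) (S : Finset (Fin q)) :
    (hyp q r t Pat).countP (fun h => decide (Sub S h)) =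
      r * S.card + t * Pat.countP (fun h => decide (Sub S h)) := by
  have h2 : ∀ (k : ℕ) (L : List (List ℕ)) (p : List ℕ → Bool),
      (L.flatMap (fun h => List.replicate k h)).countP p = k * L.countP p := by
    intro k L p
    induction L with
    | nil => simp
    | cons h L ih =>
      rw [List.flatMap_cons, List.countP_append, ih, List.countP_replicate, List.countP_cons]
      split_ifs <;> ring
  have h3 : (List.range q).flatMap (fun u => List.replicate r [u]) =
      ((List.range q).map (fun u => [u])).flatMap (fun h => List.replicate r h) := by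
    rw [List.flatMap_map]
  rw [hyp, List.countP_append, h2, h3, h2, List.countP_map, ← countP_range_sub S]
  congr 2
  apply List.countP_congr
  intro u _
  simp [Sub]

/-- no pattern is contained in `S` -/
def Free {q : ℕ} (Pat : List (List ℕ)) (S : Finset (Fin q)) : Prop := ∀ h ∈ Pat, ¬ Sub S h

instance {q : ℕ} (Pat : List (List ℕ)) : DecidablePred (Free (q := q) Pat) := fun S => by
  unfold Free; infer_instance

theorem extract {q K r t : ℕ} {Pat : List (List ℕ)} (hK : 1 ≤ K) (hr : q + 2 ≤ r)
    (ht : q + r * K + 1 ≤ t) (hfree : ∀ S : Finset (Fin q), Free Pat S → S.card ≤ K) :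
    (NN q (hyp q r t Pat) % 2 ^ t) / 2 ^ (r * K) =
      (Finset.univ.filter (fun S : Finset (Fin q) => Free Pat S ∧ S.card = K)).card := by
  have hrK : r * K = r * (K - 1) + r := by
    obtain ⟨k, rfl⟩ : ∃ k, K = k + 1 := ⟨K - 1, by omega⟩
    simp; ring
  have hfc : ∀ S : Finset (Fin q), Free Pat S ↔ Pat.countP (fun h => decide (Sub S h)) = 0 := by
    intro S
    rw [List.countP_eq_zero]
    simp [Free]
  -- decomposition
  set A := 2 ^ q + ∑ S ∈ Finset.univ.filter (fun S : Finset (Fin q) => Free Pat S), 2 ^ (r * S.card)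
    with hA
  set G := (Finset.univ.filter (fun S : Finset (Fin q) => Free Pat S ∧ S.card = K)).card with hG
  obtain ⟨X, hX⟩ : ∃ X, NN q (hyp q r t Pat) = A + 2 ^ t * X := by
    refine ⟨∑ S ∈ Finset.univ.filter (fun S : Finset (Fin q) => ¬ Free Pat S),
      2 ^ (r * S.card + t * (Pat.countP (fun h => decide (Sub S h)) - 1)), ?_⟩
    rw [NN, ← Finset.sum_filter_add_sum_filter_not Finset.univ (fun S => Free Pat S), hA,
      Finset.mul_sum, Nat.add_assoc]
    congr 2
    · refine Finset.sum_congr rfl fun S hS => ?_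
      rw [Finset.mem_filter] at hS
      rw [countP_hyp, (hfc S).1 hS.2, Nat.mul_zero, Nat.add_zero]
    · refine Finset.sum_congr rfl fun S hS => ?_
      rw [Finset.mem_filter, hfc] at hS
      rw [countP_hyp, ← pow_add]
      congr 1
      obtain ⟨k, hk⟩ : ∃ k, Pat.countP (fun h => decide (Sub S h)) = k + 1 :=
        ⟨Pat.countP (fun h => decide (Sub S h)) - 1, by have := hS.2; omega⟩
      rw [hk, Nat.add_sub_cancel]
      ring
  have hpow : ∀ k, k ≤ K → 2 ^ (r * k) ≤ 2 ^ (r * K) := fun k hk =>
    Nat.pow_le_pow_right (by norm_num) (Nat.mul_le_mul_left _ hk)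
  have hcardle : ∀ P : Finset (Fin q) → Prop, ∀ _ : DecidablePred P,
      (Finset.univ.filter P).card ≤ 2 ^ q := by
    intro P _
    refine (Finset.card_filter_le _ _).trans ?_
    rw [Finset.card_univ, Fintype.card_finset, Fintype.card_fin]
  have hAlt : A < 2 ^ t := by
    have h1 : ∑ S ∈ Finset.univ.filter (fun S : Finset (Fin q) => Free Pat S), 2 ^ (r * S.card) ≤
        2 ^ q * 2 ^ (r * K) := by
      refine (Finset.sum_le_card_nsmul _ _ (2 ^ (r * K)) ?_).trans ?_
      · intro S hS
        rw [Finset.mem_filter] at hS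
        exact hpow _ (hfree S hS.2)
      · rw [smul_eq_mul]
        exact Nat.mul_le_mul_right _ (hcardle _ _)
    have h2 : 2 ^ q < 2 ^ (q + r * K) := by
      apply Nat.pow_lt_pow_right (by norm_num)
      have : 1 ≤ r * K := Nat.mul_pos (by omega) hK
      omega
    have h3 : 2 ^ (q + r * K + 1) ≤ 2 ^ t := Nat.pow_le_pow_right (by norm_num) ht
    rw [← pow_add] at h1
    rw [pow_succ] at h3
    omega
  have hB : ∃ B, B < 2 ^ (r * K) ∧ A = B + 2 ^ (r * K) * G := by
    refine ⟨2 ^ q + ∑ S ∈ Finset.univ.filter (fun S : Finset (Fin q) => Free Pat S ∧ ¬ S.card = K),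
      2 ^ (r * S.card), ?_, ?_⟩
    · have h1 : ∑ S ∈ Finset.univ.filter (fun S : Finset (Fin q) => Free Pat S ∧ ¬ S.card = K),
          2 ^ (r * S.card) ≤ 2 ^ q * 2 ^ (r * (K - 1)) := by
        refine (Finset.sum_le_card_nsmul _ _ (2 ^ (r * (K - 1))) ?_).trans ?_
        · intro S hS
          rw [Finset.mem_filter] at hS
          have := hfree S hS.2.1
          exact Nat.pow_le_pow_right (by norm_num) (Nat.mul_le_mul_left _ (by omega))
        · rw [smul_eq_mul]
          exact Nat.mul_le_mul_right _ (hcardle _ _)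
      have h2 : 2 ^ q * 2 ^ (r * (K - 1)) ≤ 2 ^ (r * K - 2) := by
        rw [← pow_add]
        exact Nat.pow_le_pow_right (by norm_num) (by omega)
      have h3 : 2 ^ q ≤ 2 ^ (r * K - 2) := Nat.pow_le_pow_right (by norm_num) (by omega)
      have h4 : 2 ^ (r * K) = 4 * 2 ^ (r * K - 2) := by
        obtain ⟨k, hk⟩ : ∃ k, r * K = k + 2 := ⟨r * K - 2, by omega⟩
        rw [hk, Nat.add_sub_cancel]; ring
      have h5 : 0 < 2 ^ (r * K - 2) := by positivity
      omega
    · rw [hA, ← Finset.sum_filter_add_sum_filter_not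
        (Finset.univ.filter (fun S : Finset (Fin q) => Free Pat S)) (fun S => S.card = K),
        Finset.filter_filter, Finset.filter_filter]
      have h1 : ∑ S ∈ Finset.univ.filter (fun S : Finset (Fin q) => Free Pat S ∧ S.card = K),
          2 ^ (r * S.card) = 2 ^ (r * K) * G := by
        rw [Finset.sum_congr rfl (g := fun _ => 2 ^ (r * K)), Finset.sum_const, smul_eq_mul,
          Nat.mul_comm]
        intro S hS
        rw [Finset.mem_filter] at hS
        rw [hS.2.2]
      rw [h1]
      ring
  obtain ⟨B, hB1, hB2⟩ := hB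
  rw [hX, Nat.add_mul_mod_self_left, Nat.mod_eq_of_lt hAlt, hB2,
    Nat.add_mul_div_left _ _ (by positivity), Nat.div_eq_of_lt hB1, Nat.zero_add]

/-- the set of the pairs (cell, symbol) of an assignment -/
def img {K a : ℕ} (z : Fin K → Fin a) : Finset (Fin (K * a)) :=
  Finset.univ.image (fun c => ⟨c * a + z c, by
    calc (c : ℕ) * a + z c < c * a + a := by have := (z c).2; omega
      _ = (c + 1) * a := by ring
      _ ≤ K * a := Nat.mul_le_mul_right _ c.2⟩)

theorem cell_inj {a c c' s s' : ℕ} (hs : s < a) (hs' : s' < a) (h : c * a + s = c' * a + s') :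
    c = c' ∧ s = s' := by
  have h1 : (c * a + s) / a = c := by
    rw [Nat.mul_comm, Nat.mul_add_div (by omega), Nat.div_eq_of_lt hs, Nat.add_zero]
  have h2 : (c' * a + s') / a = c' := by
    rw [Nat.mul_comm, Nat.mul_add_div (by omega), Nat.div_eq_of_lt hs', Nat.add_zero]
  have h3 : c = c' := by rw [← h1, ← h2, h]
  subst h3
  exact ⟨rfl, by omega⟩

theorem card_img {K a : ℕ} (z : Fin K → Fin a) : (img z).card = K := by
  rw [img, Finset.card_image_of_injective, Finset.card_univ, Fintype.card_fin]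
  intro c c' h
  rw [Fin.mk.injEq] at h
  exact Fin.ext (cell_inj (z c).2 (z c').2 h).1

theorem img_injective {K a : ℕ} : Function.Injective (img : (Fin K → Fin a) → _) := by
  intro z z' h
  funext c
  have h1 : (⟨c * a + z c, by
    calc (c : ℕ) * a + z c < c * a + a := by have := (z c).2; omega
      _ = (c + 1) * a := by ring
      _ ≤ K * a := Nat.mul_le_mul_right _ c.2⟩ : Fin (K * a)) ∈ img z := by
    rw [img]
    exact Finset.mem_image_of_mem (fun c => (⟨c * a + z c, _⟩ : Fin (K * a))) (Finset.mem_univ c)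
  rw [h, img, Finset.mem_image] at h1
  obtain ⟨c', -, h2⟩ := h1
  rw [Fin.mk.injEq] at h2
  obtain ⟨h3, h4⟩ := cell_inj (z' c').2 (z c).2 h2
  have h5 : c' = c := Fin.ext h3
  subst h5
  exact Fin.ext h4.symm

theorem sub_img {K a : ℕ} (z : Fin K → Fin a) (h : List ℕ) :
    Sub (img z) h ↔ ∀ u ∈ h, ∃ c : Fin K, (c : ℕ) * a + z c = u := by
  unfold Sub
  refine forall₂_congr fun u _ => ?_
  simp only [img, Finset.mem_image, Finset.mem_univ, true_and]
  constructor
  · rintro ⟨i, ⟨c, rfl⟩, rfl⟩; exact ⟨c, rfl⟩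
  · rintro ⟨c, h⟩
    exact ⟨⟨u, by
      rw [← h]
      calc (c : ℕ) * a + z c < c * a + a := by have := (z c).2; omega
        _ = (c + 1) * a := by ring
        _ ≤ K * a := Nat.mul_le_mul_right _ c.2⟩, ⟨c, Fin.ext h⟩, rfl⟩

/-- the cell of a pair -/
def cellOf {K a : ℕ} (x : Fin (K * a)) : Fin K :=
  ⟨x / a, Nat.div_lt_of_lt_mul (lt_of_lt_of_eq x.2 (Nat.mul_comm K a))⟩

theorem pos_of_fin {K a : ℕ} (x : Fin (K * a)) : 0 < a :=
  Nat.pos_of_ne_zero (by rintro rfl; exact Fin.elim0 x)

theorem pair_sub {K a : ℕ} {Pat : List (List ℕ)}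
    (hp : ∀ c < K, ∀ s < a, ∀ s' < s, [c * a + s', c * a + s] ∈ Pat) {S : Finset (Fin (K * a))}
    (hS : Free Pat S) : Set.InjOn cellOf (S : Set (Fin (K * a))) := by
  have ha : ∀ x : Fin (K * a), 0 < a := pos_of_fin
  have key : ∀ x ∈ S, ∀ y ∈ S, cellOf x = cellOf y → (x : ℕ) % a < (y : ℕ) % a → False := by
    intro x hx y hy hxy hlt
    have hc : (x : ℕ) / a = (y : ℕ) / a := congrArg Fin.val hxy
    have h1 := hp (cellOf x) (cellOf x).2 ((y : ℕ) % a) (Nat.mod_lt _ (ha x)) _ hlt
    apply hS _ h1
    intro u hu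
    simp only [List.mem_cons, List.not_mem_nil, or_false] at hu
    rcases hu with rfl | rfl
    · refine ⟨x, hx, ?_⟩
      exact (Nat.div_add_mod' (x : ℕ) a).symm
    · refine ⟨y, hy, ?_⟩
      change (y : ℕ) = (x : ℕ) / a * a + _
      rw [hc]
      exact (Nat.div_add_mod' (y : ℕ) a).symm
  intro x hx y hy hxy
  rcases Nat.lt_trichotomy ((x : ℕ) % a) ((y : ℕ) % a) with h | h | h
  · exact (key x hx y hy hxy h).elim
  · have hc : (x : ℕ) / a = (y : ℕ) / a := congrArg Fin.val hxy
    apply Fin.ext
    rw [← Nat.div_add_mod (x : ℕ) a, ← Nat.div_add_mod (y : ℕ) a, hc, h]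
  · exact (key y hy x hx hxy.symm h).elim

theorem card_free_eq {K a : ℕ} {Pat : List (List ℕ)}
    (hp : ∀ c < K, ∀ s < a, ∀ s' < s, [c * a + s', c * a + s] ∈ Pat) :
    (Finset.univ.filter (fun S : Finset (Fin (K * a)) => Free Pat S ∧ S.card = K)).card =
      (Finset.univ.filter (fun z : Fin K → Fin a => ∀ h ∈ Pat,
        ¬ ∀ u ∈ h, ∃ c : Fin K, (c : ℕ) * a + z c = u)).card := by
  symm
  rw [← Finset.card_image_of_injective _ img_injective]
  congr 1
  ext S
  simp only [Finset.mem_image, Finset.mem_filter, Finset.mem_univ, true_and]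
  constructor
  · rintro ⟨z, hz, rfl⟩
    exact ⟨fun h hh => by rw [sub_img]; exact hz h hh, card_img z⟩
  · rintro ⟨hS, hc⟩
    have hinj := pair_sub hp hS
    have himg : S.image cellOf = Finset.univ := by
      apply Finset.eq_univ_of_card
      rw [Finset.card_image_of_injOn hinj, hc, Fintype.card_fin]
    have hex : ∀ c : Fin K, ∃ x ∈ S, cellOf x = c := by
      intro c
      have := Finset.mem_univ c
      rw [← himg, Finset.mem_image] at this
      exact this
    choose x hx hxc using hex
    have ha : ∀ c : Fin K, 0 < a := fun c => pos_of_fin (x c)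
    have himgz : img (fun c => (⟨(x c : ℕ) % a, Nat.mod_lt _ (ha c)⟩ : Fin a)) = S := by
      apply Finset.eq_of_subset_of_card_le
      · intro y hy
        rw [img, Finset.mem_image] at hy
        obtain ⟨c, -, rfl⟩ := hy
        have h1 : (x c : ℕ) / a = c := congrArg Fin.val (hxc c)
        have h2 : (⟨c * a + (x c : ℕ) % a, by
          calc (c : ℕ) * a + (x c : ℕ) % a < c * a + a := by
                have := Nat.mod_lt (x c : ℕ) (ha c); omega
            _ = (c + 1) * a := by ring
            _ ≤ K * a := Nat.mul_le_mul_right _ c.2⟩ : Fin (K * a)) = x c := by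
          apply Fin.ext
          change (c : ℕ) * a + (x c : ℕ) % a = x c
          rw [← h1]
          exact Nat.div_add_mod' _ _
        change (⟨c * a + (x c : ℕ) % a, _⟩ : Fin (K * a)) ∈ S
        rw [h2]
        exact hx c
      · rw [card_img, hc]
    refine ⟨_, ?_, himgz⟩
    intro h hh
    rw [← sub_img, himgz]
    exact hS h hh

/-- The number of solutions of a constraint satisfaction problem, from the threshold. -/
theorem extract_csp {K a r t : ℕ} {Pat : List (List ℕ)} (hK : 1 ≤ K) (hr : K * a + 2 ≤ r)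
    (ht : K * a + r * K + 1 ≤ t)
    (hp : ∀ c < K, ∀ s < a, ∀ s' < s, [c * a + s', c * a + s] ∈ Pat) :
    (NN (K * a) (hyp (K * a) r t Pat) % 2 ^ t) / 2 ^ (r * K) =
      (Finset.univ.filter (fun z : Fin K → Fin a => ∀ h ∈ Pat,
        ¬ ∀ u ∈ h, ∃ c : Fin K, (c : ℕ) * a + z c = u)).card := by
  rw [extract hK hr ht, card_free_eq hp]
  intro S hS
  rw [← Finset.card_image_of_injOn (pair_sub hp hS)]
  calc (S.image cellOf).card ≤ (Finset.univ : Finset (Fin K)).card :=
        Finset.card_le_card (Finset.subset_univ _)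
    _ = K := by rw [Finset.card_univ, Fintype.card_fin]

/-- the number never exceeds the obvious bound -/
theorem NN_le (q : ℕ) (H : List (List ℕ)) : NN q H ≤ 2 ^ (q + H.length + 1) := by
  have h1 : ∑ S : Finset (Fin q), 2 ^ (H.countP (fun h => decide (Sub S h))) ≤ 2 ^ q * 2 ^ H.length := by
    refine (Finset.sum_le_card_nsmul _ _ (2 ^ H.length) ?_).trans ?_
    · intro S _
      exact Nat.pow_le_pow_right (by norm_num) List.countP_le_length
    · rw [smul_eq_mul, Finset.card_univ, Fintype.card_finset, Fintype.card_fin]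
  have h2 : 2 ^ q ≤ 2 ^ q * 2 ^ H.length := Nat.le_mul_of_pos_right _ (by positivity)
  rw [NN, pow_succ, pow_add]
  omega

end GenMed
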