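import Pool.Agent.GenMed.Defs
import Pool.Agent.PolyTime.Decode

/-!
# PP and thresholds for the number of typed certificates
-/

namespace GenMed

open NPC FP

theorem encData_eq (d : Data) : encData d = FP.enc d := rfl

theorem gmsm_eq : GMSM = FP.lang Yes := rfl

/-- number of strings of length `m` accepted by `P` -/
def cnt (m : ℕ) (P : List Bool → Bool) : ℕ :=
  (Finset.univ.filter (fun w : Fin m → Bool => P (List.ofFn w) = true)).card

theorem cnt_succ (m : ℕ) (P : List Bool → Bool) :
    cnt (m + 1) P = cnt m (fun l => P (false :: l)) + cnt m (fun l => P (true :: l)) := by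
  unfold cnt
  rw [Finset.card_filter, Finset.card_filter, Finset.card_filter]
  have h := Fintype.sum_equiv (Fin.consEquiv (fun _ : Fin (m + 1) => Bool))
    (fun q : Bool × (Fin m → Bool) => if P (q.1 :: List.ofFn q.2) = true then 1 else 0)
    (fun w : Fin (m + 1) → Bool => if P (List.ofFn w) = true then 1 else 0) (by
      rintro ⟨b, w⟩
      rw [List.ofFn_succ]
      simp [Fin.consEquiv])
  rw [← h, Fintype.sum_prod_type, Fintype.sum_bool, Nat.add_comm]

theorem cnt_congr {m : ℕ} {P Q : List Bool → Bool} (h : ∀ l, l.length = m → P l = Q l) :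
    cnt m P = cnt m Q := by
  unfold cnt
  congr 1
  apply Finset.filter_congr
  intro w _
  rw [h _ (by simp)]

theorem cnt_not_add (m : ℕ) (P : List Bool → Bool) : cnt m P + cnt m (fun l => !P l) = 2 ^ m := by
  unfold cnt
  have h := Finset.card_filter_add_card_filter_not (s := (Finset.univ : Finset (Fin m → Bool)))
    (fun w => P (List.ofFn w) = true)
  rw [Finset.card_univ, Fintype.card_fun, Fintype.card_bool, Fintype.card_fin] at h
  rw [← h]
  congr 2
  apply Finset.filter_congr
  intro w _
  simp

theorem cnt_lt (m : ℕ) : ∀ τ ≤ 2 ^ m, cnt m (fun l => decide (ofBits l < τ)) = τ := by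
  induction m with
  | zero =>
    intro τ hτ
    rw [pow_zero] at hτ
    unfold cnt
    rcases Nat.eq_zero_or_pos τ with rfl | h
    · simp
    · obtain rfl : τ = 1 := by omega
      simp
  | succ m ih =>
    intro τ hτ
    rw [cnt_succ]
    rw [pow_succ] at hτ
    have h1 : cnt m (fun l => decide (ofBits (false :: l) < τ)) = (τ + 1) / 2 := by
      rw [← ih ((τ + 1) / 2) (by omega)]
      apply cnt_congr
      intro l _
      rw [ofBits_cons, Nat.bit_val, decide_eq_decide, Bool.toNat_false]
      omega
    have h2 : cnt m (fun l => decide (ofBits (true :: l) < τ)) = τ / 2 := by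
      rw [← ih (τ / 2) (by omega)]
      apply cnt_congr
      intro l _
      rw [ofBits_cons, Nat.bit_val, decide_eq_decide, Bool.toNat_true]
      omega
    rw [h1, h2]
    omega

theorem cnt_ge (m τ : ℕ) (hτ : τ ≤ 2 ^ m) :
    cnt m (fun l => decide (ofBits l + τ < 2 ^ m)) = 2 ^ m - τ := by
  rw [← cnt_lt m (2 ^ m - τ) (Nat.sub_le _ _)]
  apply cnt_congr
  intro l _
  rw [decide_eq_decide]
  omega

theorem cnt_eq_ncard (m : ℕ) (P : List Bool → Bool) :
    cnt m P = Set.ncard {l : List Bool | l.length = m ∧ P l = true} := by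
  have h : {l : List Bool | l.length = m ∧ P l = true} =
      (fun w : Fin m → Bool => List.ofFn w) ''
        (↑(Finset.univ.filter (fun w : Fin m → Bool => P (List.ofFn w) = true)) : Set (Fin m → Bool)) := by
    ext l
    simp only [Set.mem_ofPred_eq, Set.mem_image, Finset.coe_filter, Finset.mem_univ, true_and]
    constructor
    · rintro ⟨rfl, h⟩
      exact ⟨fun i => l[(i : ℕ)], by rw [List.ofFn_getElem]; exact h, List.ofFn_getElem⟩
    · rintro ⟨w, h, rfl⟩
      exact ⟨by simp, h⟩
  rw [h, Set.ncard_image_of_injective _ List.ofFn_injective, Set.ncard_coe_finset]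
  rfl

section
variable {α β : Type} [DCode α] [DCode β]

/-- the certificate in a string of fixed length -/
def wpad (V : α × β → Bool) (x l : List Bool) : Bool :=
  decide (prS (enc (dec (fstS l) : β))
    (List.replicate (l.length - (2 * (enc (dec (fstS l) : β) : List Bool).length + 1)) false) = l) &&
  V (dec x, dec (fstS l))

theorem poly_wpad {V : α × β → Bool} (hV : Poly V) {γ : Type} [Code γ] {x l : γ → List Bool}
    (hx : Poly x) (hl : Poly l) : Poly (fun g => wpad V (x g) (l g)) := by
  unfold wpad
  have h1 : Poly (fun g => (dec (fstS (l g)) : β)) := Poly.decode (Poly.fstS hl)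
  have h2 : Poly (fun g => (enc (dec (fstS (l g)) : β) : List Bool)) := Poly.encode h1
  have h3 : Poly (fun g => List.replicate
      ((l g).length - (2 * (enc (dec (fstS (l g)) : β) : List Bool).length + 1)) false) :=
    Poly.replicate (by fun_prop) (by fun_prop) (by fun_prop)
  have h4 : Poly (fun g => prS (enc (dec (fstS (l g)) : β)) (List.replicate
      ((l g).length - (2 * (enc (dec (fstS (l g)) : β) : List Bool).length + 1)) false)) :=
    Poly.encode (f := fun g => (Raw.mk (enc (dec (fstS (l g)) : β)), Raw.mk (List.replicate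
      ((l g).length - (2 * (enc (dec (fstS (l g)) : β) : List Bool).length + 1)) false)))
      (Poly.pair (Poly.rawMk h2) (Poly.rawMk h3))
  have h5 : Poly (fun g => V (dec (x g), dec (fstS (l g)))) :=
    hV.comp (Poly.pair (Poly.decode hx) h1)
  exact Poly.and (Poly.decideEq h4 hl) h5

theorem cnt_wpad (V : α × β → Bool) (a : α) (Q : ℕ)
    (hB : ∀ c, V (a, c) = true → 2 * size c + 1 ≤ Q) :
    cnt Q (wpad V (enc a)) = Set.ncard {c : β | V (a, c) = true} := by
  rw [cnt_eq_ncard]
  have h : {l : List Bool | l.length = Q ∧ wpad V (enc a) l = true} =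
      (fun c : β => prS (enc c) (List.replicate (Q - (2 * size c + 1)) false)) ''
        {c : β | V (a, c) = true} := by
    ext l
    simp only [Set.mem_ofPred_eq, Set.mem_image, wpad, Bool.and_eq_true, decide_eq_true_eq, dec_enc]
    constructor
    · rintro ⟨rfl, h1, h2⟩
      exact ⟨_, h2, h1⟩
    · rintro ⟨c, hc, rfl⟩
      have hlen : (prS (enc c) (List.replicate (Q - (2 * size c + 1)) false)).length = Q := by
        rw [length_prS, List.length_replicate]
        have := hB c hc
        unfold size at this ⊢
        omega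
      refine ⟨hlen, ?_, ?_⟩
      · rw [fstS_prS, dec_enc, hlen]
        rfl
      · rw [fstS_prS, dec_enc]
        exact hc
  rw [h]
  apply Set.InjOn.ncard_image
  intro c _ c' _ hcc
  exact Code.inj (prS_inj hcc).1

theorem size_dec_bound (P : Polynomial ℕ) {a : α} {x : List Bool} (h : enc a = x) :
    P.eval (size a) = P.eval x.length := by
  unfold size; rw [h]

open Classical in
theorem cnt_classical (m : ℕ) (P : List Bool → Bool) :
    (Finset.univ.filter (fun w : Fin m → Bool => P (List.ofFn w) = true)).card = cnt m P := by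
  unfold cnt
  congr 1

/-- More than `τ` certificates. -/
theorem mem_PP_gt (V : α × β → Bool) (hV : Poly V) (B : Polynomial ℕ)
    (hB : ∀ a c, V (a, c) = true → size c ≤ B.eval (size a)) (τ : α → ℕ) (hτ : Poly τ) :
    lang (fun a => τ a < Set.ncard {c : β | V (a, c) = true}) ∈ PP := by
  obtain ⟨T, hT⟩ := hτ.size_le
  have hxe : Poly (fun q : List Bool × List Bool => (enc (dec q.1 : α) : List Bool)) :=
    Poly.encode (Poly.decode Poly.fst')
  have hw : Poly (fun q : List Bool × List Bool => wpad V q.1 q.2.tail) :=
    poly_wpad hV Poly.fst' (by fun_prop)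
  have hτ' : Poly (fun q : List Bool × List Bool => τ (dec q.1)) := hτ.comp (Poly.decode Poly.fst')
  have h2 : Poly (fun q : List Bool × List Bool => 2 ^ q.2.tail.length) :=
    Poly.twoPow (by fun_prop) (by fun_prop)
  let V' : List Bool × List Bool → Bool := fun q => decide (enc (dec q.1 : α) = q.1) &&
    (if (q.2.head?).getD false = true then decide (ofBits q.2.tail + τ (dec q.1) < 2 ^ q.2.tail.length)
      else wpad V q.1 q.2.tail)
  have hV' : Poly V' := by
    have e1 : Poly (fun q : List Bool × List Bool => decide (enc (dec q.1 : α) = q.1)) :=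
      Poly.decideEq hxe Poly.fst'
    refine Poly.and e1 ?_
    fun_prop
  refine ⟨V', 2 * B + T + 1 + 1, hV'.polyTime_pair_bool, ?_⟩
  intro x
  rw [cnt_classical _ (fun l => V' (x, l))]
  have hev : (2 * B + T + 1 + 1).eval x.length = (2 * B.eval x.length + T.eval x.length + 1) + 1 := by
    simp
  rw [hev, cnt_succ]
  set Q := 2 * B.eval x.length + T.eval x.length + 1 with hQ
  rw [mem_lang_iff]
  by_cases hx : enc (dec x : α) = x
  · have e1 : cnt Q (fun l => V' (x, false :: l)) = Set.ncard {c : β | V (dec x, c) = true} := by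
      rw [← cnt_wpad V (dec x) Q]
      · apply cnt_congr
        intro l _
        simp only [V', hx, decide_true, Bool.true_and, List.head?_cons, Option.getD_some,
          Bool.false_eq_true, if_false, List.tail_cons]
      · intro c hc
        have h3 := hB _ _ hc
        rw [size_dec_bound B hx] at h3
        omega
    have e2 : cnt Q (fun l => V' (x, true :: l)) = 2 ^ Q - τ (dec x) := by
      rw [← cnt_ge Q (τ (dec x))]
      · apply cnt_congr
        intro l hl
        simp only [V', hx, decide_true, Bool.true_and, List.head?_cons, Option.getD_some,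
          if_true, List.tail_cons, hl]
      · have h3 := hT (dec x)
        rw [size_dec_bound T hx, size_nat, Nat.size_le] at h3
        exact h3.le.trans (Nat.pow_le_pow_right (by norm_num) (by omega))
    have e3 : τ (dec x) ≤ 2 ^ Q := by
      have h3 := hT (dec x)
      rw [size_dec_bound T hx, size_nat, Nat.size_le] at h3
      exact h3.le.trans (Nat.pow_le_pow_right (by norm_num) (by omega))
    rw [e1, e2, pow_succ]
    constructor
    · rintro ⟨-, h⟩; omega
    · intro h; exact ⟨hx, by omega⟩
  · have e1 : ∀ b, cnt Q (fun l => V' (x, b :: l)) = 0 := by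
      intro b
      unfold cnt
      rw [Finset.card_eq_zero, Finset.filter_eq_empty_iff]
      intro w _
      simp [V', hx]
    rw [e1, e1]
    constructor
    · rintro ⟨h, -⟩; exact absurd h hx
    · intro h; exact absurd h (by simp)

/-- Fewer than `τ` certificates. -/
theorem mem_PP_lt (V : α × β → Bool) (hV : Poly V) (B : Polynomial ℕ)
    (hB : ∀ a c, V (a, c) = true → size c ≤ B.eval (size a)) (τ : α → ℕ) (hτ : Poly τ) :
    lang (fun a => Set.ncard {c : β | V (a, c) = true} < τ a) ∈ PP := by
  obtain ⟨T, hT⟩ := hτ.size_le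
  have hxe : Poly (fun q : List Bool × List Bool => (enc (dec q.1 : α) : List Bool)) :=
    Poly.encode (Poly.decode Poly.fst')
  have hw : Poly (fun q : List Bool × List Bool => wpad V q.1 q.2.tail) :=
    poly_wpad hV Poly.fst' (by fun_prop)
  have hτ' : Poly (fun q : List Bool × List Bool => τ (dec q.1)) := hτ.comp (Poly.decode Poly.fst')
  let V' : List Bool × List Bool → Bool := fun q => decide (enc (dec q.1 : α) = q.1) &&
    (if (q.2.head?).getD false = true then decide (ofBits q.2.tail < τ (dec q.1))
      else !(wpad V q.1 q.2.tail))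
  have hV' : Poly V' := by
    have e1 : Poly (fun q : List Bool × List Bool => decide (enc (dec q.1 : α) = q.1)) :=
      Poly.decideEq hxe Poly.fst'
    refine Poly.and e1 ?_
    fun_prop
  refine ⟨V', 2 * B + T + 1 + 1, hV'.polyTime_pair_bool, ?_⟩
  intro x
  rw [cnt_classical _ (fun l => V' (x, l))]
  have hev : (2 * B + T + 1 + 1).eval x.length = (2 * B.eval x.length + T.eval x.length + 1) + 1 := by
    simp
  rw [hev, cnt_succ]
  set Q := 2 * B.eval x.length + T.eval x.length + 1 with hQ
  rw [mem_lang_iff]
  by_cases hx : enc (dec x : α) = x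
  · have e0 : cnt Q (wpad V (enc (dec x : α))) = Set.ncard {c : β | V (dec x, c) = true} := by
      apply cnt_wpad
      intro c hc
      have h3 := hB _ _ hc
      rw [size_dec_bound B hx] at h3
      omega
    have e1 : cnt Q (fun l => V' (x, false :: l)) + Set.ncard {c : β | V (dec x, c) = true} =
        2 ^ Q := by
      rw [← e0, hx, ← cnt_not_add Q (wpad V x), Nat.add_comm]
      congr 1
      apply cnt_congr
      intro l _
      simp only [V', hx, decide_true, Bool.true_and, List.head?_cons, Option.getD_some,
        Bool.false_eq_true, if_false, List.tail_cons]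
    have e3 : τ (dec x) ≤ 2 ^ Q := by
      have h3 := hT (dec x)
      rw [size_dec_bound T hx, size_nat, Nat.size_le] at h3
      exact h3.le.trans (Nat.pow_le_pow_right (by norm_num) (by omega))
    have e2 : cnt Q (fun l => V' (x, true :: l)) = τ (dec x) := by
      rw [← cnt_lt Q (τ (dec x)) e3]
      apply cnt_congr
      intro l hl
      simp only [V', hx, decide_true, Bool.true_and, List.head?_cons, Option.getD_some,
        if_true, List.tail_cons]
      rfl
    rw [e2, pow_succ]
    constructor
    · rintro ⟨-, h⟩; omega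
    · intro h; exact ⟨hx, by omega⟩
  · have e1 : ∀ b, cnt Q (fun l => V' (x, b :: l)) = 0 := by
      intro b
      unfold cnt
      rw [Finset.card_eq_zero, Finset.filter_eq_empty_iff]
      intro w _
      simp [V', hx]
    rw [e1, e1]
    constructor
    · rintro ⟨h, -⟩; exact absurd h hx
    · intro h; exact absurd h (by simp)

end

theorem finite_size {β : Type} [Code β] (S : Set β) (n : ℕ) (h : ∀ c ∈ S, size c ≤ n) :
    S.Finite := by
  have h1 : ((fun c : β => (enc c : List Bool)) '' S).Finite := by
    refine (List.finite_length_le Bool n).subset ?_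
    rintro _ ⟨c, hc, rfl⟩
    exact h c hc
  exact h1.of_finite_image (fun a _ b _ hab => Code.inj hab)

/-- NP is contained in PP. -/
theorem np_subset_pp : NPC.NP ⊆ PP := by
  intro L hL
  obtain ⟨V, P, hV, hb, hL⟩ := NP_elim hL
  let V' : Raw × Raw → Bool := fun q => V (q.1.bits, q.2.bits)
  have hV' : Poly V' := hV.comp (by fun_prop)
  have h := mem_PP_gt V' hV' P (fun a c h => hb _ _ h) (fun _ => 0) (by fun_prop)
  have hE : L = lang (fun a : Raw => 0 < Set.ncard {c : Raw | V' (a, c) = true}) := by
    ext x
    rw [mem_lang_iff]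
    have hfin : {c : Raw | V' (Raw.mk x, c) = true}.Finite :=
      finite_size _ (P.eval x.length) (fun c hc => hb _ _ hc)
    change _ ↔ _ ∧ 0 < Set.ncard {c : Raw | V' (Raw.mk x, c) = true}
    rw [Set.ncard_pos hfin, hL]
    constructor
    · rintro ⟨w, hw⟩
      exact ⟨rfl, Raw.mk w, hw⟩
    · rintro ⟨-, w, hw⟩
      exact ⟨w.bits, hw⟩
  rw [hE]
  exact h

end GenMed
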