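import Pool.Agent.GenMed.PolyInst
import Pool.Agent.GenMed.PPLem

/-!
# If the decision problem is in NP, then so is everything in PP
-/

namespace GenMed

open NPC FP

/-- the parameters of the instance -/
def kk (n : ℕ) : ℕ := (n + 2) * (n + 2)
def qq (a n : ℕ) : ℕ := (n + 2) * (n + 2) * a
def rr (a n : ℕ) : ℕ := qq a n + 2
def tt (a n : ℕ) : ℕ := qq a n + rr a n * kk n + 1
def mm (a n : ℕ) : ℕ := qq a n + 3

noncomputable def hh (a : ℕ) (al : Cl × Bool → ℕ → Prop) (Wr : ℕ → ℕ → ℕ → ℕ → Prop)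
    (p N : Polynomial ℕ) (x : List Bool) : List (List ℕ) :=
  hyp (qq a (N.eval x.length)) (rr a (N.eval x.length)) (tt a (N.eval x.length))
    (pats a al Wr (x.length + 1) (x.length + 2 + p.eval x.length) (N.eval x.length)
      (false :: x.reverse))

section
variable {α : Type} [Code α]

theorem poly_kk {n : α → ℕ} (h : Poly n) : Poly (fun x => kk (n x)) := by unfold kk; fun_prop
theorem bdd_kk {n : α → ℕ} (h : PolyBdd n) : PolyBdd (fun x => kk (n x)) := by unfold kk; fun_prop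
theorem poly_qq (a : ℕ) {n : α → ℕ} (h : Poly n) : Poly (fun x => qq a (n x)) := by
  unfold qq; fun_prop
theorem bdd_qq (a : ℕ) {n : α → ℕ} (h : PolyBdd n) : PolyBdd (fun x => qq a (n x)) := by
  unfold qq; fun_prop
theorem poly_rr (a : ℕ) {n : α → ℕ} (h : Poly n) : Poly (fun x => rr a (n x)) := by
  unfold rr qq; fun_prop
theorem bdd_rr (a : ℕ) {n : α → ℕ} (h : PolyBdd n) : PolyBdd (fun x => rr a (n x)) := by
  unfold rr qq; fun_prop
theorem poly_tt (a : ℕ) {n : α → ℕ} (h : Poly n) : Poly (fun x => tt a (n x)) := by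
  unfold tt rr qq kk; fun_prop
theorem bdd_tt (a : ℕ) {n : α → ℕ} (h : PolyBdd n) : PolyBdd (fun x => tt a (n x)) := by
  unfold tt rr qq kk; fun_prop
theorem poly_mm (a : ℕ) {n : α → ℕ} (h : Poly n) : Poly (fun x => mm a (n x)) := by
  unfold mm qq; fun_prop
theorem bdd_mm (a : ℕ) {n : α → ℕ} (h : PolyBdd n) : PolyBdd (fun x => mm a (n x)) := by
  unfold mm qq; fun_prop

theorem poly_hh (a : ℕ) (al : Cl × Bool → ℕ → Prop) (Wr : ℕ → ℕ → ℕ → ℕ → Prop)
    (p N : Polynomial ℕ) {x : α → List Bool} (hx : Poly x) :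
    Poly (fun y => hh a al Wr p N (x y)) := by
  have h1 : Poly (fun y => N.eval (x y).length) := Poly.polyEval _ (by fun_prop)
  have h2 : PolyBdd (fun y => N.eval (x y).length) := PolyBdd.polyEval _ (by fun_prop)
  have h3 : Poly (fun y => p.eval (x y).length) := Poly.polyEval _ (by fun_prop)
  unfold hh
  exact poly_hyp (poly_qq a h1) (bdd_qq a h2) (poly_rr a h1) (bdd_rr a h2) (poly_tt a h1)
    (bdd_tt a h2) (poly_pats a al Wr (by fun_prop) (by fun_prop) h1 h2 (by fun_prop))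

end

/-- The number of accepted certificates, from the threshold. -/
theorem hh_extract {a : ℕ} (al : Cl × Bool → ℕ → Prop) (Wr : ℕ → ℕ → ℕ → ℕ → Prop)
    (p N : Polynomial ℕ) (x : List Bool) (ha : 0 < a) (hN : 0 < N.eval x.length) :
    HOK (qq a (N.eval x.length)) (hh a al Wr p N x) ∧ 0 < qq a (N.eval x.length) ∧
    NN (qq a (N.eval x.length)) (hh a al Wr p N x) <
      2 ^ ((hh a al Wr p N x).length + mm a (N.eval x.length) - 1) := by
  refine ⟨hok_hyp ha hN _ _, ?_, ?_⟩
  · exact Nat.mul_pos (Nat.mul_pos (by omega) (by omega)) ha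
  · refine (NN_le _ _).trans_lt (Nat.pow_lt_pow_right (by norm_num) ?_)
    unfold mm
    omega

open Classical in
theorem pp_subset_np (h : ∃ L ∈ NPC.NP, ∀ d, Legal d → (encData d ∈ L ↔ Yes d)) :
    PP ⊆ NPC.NP := by
  simp only [encData_eq] at h
  intro A hA
  obtain ⟨V, p, hV, hA⟩ := hA
  obtain ⟨L, hL, hLd⟩ := h
  obtain ⟨a, al, Wr, N, ha, hgrid⟩ := count_grid hV p
  obtain ⟨VL, PL, hVL, hVb, hVL2⟩ := NP_elim hL
  -- the data
  let n : Raw → ℕ := fun x => N.eval x.bits.length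
  let H : Raw → List (List ℕ) := fun x => hh a al Wr p N x.bits
  let DP : Raw × ℕ → Data := fun z => dataP (qq a (n z.1)) (mm a (n z.1)) (H z.1)
    (jay (mm a (n z.1)) (H z.1).length z.2)
  let DZ : Raw × ℕ → Data := fun z => dataZ (qq a (n z.1)) (mm a (n z.1)) (H z.1)
    (jay (mm a (n z.1)) (H z.1).length z.2 + 1)
  have pn : Poly n := Poly.polyEval _ (by fun_prop)
  have bn : PolyBdd n := PolyBdd.polyEval _ (by fun_prop)
  have pH : Poly H := poly_hh a al Wr p N (by fun_prop)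
  have bH : PolyBdd (fun x => (H x).length) := PolyBdd.length pH
  have pn1 : Poly (fun z : Raw × ℕ => n z.1) := pn.comp Poly.fst'
  have bn1 : PolyBdd (fun z : Raw × ℕ => n z.1) := bn.comp Poly.fst'
  have pH1 : Poly (fun z : Raw × ℕ => H z.1) := pH.comp Poly.fst'
  have bH1 : PolyBdd (fun z : Raw × ℕ => (H z.1).length) := PolyBdd.length pH1
  have pj : Poly (fun z : Raw × ℕ => jay (mm a (n z.1)) (H z.1).length z.2) :=
    poly_jay (poly_mm a pn1) (bdd_mm a bn1) (by fun_prop) bH1 (by fun_prop)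
  have pDP : Poly DP := poly_dataP (poly_qq a pn1) (bdd_qq a bn1) (poly_mm a pn1) (bdd_mm a bn1)
    pH1 pj
  have pDZ : Poly DZ := poly_dataZ (poly_qq a pn1) (bdd_qq a bn1) (poly_mm a pn1) (bdd_mm a bn1)
    pH1 (by fun_prop)
  -- the verifier
  let W : Raw × (ℕ × (List Bool × List Bool)) → Bool := fun z =>
    decide (z.2.1 < 2 ^ ((H z.1).length + mm a (n z.1) - 1)) &&
    (VL (enc (DP (z.1, z.2.1)), z.2.2.1) && (VL (enc (DZ (z.1, z.2.1)), z.2.2.2) &&
    decide (2 ^ p.eval z.1.bits.length < 2 * ((z.2.1 % 2 ^ tt a (n z.1)) /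
      2 ^ (rr a (n z.1) * kk (n z.1))))))
  have pW : Poly W := by
    have q1 : Poly (fun z : Raw × (ℕ × (List Bool × List Bool)) =>
        2 ^ ((H z.1).length + mm a (n z.1) - 1)) := by
      have e1 : Poly (fun z : Raw × (ℕ × (List Bool × List Bool)) => H z.1) := pH.comp Poly.fst'
      have e2 : Poly (fun z : Raw × (ℕ × (List Bool × List Bool)) => mm a (n z.1)) :=
        (poly_mm a pn).comp Poly.fst'
      have e3 : PolyBdd (fun z : Raw × (ℕ × (List Bool × List Bool)) => mm a (n z.1)) :=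
        (bdd_mm a bn).comp Poly.fst'
      exact Poly.twoPow (by fun_prop) (by fun_prop)
    have q2 : Poly (fun z : Raw × (ℕ × (List Bool × List Bool)) =>
        VL (enc (DP (z.1, z.2.1)), z.2.2.1)) :=
      hVL.comp (Poly.pair (Poly.encode (pDP.comp (by fun_prop))) (by fun_prop))
    have q3 : Poly (fun z : Raw × (ℕ × (List Bool × List Bool)) =>
        VL (enc (DZ (z.1, z.2.1)), z.2.2.2)) :=
      hVL.comp (Poly.pair (Poly.encode (pDZ.comp (by fun_prop))) (by fun_prop))
    have q4 : Poly (fun z : Raw × (ℕ × (List Bool × List Bool)) => 2 ^ p.eval z.1.bits.length) :=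
      Poly.twoPow (Poly.polyEval _ (by fun_prop)) (PolyBdd.polyEval _ (by fun_prop))
    have q5 : Poly (fun z : Raw × (ℕ × (List Bool × List Bool)) => 2 ^ tt a (n z.1)) :=
      Poly.twoPow ((poly_tt a pn).comp Poly.fst') ((bdd_tt a bn).comp Poly.fst')
    have q6 : Poly (fun z : Raw × (ℕ × (List Bool × List Bool)) =>
        2 ^ (rr a (n z.1) * kk (n z.1))) := by
      have e1 : Poly (fun z : Raw × (ℕ × (List Bool × List Bool)) => rr a (n z.1)) :=
        (poly_rr a pn).comp Poly.fst'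
      have e2 : PolyBdd (fun z : Raw × (ℕ × (List Bool × List Bool)) => rr a (n z.1)) :=
        (bdd_rr a bn).comp Poly.fst'
      have e3 : Poly (fun z : Raw × (ℕ × (List Bool × List Bool)) => kk (n z.1)) :=
        (poly_kk pn).comp Poly.fst'
      have e4 : PolyBdd (fun z : Raw × (ℕ × (List Bool × List Bool)) => kk (n z.1)) :=
        (bdd_kk bn).comp Poly.fst'
      exact Poly.twoPow (by fun_prop) (by fun_prop)
    fun_prop
  -- the bound
  obtain ⟨B1, hB1⟩ := bH
  obtain ⟨B2, hB2⟩ := bdd_mm a bn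
  obtain ⟨Q1, hQ1⟩ := pDP.size_le
  obtain ⟨Q2, hQ2⟩ := pDZ.size_le
  have hA' : A = lang (fun x : Raw => x.bits ∈ A) := by
    ext x
    constructor
    · intro hx; exact ⟨Raw.mk x, rfl, hx⟩
    · rintro ⟨y, rfl, hy⟩; exact hy
  rw [hA']
  refine mem_NP_lang W pW (2 * (B1 + B2) + 6 * PL.comp (Q1.comp (2 * Polynomial.X + B1 + B2 + 1)) +
    3 * PL.comp (Q2.comp (2 * Polynomial.X + B1 + B2 + 1)) + 2) ?_ ?_
  · rintro x ⟨c, w1, w2⟩ hw
    simp only [W, Bool.and_eq_true, decide_eq_true_eq] at hw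
    obtain ⟨e1, e2, e3, -⟩ := hw
    have f1 : size c ≤ B1.eval (size x) + B2.eval (size x) := by
      rw [size_nat]
      refine (Nat.size_le.2 e1).trans ?_
      have g1 : (H x).length ≤ B1.eval (size x) := hB1 x
      have g2 : mm a (n x) ≤ B2.eval (size x) := hB2 x
      omega
    have f0 : size ((x, c) : Raw × ℕ) ≤ 2 * size x + B1.eval (size x) + B2.eval (size x) + 1 := by
      rw [size_pair]
      omega
    have f2 : w1.length ≤ PL.eval (Q1.eval
        (2 * size x + B1.eval (size x) + B2.eval (size x) + 1)) :=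
      (hVb _ _ e2).trans (eval_mono _ ((hQ1 (x, c)).trans (eval_mono _ f0)))
    have f3 : w2.length ≤ PL.eval (Q2.eval
        (2 * size x + B1.eval (size x) + B2.eval (size x) + 1)) :=
      (hVb _ _ e3).trans (eval_mono _ ((hQ2 (x, c)).trans (eval_mono _ f0)))
    have f4 : size ((c, (w1, w2)) : ℕ × (List Bool × List Bool)) =
        2 * size c + 1 + (2 * (3 * w1.length) + 1 + 3 * w2.length) := by
      rw [size_pair, size_pair, size_str, size_str]
    rw [f4]
    have f5 : (2 * (B1 + B2) + 6 * PL.comp (Q1.comp (2 * Polynomial.X + B1 + B2 + 1)) +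
        3 * PL.comp (Q2.comp (2 * Polynomial.X + B1 + B2 + 1)) + 2).eval (size x) =
        2 * (B1.eval (size x) + B2.eval (size x)) + 6 * PL.eval (Q1.eval
        (2 * size x + B1.eval (size x) + B2.eval (size x) + 1)) + 3 * PL.eval (Q2.eval
        (2 * size x + B1.eval (size x) + B2.eval (size x) + 1)) + 2 := by
      simp [Polynomial.eval_comp]
    rw [f5]
    omega
  · intro x
    obtain ⟨hN0, hcount⟩ := hgrid x.bits
    obtain ⟨hok, hq0, hlt⟩ := hh_extract al Wr p N x.bits ha hN0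
    have hm : 2 ≤ mm a (n x) := by unfold mm; omega
    have hex := extract_grid (a := a) (al := al) (Wr := Wr) (n1 := x.bits.length + 1)
      (n3 := x.bits.length + 2 + p.eval x.bits.length) (N := n x) (y := false :: x.bits.reverse)
      hN0 (r := rr a (n x)) (t := tt a (n x)) le_rfl le_rfl
    have hval : (NN (qq a (n x)) (H x) % 2 ^ tt a (n x)) / 2 ^ (rr a (n x) * kk (n x)) =
        (Finset.univ.filter (fun w : Fin (p.eval x.bits.length) → Bool =>
          V (x.bits, List.ofFn w) = true)).card := hex.trans hcount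
    rw [hA x.bits, ← hval]
    constructor
    · intro hx
      obtain ⟨l1, l2, l3⟩ := questions hok hq0 hm (NN (qq a (n x)) (H x)) hlt
      obtain ⟨y1, y2⟩ := l3.2 rfl
      obtain ⟨w1, hw1⟩ := (hVL2 _).1 ((hLd _ l1).2 y1)
      obtain ⟨w2, hw2⟩ := (hVL2 _).1 ((hLd _ l2).2 y2)
      refine ⟨(NN (qq a (n x)) (H x), (w1, w2)), ?_⟩
      simp only [W, Bool.and_eq_true, decide_eq_true_eq]
      exact ⟨hlt, hw1, hw2, hx⟩
    · rintro ⟨⟨c, w1, w2⟩, hw⟩
      simp only [W, Bool.and_eq_true, decide_eq_true_eq] at hw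
      obtain ⟨e1, e2, e3, e4⟩ := hw
      obtain ⟨l1, l2, l3⟩ := questions hok hq0 hm c e1
      have y1 := (hLd _ l1).1 ((hVL2 _).2 ⟨w1, e2⟩)
      have y2 := (hLd _ l2).1 ((hVL2 _).2 ⟨w2, e3⟩)
      have hc : c = NN (qq a (n x)) (H x) := l3.1 ⟨y1, y2⟩
      rw [← hc]
      exact e4

end GenMed
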