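import Pool.Agent.GenMed.Ideals

/-!
# The instance of a hypergraph
-/

namespace GenMed

/-- The incidence list: the upper element number `y` is joined to `q` and to the elements of the
`y`-th hyperedge. -/
def incOf (q : ℕ) (H : List (List ℕ)) : List (ℕ × ℕ) :=
  H.zipIdx.flatMap (fun p => (q, p.2) :: p.1.map (fun u => (u, p.2)))

/-- The hyperedges with `m` full ones appended. -/
def allH (q m : ℕ) (H : List (List ℕ)) : List (List ℕ) := H ++ List.replicate m (List.range q)

theorem mem_incOf {q : ℕ} {H : List (List ℕ)} {x y : ℕ} :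
    (x, y) ∈ incOf q H ↔ ∃ h, H[y]? = some h ∧ (x = q ∨ x ∈ h) := by
  simp only [incOf, List.mem_flatMap, List.mem_cons, Prod.mk.injEq, List.mem_map, Prod.exists,
    List.mk_mem_zipIdx_iff_getElem?]
  constructor
  · rintro ⟨h, k, h1, h2 | ⟨u, h2, h3, h4⟩⟩
    · exact ⟨h, by rw [h2.2]; exact h1, Or.inl h2.1⟩
    · exact ⟨h, by rw [← h4]; exact h1, Or.inr (h3 ▸ h2)⟩
  · rintro ⟨h, h1, rfl | h2⟩
    · exact ⟨h, y, h1, Or.inl ⟨rfl, rfl⟩⟩
    · exact ⟨h, y, h1, Or.inr ⟨x, h2, rfl, rfl⟩⟩

/-- Conditions on the hyperedges. -/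
def HOK (q : ℕ) (H : List (List ℕ)) : Prop :=
  ∀ h ∈ H, h ≠ [] ∧ h.Nodup ∧ (∀ u ∈ h, u < q) ∧ ∃ u < q, u ∉ h

theorem incOf_nodup {q : ℕ} {H : List (List ℕ)} (h1 : ∀ h ∈ H, h.Nodup ∧ ∀ u ∈ h, u < q) :
    (incOf q H).Nodup := by
  unfold incOf
  rw [List.nodup_flatMap]
  constructor
  · rintro ⟨h, k⟩ hk
    rw [List.mk_mem_zipIdx_iff_getElem?] at hk
    obtain ⟨h2, h3⟩ := h1 h (List.mem_of_getElem? hk)
    simp only
    rw [List.nodup_cons]
    constructor
    · simp only [List.mem_map, Prod.mk.injEq, not_exists, not_and]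
      rintro u hu rfl
      exact absurd (h3 u hu) (lt_irrefl _)
    · exact h2.map (fun a b h => (Prod.mk.injEq _ _ _ _ ▸ h : a = b ∧ k = k).1)
  · rw [List.pairwise_iff_getElem]
    intro i j hi hj hij
    simp only [Function.onFun, List.disjoint_left, List.getElem_zipIdx]
    rintro ⟨a, b⟩ h2 h3
    simp only [List.mem_cons, Prod.mk.injEq, List.mem_map] at h2 h3
    have e1 : b = 0 + i := by
      rcases h2 with h2 | ⟨_, _, _, h2⟩
      · exact h2.2
      · exact h2.symm
    have e2 : b = 0 + j := by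
      rcases h3 with h3 | ⟨_, _, _, h3⟩
      · exact h3.2
      · exact h3.symm
    omega

section
variable {q m : ℕ} {H : List (List ℕ)}

theorem allH_lt {y : ℕ} (hy : y < H.length) : (allH q m H)[y]? = some H[y] := by
  rw [allH, List.getElem?_append_left hy, List.getElem?_eq_getElem hy]

theorem allH_ge {y : ℕ} (hy : H.length ≤ y) (hy2 : y < H.length + m) :
    (allH q m H)[y]? = some (List.range q) := by
  rw [allH, List.getElem?_append_right hy, List.getElem?_replicate, if_pos (by omega)]

theorem allH_length : (allH q m H).length = H.length + m := by simp [allH]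

theorem allH_cond (hH : HOK q H) (hq : 0 < q) {y : ℕ} {h : List ℕ} (hy : (allH q m H)[y]? = some h) :
    h ≠ [] ∧ h.Nodup ∧ (∀ u ∈ h, u < q) := by
  have := List.mem_of_getElem? hy
  rw [allH, List.mem_append, List.mem_replicate] at this
  rcases this with h1 | ⟨-, rfl⟩
  · obtain ⟨a, b, c, -⟩ := hH h h1
    exact ⟨a, b, c⟩
  · exact ⟨by simp; omega, List.nodup_range, fun u hu => List.mem_range.1 hu⟩

theorem good_incOf (hH : HOK q H) (hq : 0 < q) (hm : 2 ≤ m) :
    Good (incOf q (allH q m H)) (q + 1) (H.length + m) := by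
  constructor
  · apply incOf_nodup
    intro h hh
    obtain ⟨y, hy, rfl⟩ := List.mem_iff_getElem.1 hh
    exact (allH_cond hH hq (List.getElem?_eq_getElem hy)).2
  · rintro ⟨x, y⟩ hp
    obtain ⟨h, h1, rfl | h2⟩ := mem_incOf.1 hp
    · exact Nat.lt_succ_self _
    · have := (allH_cond hH hq h1).2.2 x h2
      simp only; omega
  · rintro ⟨x, y⟩ hp
    obtain ⟨h, h1, -⟩ := mem_incOf.1 hp
    have : y < (allH q m H).length := by
      by_contra hcon
      rw [List.getElem?_eq_none (by omega)] at h1
      exact absurd h1 (by simp)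
    rw [allH_length] at this
    exact this
  · intro x hx
    have h1 : ∀ y, H.length ≤ y → y < H.length + m → (x, y) ∈ incOf q (allH q m H) := by
      intro y hy hy2
      rw [mem_incOf]
      refine ⟨_, allH_ge hy hy2, ?_⟩
      rw [List.mem_range]; omega
    refine ⟨(x, H.length), h1 _ (by omega) (by omega), (x, H.length + 1), h1 _ (by omega) (by omega),
      ?_, rfl, rfl⟩
    intro h
    rw [Prod.mk.injEq] at h
    omega
  · intro y hy
    have hy' : y < (allH q m H).length := by rw [allH_length]; exact hy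
    have hc := allH_cond hH hq (List.getElem?_eq_getElem hy')
    obtain ⟨u, hu⟩ := List.exists_mem_of_ne_nil _ hc.1
    refine ⟨(q, y), mem_incOf.2 ⟨_, List.getElem?_eq_getElem hy', Or.inl rfl⟩,
      (u, y), mem_incOf.2 ⟨_, List.getElem?_eq_getElem hy', Or.inr hu⟩, ?_, rfl, rfl⟩
    intro h
    rw [Prod.mk.injEq] at h
    have := hc.2.2 u hu
    omega

theorem mem_nb_rotOf {E : List (ℕ × ℕ)} {u v : ℕ} (hE : Good E u v) (x : Fin u) (y : Fin v) :
    x ∈ (rotOf hE).nb y ↔ ((x : ℕ), (y : ℕ)) ∈ E := by
  rw [Rot.mem_nb]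
  constructor
  · rintro ⟨e, rfl, rfl⟩
    exact List.getElem_mem e.2
  · intro h
    obtain ⟨j, hj, h1⟩ := List.mem_iff_getElem.1 h
    refine ⟨⟨j, hj⟩, Fin.ext ?_, Fin.ext ?_⟩
    · exact congrArg Prod.snd h1
    · exact congrArg Prod.fst h1

/-- the system of the hypergraph -/
def hrot (hH : HOK q H) (hq : 0 < q) (hm : 2 ≤ m) :
    Rot (incOf q (allH q m H)).length (Fin (q + 1)) (Fin (H.length + m)) :=
  rotOf (good_incOf hH hq hm)

variable (hH : HOK q H) (hq : 0 < q) (hm : 2 ≤ m)

theorem mem_hnb_lt {x : Fin (q + 1)} {y : Fin (H.length + m)} (hy : (y : ℕ) < H.length) :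
    x ∈ (hrot hH hq hm).nb y ↔ (x : ℕ) = q ∨ (x : ℕ) ∈ H[(y : ℕ)] := by
  rw [hrot, mem_nb_rotOf, mem_incOf, allH_lt hy]
  simp

theorem hnb_ge {y : Fin (H.length + m)} (hy : H.length ≤ (y : ℕ)) :
    (hrot hH hq hm).nb y = Finset.univ := by
  ext x
  rw [hrot, mem_nb_rotOf, mem_incOf, allH_ge hy y.2]
  have := x.2
  simp only [Option.some.injEq, exists_eq_left', List.mem_range, Finset.mem_univ, iff_true]
  omega

theorem hnb_full_iff (y : Fin (H.length + m)) :
    (hrot hH hq hm).nb y = Finset.univ ↔ H.length ≤ (y : ℕ) := by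
  constructor
  · intro h
    by_contra hcon
    have hy : (y : ℕ) < H.length := by omega
    obtain ⟨-, -, -, u, hu, h2⟩ := hH _ (List.getElem_mem hy)
    have h3 : (⟨u, by omega⟩ : Fin (q + 1)) ∈ (hrot hH hq hm).nb y := by rw [h]; exact Finset.mem_univ _
    rw [mem_hnb_lt hH hq hm hy] at h3
    rcases h3 with h3 | h3
    · simp only at h3; omega
    · exact h2 h3
  · exact hnb_ge hH hq hm

theorem card_full : (full (hrot hH hq hm).nb).card = m := by
  have h : full (hrot hH hq hm).nb = Finset.univ.map (Fin.natAddEmb H.length : Fin m ↪ _) := by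
    ext y
    simp only [full, Finset.mem_filter, Finset.mem_univ, true_and, hnb_full_iff, Finset.mem_map]
    constructor
    · intro h
      exact ⟨⟨y - H.length, by omega⟩, Fin.ext (by simp; omega)⟩
    · rintro ⟨i, rfl⟩
      simp
  rw [h, Finset.card_map, Finset.card_univ, Fintype.card_fin]

end

/-- `h ⊆ S` for a list of numbers `h` and a set `S` of numbers less than `q` -/
def Sub {q : ℕ} (S : Finset (Fin q)) (h : List ℕ) : Prop := ∀ u ∈ h, ∃ i ∈ S, (i : ℕ) = u

instance {q : ℕ} (S : Finset (Fin q)) : DecidablePred (Sub S) := fun h => by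
  unfold Sub; infer_instance

/-- the number that determines the threshold -/
def NN (q : ℕ) (H : List (List ℕ)) : ℕ :=
  2 ^ q + ∑ S : Finset (Fin q), 2 ^ (H.countP (fun h => decide (Sub S h)))

theorem sum_finset_succ (q : ℕ) (f : Finset (Fin (q + 1)) → ℕ) :
    ∑ S : Finset (Fin (q + 1)), f S = ∑ S : Finset (Fin q), f (S.image Fin.castSucc) +
      ∑ S : Finset (Fin q), f (insert (Fin.last q) (S.image Fin.castSucc)) := by
  have hinj : Function.Injective (Finset.image (Fin.castSucc : Fin q → Fin (q + 1))) :=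
    Finset.image_injective (Fin.castSucc_injective q)
  have hl : Fin.last q ∉ Finset.image (Fin.castSucc : Fin q → Fin (q + 1)) Finset.univ := by
    simp only [Finset.mem_image, Finset.mem_univ, true_and, not_exists]
    intro i h
    exact absurd h (Fin.castSucc_lt_last i).ne
  have hu : (Finset.univ : Finset (Fin (q + 1))) =
      insert (Fin.last q) (Finset.image (Fin.castSucc : Fin q → Fin (q + 1)) Finset.univ) := by
    ext x
    simp only [Finset.mem_univ, Finset.mem_insert, Finset.mem_image, true_and, true_iff]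
    rcases Fin.eq_castSucc_or_eq_last x with ⟨j, rfl⟩ | rfl
    · right; exact ⟨j, rfl⟩
    · left; rfl
  rw [← Finset.powerset_univ, hu, Finset.sum_powerset_insert hl, Finset.powerset_image,
    Finset.sum_image (fun a _ b _ h => hinj h), Finset.sum_image (fun a _ b _ h => hinj h),
    Finset.powerset_univ]

theorem card_filter_getElem (H : List (List ℕ)) (p : List ℕ → Bool) :
    (Finset.univ.filter (fun i : Fin H.length => p H[(i : ℕ)] = true)).card = H.countP p := by
  induction H with
  | nil => rfl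
  | cons h H ih =>
    rw [List.countP_cons, ← ih]
    rw [Finset.card_filter, Finset.card_filter]
    have := Fin.sum_univ_succ (n := H.length) (fun i => if p (h :: H)[(i : ℕ)] = true then 1 else 0)
    refine this.trans ?_
    rw [Nat.add_comm]
    congr 1

section
variable {q m : ℕ} {H : List (List ℕ)} (hH : HOK q H) (hq : 0 < q) (hm : 2 ≤ m)

include hm in
theorem sum_hnb : ∑ S : Finset (Fin (q + 1)), 2 ^ (Finset.univ.filter (fun w =>
      (hrot hH hq hm).nb w ≠ Finset.univ ∧ (hrot hH hq hm).nb w ⊆ S)).card = NN q H := by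
  have key : ∀ S : Finset (Fin (q + 1)), (Finset.univ.filter (fun w =>
      (hrot hH hq hm).nb w ≠ Finset.univ ∧ (hrot hH hq hm).nb w ⊆ S)).card =
      H.countP (fun h => decide (Fin.last q ∈ S ∧ ∀ u ∈ h, ∃ i ∈ S, (i : ℕ) = u)) := by
    intro S
    rw [← card_filter_getElem H]
    refine Finset.card_bij' (fun w hw => ⟨w, ?_⟩) (fun i _ => Fin.castAdd m i) ?_ ?_ ?_ ?_
    · simp only [Finset.mem_filter, Finset.mem_univ, true_and, ne_eq, hnb_full_iff] at hw
      omega
    · intro w hw
      simp only [Finset.mem_filter, Finset.mem_univ, true_and, ne_eq, hnb_full_iff] at hw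
      have hw1 : (w : ℕ) < H.length := by omega
      simp only [Finset.mem_filter, Finset.mem_univ, true_and, decide_eq_true_eq]
      constructor
      · apply hw.2
        rw [mem_hnb_lt hH hq hm hw1]
        left; rfl
      · intro u hu
        have hu2 := (hH _ (List.getElem_mem hw1)).2.2.1 u hu
        refine ⟨⟨u, by omega⟩, hw.2 ?_, rfl⟩
        rw [mem_hnb_lt hH hq hm hw1]
        right; exact hu
    · intro i hi
      simp only [Finset.mem_filter, Finset.mem_univ, true_and, decide_eq_true_eq] at hi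
      simp only [Finset.mem_filter, Finset.mem_univ, true_and, ne_eq, hnb_full_iff]
      refine ⟨by simp, ?_⟩
      intro x hx
      rw [mem_hnb_lt hH hq hm (by simp)] at hx
      rcases hx with hx | hx
      · have : x = Fin.last q := Fin.ext hx
        rw [this]; exact hi.1
      · obtain ⟨j, hj, hj2⟩ := hi.2 _ hx
        have : j = x := Fin.ext hj2
        rw [← this]; exact hj
    · intro w hw; rfl
    · intro i hi; rfl
  simp only [key]
  rw [sum_finset_succ, NN]
  congr 1
  · have h0 : ∀ S : Finset (Fin q), List.countP (fun h => decide (Fin.last q ∈ S.image Fin.castSucc ∧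
        ∀ u ∈ h, ∃ i ∈ S.image Fin.castSucc, (i : ℕ) = u)) H = 0 := by
      intro S
      rw [List.countP_eq_zero]
      intro h _
      have : Fin.last q ∉ S.image Fin.castSucc := by
        simp only [Finset.mem_image, not_exists, not_and]
        intro i _ h
        exact absurd h (Fin.castSucc_lt_last i).ne
      simp [this]
    simp only [h0, pow_zero, Finset.sum_const, smul_eq_mul, mul_one, Finset.card_univ,
      Fintype.card_finset, Fintype.card_fin]
  · refine Finset.sum_congr rfl fun S _ => ?_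
    congr 1
    apply List.countP_congr
    intro h hh
    rw [decide_eq_true_iff, decide_eq_true_iff]
    simp only [Finset.mem_insert_self, true_and]
    unfold Sub
    refine forall₂_congr fun u hu => ?_
    have hu2 := (hH _ hh).2.2.1 u hu
    constructor
    · rintro ⟨i, hi, rfl⟩
      rw [Finset.mem_insert, Finset.mem_image] at hi
      rcases hi with rfl | ⟨j, hj, rfl⟩
      · simp at hu2
      · exact ⟨j, hj, rfl⟩
    · rintro ⟨i, hi, rfl⟩
      exact ⟨i.castSucc, Finset.mem_insert_of_mem (Finset.mem_image_of_mem _ hi), rfl⟩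

/-- The threshold. -/
theorem threshold {v : Fin (H.length + m)} (hv : (hrot hH hq hm).nb v = Finset.univ) :
    cV (hrot hH hq hm).nb v = NN q H + (2 ^ (m - 1) - 1) * 2 ^ H.length := by
  have h1 := cV_full hv
  rw [sum_hnb, card_full, Fintype.card_fin, Nat.add_sub_cancel] at h1
  have h2 : 2 ^ (H.length + m - 1) = 2 ^ (m - 1) * 2 ^ H.length := by
    rw [← pow_add]; congr 1; omega
  have h3 : 1 ≤ 2 ^ (m - 1) := Nat.one_le_two_pow
  have h4 : (2 ^ (m - 1) - 1) * 2 ^ H.length + 2 ^ H.length = 2 ^ (m - 1) * 2 ^ H.length := by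
    rw [← Nat.succ_mul]; congr 1; omega
  omega

end

end GenMed
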