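import Pool.Agent.GenMed.Cyc

/-!
# Counting ideals of two-level posets; the threshold
-/

namespace GenMed

section Abstract

variable {U V : Type} [Fintype U] [Fintype V] [DecidableEq U] [DecidableEq V]

/-- the ideals -/
def ids (Nb : V → Finset U) : Finset (Finset U × Finset V) :=
  Finset.univ.filter (fun p => ∀ v ∈ p.2, Nb v ⊆ p.1)

/-- number of ideals without the upper element `v` -/
def cV (Nb : V → Finset U) (v : V) : ℕ := ((ids Nb).filter (fun p => v ∉ p.2)).card

/-- number of ideals without the lower element `u` -/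
def cU (Nb : V → Finset U) (u : U) : ℕ := ((ids Nb).filter (fun p => u ∉ p.1)).card

variable {Nb : V → Finset U}

theorem mem_ids {p : Finset U × Finset V} : p ∈ ids Nb ↔ ∀ v ∈ p.2, Nb v ⊆ p.1 := by simp [ids]

theorem card_filter_ids (Q : V → Prop) [DecidablePred Q] :
    ((ids Nb).filter (fun p => ∀ v ∈ p.2, Q v)).card =
      ∑ S : Finset U, 2 ^ (Finset.univ.filter (fun v => Nb v ⊆ S ∧ Q v)).card := by
  have h : (ids Nb).filter (fun p => ∀ v ∈ p.2, Q v) = (Finset.univ : Finset (Finset U)).biUnion
      (fun S => ((Finset.univ.filter (fun v => Nb v ⊆ S ∧ Q v)).powerset).image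
        (fun T => (S, T))) := by
    ext ⟨S, T⟩
    simp only [Finset.mem_filter, mem_ids, Finset.mem_biUnion, Finset.mem_univ, true_and,
      Finset.mem_image, Finset.mem_powerset, Prod.mk.injEq]
    constructor
    · rintro ⟨h1, h2⟩
      exact ⟨S, T, fun v hv => by
        simp only [Finset.mem_filter, Finset.mem_univ, true_and]
        exact ⟨h1 v hv, h2 v hv⟩, rfl, rfl⟩
    · rintro ⟨S', T', h1, rfl, rfl⟩
      constructor
      · intro v hv
        have := h1 hv
        simp only [Finset.mem_filter, Finset.mem_univ, true_and] at this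
        exact this.1
      · intro v hv
        have := h1 hv
        simp only [Finset.mem_filter, Finset.mem_univ, true_and] at this
        exact this.2
  rw [h, Finset.card_biUnion]
  · refine Finset.sum_congr rfl fun S _ => ?_
    rw [Finset.card_image_of_injective _ (Prod.mk_right_injective S), Finset.card_powerset]
  · intro S _ S' _ hne
    rw [Function.onFun, Finset.disjoint_left]
    rintro ⟨A, B⟩ h1 h2
    simp only [Finset.mem_image, Finset.mem_powerset, Prod.mk.injEq] at h1 h2
    obtain ⟨_, _, h3, _⟩ := h1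
    obtain ⟨_, _, h4, _⟩ := h2
    exact hne (h3.trans h4.symm)

theorem card_ids_ge : 2 ^ Fintype.card V ≤ (ids Nb).card := by
  have h := card_filter_ids (Nb := Nb) (fun _ => True)
  simp only [implies_true, Finset.filter_true, and_true] at h
  rw [h]
  have h2 := Finset.single_le_sum (f := fun S : Finset U =>
    2 ^ (Finset.univ.filter (fun v => Nb v ⊆ S)).card) (fun _ _ => Nat.zero_le _)
    (Finset.mem_univ (Finset.univ : Finset U))
  refine le_trans (le_of_eq ?_) h2
  simp

/-- the elements with full neighbourhood -/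
def full (Nb : V → Finset U) : Finset V := Finset.univ.filter (fun v => Nb v = Finset.univ)

theorem cV_full {v : V} (hv : Nb v = Finset.univ) :
    cV Nb v + 2 ^ (Fintype.card V - (full Nb).card) = 2 ^ (Fintype.card V - 1) +
      ∑ S : Finset U, 2 ^ (Finset.univ.filter (fun w => Nb w ≠ Finset.univ ∧ Nb w ⊆ S)).card := by
  have h1 : cV Nb v = ∑ S : Finset U, 2 ^ (Finset.univ.filter (fun w => Nb w ⊆ S ∧ w ≠ v)).card := by
    rw [← card_filter_ids]
    unfold cV
    congr 1
    ext p
    simp only [Finset.mem_filter, and_congr_right_iff]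
    intro _
    constructor
    · rintro h w hw rfl; exact h hw
    · intro h h'; exact h v h' rfl
  have h2 : ∀ S ∈ (Finset.univ : Finset (Finset U)).erase Finset.univ,
      2 ^ (Finset.univ.filter (fun w => Nb w ⊆ S ∧ w ≠ v)).card =
      2 ^ (Finset.univ.filter (fun w => Nb w ≠ Finset.univ ∧ Nb w ⊆ S)).card := by
    intro S hS
    rw [Finset.mem_erase] at hS
    have hu : ∀ w, Nb w = Finset.univ → ¬ Nb w ⊆ S := by
      intro w hw h
      rw [hw, Finset.univ_subset_iff] at h
      exact hS.1 h
    congr 2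
    ext w
    simp only [Finset.mem_filter, Finset.mem_univ, true_and]
    constructor
    · rintro ⟨h3, h4⟩
      exact ⟨fun h5 => hu w h5 h3, h3⟩
    · rintro ⟨h3, h4⟩
      exact ⟨h4, by rintro rfl; exact h3 hv⟩
  rw [h1, ← Finset.add_sum_erase _ _ (Finset.mem_univ (Finset.univ : Finset U)),
    Finset.sum_congr rfl h2,
    ← Finset.add_sum_erase _ (fun S : Finset U =>
      2 ^ (Finset.univ.filter (fun w => Nb w ≠ Finset.univ ∧ Nb w ⊆ S)).card)
      (Finset.mem_univ (Finset.univ : Finset U))]
  have h3 : (Finset.univ.filter (fun w => Nb w ⊆ Finset.univ ∧ w ≠ v)).card =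
      Fintype.card V - 1 := by
    rw [← Finset.card_univ, ← Finset.card_erase_of_mem (Finset.mem_univ v)]
    congr 1
    ext w
    simp
  have h4 : (Finset.univ.filter (fun w => Nb w ≠ Finset.univ ∧ Nb w ⊆ Finset.univ)).card =
      Fintype.card V - (full Nb).card := by
    rw [← Finset.card_univ, ← Finset.card_sdiff_of_subset (Finset.subset_univ _)]
    congr 1
    ext w
    simp [full]
  rw [h3, h4]
  ring

theorem cV_lt {v w : V} (hv : Nb v = Finset.univ) (hw : Nb w ≠ Finset.univ) :
    cV Nb w < cV Nb v := by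
  have hwv : w ≠ v := by rintro rfl; exact hw hv
  have h1 : ((ids Nb).filter (fun p => v ∈ p.2)).card < ((ids Nb).filter (fun p => w ∈ p.2)).card := by
    have hf : Function.Injective (fun p : Finset U × Finset V =>
        (p.1, p.2.map (Equiv.swap v w).toEmbedding)) := by
      rintro ⟨a, b⟩ ⟨a', b'⟩ h
      simp only [Prod.mk.injEq, Finset.map_inj] at h
      exact Prod.ext h.1 h.2
    rw [← Finset.card_image_of_injective _ hf]
    apply Finset.card_lt_card
    rw [Finset.ssubset_iff_of_subset]
    · refine ⟨(Nb w, {w}), ?_, ?_⟩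
      · simp [mem_ids]
      · simp only [Finset.mem_image, Finset.mem_filter, mem_ids, not_exists, not_and, and_imp]
        rintro ⟨S, T⟩ h1 h2 h3
        simp only [Prod.mk.injEq] at h3
        apply hw
        rw [← h3.1, ← Finset.univ_subset_iff, ← hv]
        exact h1 v h2
    · intro p hp
      simp only [Finset.mem_image, Finset.mem_filter, mem_ids] at hp
      obtain ⟨⟨S, T⟩, ⟨h1, h2⟩, rfl⟩ := hp
      have hS : S = Finset.univ := by
        rw [← Finset.univ_subset_iff, ← hv]
        exact h1 v h2
      simp only [Finset.mem_filter, mem_ids]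
      refine ⟨?_, ?_⟩
      · intro x _; rw [hS]; exact Finset.subset_univ _
      · rw [Finset.mem_map]
        exact ⟨v, h2, by simp⟩
  have h2 : ∀ x, cV Nb x + ((ids Nb).filter (fun p => x ∈ p.2)).card = (ids Nb).card := by
    intro x
    unfold cV
    rw [Nat.add_comm]
    exact Finset.card_filter_add_card_filter_not _
  have h3 := h2 v
  have h4 := h2 w
  omega

theorem cU_lt {v v' : V} (hv : Nb v = Finset.univ) (hne : v' ≠ v) (u : U) :
    cU Nb u < cV Nb v := by
  unfold cU cV
  apply Finset.card_lt_card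
  rw [Finset.ssubset_iff_of_subset]
  · refine ⟨(Finset.univ, {v'}), ?_, ?_⟩
    · simp [mem_ids, hne.symm]
    · simp
  · intro p hp
    simp only [Finset.mem_filter, mem_ids] at hp ⊢
    refine ⟨hp.1, fun h => hp.2 ?_⟩
    have := hp.1 v h
    rw [hv] at this
    exact this (Finset.mem_univ u)

theorem cV_lt_card (v : V) : cV Nb v < (ids Nb).card := by
  unfold cV
  apply Finset.card_lt_card
  rw [Finset.ssubset_iff_of_subset (Finset.filter_subset _ _)]
  exact ⟨(Finset.univ, {v}), by simp [mem_ids], by simp⟩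

end Abstract

section Inst

variable {n : ℕ} {U V : Type} [Fintype U] [Fintype V] [DecidableEq U] [DecidableEq V]
  (R : Rot n U V)

/-- the neighbourhoods -/
def Rot.nb (v : V) : Finset U := (Finset.univ.filter (fun e => R.hi e = v)).image R.lo

theorem Rot.mem_nb {u : U} {v : V} : u ∈ R.nb v ↔ ∃ e, R.hi e = v ∧ R.lo e = u := by
  simp [Rot.nb]

theorem Rot.ideal_iff (p : Finset U × Finset V) : R.Ideal p ↔ p ∈ ids R.nb := by
  rw [mem_ids]
  constructor
  · intro h v hv u hu
    obtain ⟨e, rfl, rfl⟩ := R.mem_nb.1 hu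
    exact h e hv
  · intro h e he
    exact h _ he (R.mem_nb.2 ⟨e, rfl, rfl⟩)

variable {R} {men women : List (List ℕ)}
  (hR : R.Ranks (fun e y => rank men e y) (fun y e => rank women y e))

include hR

theorem card_stable_filter (P : Equiv.Perm (Fin n) → Prop) [DecidablePred P] :
    ((stableSet n men women).filter P).card = ((ids R.nb).filter (fun p => P (R.mat p))).card := by
  have h : (stableSet n men women).filter P = ((ids R.nb).filter (fun p => P (R.mat p))).image R.mat := by
    ext μ
    simp only [Finset.mem_filter, stableSet, Finset.mem_univ, true_and, Finset.mem_image]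
    constructor
    · rintro ⟨h1, h2⟩
      obtain ⟨p, hp, rfl⟩ := Rot.exists_ideal hR h1
      exact ⟨p, ⟨(R.ideal_iff p).1 hp, h2⟩, rfl⟩
    · rintro ⟨p, ⟨h1, h2⟩, rfl⟩
      exact ⟨Rot.mat_stable hR p ((R.ideal_iff p).2 h1), h2⟩
  rw [h, Finset.card_image_of_injOn]
  intro p hp q hq h
  simp only [Finset.coe_filter, Set.mem_ofPred_eq] at hp hq
  exact Rot.mat_injOn ((R.ideal_iff p).2 hp.1) ((R.ideal_iff q).2 hq.1) h

theorem card_stableSet : (stableSet n men women).card = (ids R.nb).card := by
  classical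
  have := card_stable_filter hR (fun _ => True)
  simpa using this

theorem rank_mat {p : Finset U × Finset V} (hp : p ∈ ids R.nb) (e : Fin n) :
    rank men e (R.mat p e) = if R.hi e ∈ p.2 then 2 else if R.lo e ∈ p.1 then 1 else 0 := by
  rw [Rot.mat_apply p ((R.ideal_iff p).2 hp)]
  split_ifs
  · exact hR.m2 e
  · exact hR.m1 e
  · exact hR.m0 e

theorem card_rank_lt_two (e : Fin n) :
    ((stableSet n men women).filter (fun ν => rank men e (ν e) < 2)).card = cV R.nb (R.hi e) := by
  rw [card_stable_filter hR]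
  unfold cV
  congr 1
  apply Finset.filter_congr
  intro p hp
  rw [rank_mat hR hp]
  split_ifs with h1 h2 <;> simp [h1]

theorem card_rank_le_one (e : Fin n) :
    ((stableSet n men women).filter (fun ν => rank men e (ν e) ≤ 1)).card = cV R.nb (R.hi e) := by
  rw [card_stable_filter hR]
  unfold cV
  congr 1
  apply Finset.filter_congr
  intro p hp
  rw [rank_mat hR hp]
  split_ifs with h1 h2 <;> simp [h1]

theorem card_rank_lt_one (e : Fin n) :
    ((stableSet n men women).filter (fun ν => rank men e (ν e) < 1)).card = cU R.nb (R.lo e) := by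
  rw [card_stable_filter hR]
  unfold cU
  congr 1
  apply Finset.filter_congr
  intro p hp
  rw [rank_mat hR hp]
  have h0 := (R.ideal_iff p).2 hp e
  split_ifs with h1 h2
  · simp [h0 h1]
  · simp [h2]
  · simp [h2]

theorem card_rank_le_two (e : Fin n) :
    ((stableSet n men women).filter (fun ν => rank men e (ν e) ≤ 2)).card = (ids R.nb).card := by
  rw [card_stable_filter hR]
  congr 1
  rw [Finset.filter_eq_self]
  intro p hp
  rw [rank_mat hR hp]
  split_ifs <;> omega

/-- the woman-optimal matching -/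
theorem isAlpha_top (j : ℕ) (hj : 1 ≤ j) (μ : Equiv.Perm (Fin n)) (hμ : ∀ e, μ e = R.a (R.b e)) :
    IsAlpha n men women j μ ↔ ∀ e, cV R.nb (R.hi e) < j ∧ j ≤ (ids R.nb).card := by
  rw [isAlpha_iff n men women j hj μ]
  refine forall_congr' fun e => ?_
  have h2 : rank men e (μ e) = 2 := by rw [hμ]; exact hR.m2 e
  rw [h2, card_rank_lt_two hR, card_rank_le_two hR]

/-- the matching just below it -/
theorem isAlpha_pre (j : ℕ) (hj : 1 ≤ j) (μ : Equiv.Perm (Fin n))
    (hμ : ∀ e, μ e = if R.nb (R.hi e) = Finset.univ then R.a e else R.a (R.b e)) :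
    IsAlpha n men women j μ ↔ ∀ e,
      (R.nb (R.hi e) = Finset.univ → cU R.nb (R.lo e) < j ∧ j ≤ cV R.nb (R.hi e)) ∧
      (R.nb (R.hi e) ≠ Finset.univ → cV R.nb (R.hi e) < j ∧ j ≤ (ids R.nb).card) := by
  rw [isAlpha_iff n men women j hj μ]
  refine forall_congr' fun e => ?_
  by_cases h : R.nb (R.hi e) = Finset.univ
  · have h2 : rank men e (μ e) = 1 := by rw [hμ, if_pos h]; exact hR.m1 e
    rw [h2, card_rank_lt_one hR, card_rank_le_one hR]
    simp [h]
  · have h2 : rank men e (μ e) = 2 := by rw [hμ, if_neg h]; exact hR.m2 e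
    rw [h2, card_rank_lt_two hR, card_rank_le_two hR]
    simp [h]

/-- The two questions determine the threshold. -/
theorem alpha_pair_iff (j : ℕ) (hj : 1 ≤ j) {v v' : V} (hv : R.nb v = Finset.univ)
    (hne : v' ≠ v) (μ μ' : Equiv.Perm (Fin n))
    (hμ : ∀ e, μ e = if R.nb (R.hi e) = Finset.univ then R.a e else R.a (R.b e))
    (hμ' : ∀ e, μ' e = R.a (R.b e)) :
    (IsAlpha n men women j μ ∧ IsAlpha n men women (j + 1) μ') ↔ j = cV R.nb v := by
  rw [isAlpha_pre hR j hj μ hμ, isAlpha_top hR (j + 1) (by omega) μ' hμ']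
  constructor
  · rintro ⟨h1, h2⟩
    obtain ⟨e, he⟩ := R.surj_hi v
    have h3 := ((h1 e).1 (by rw [he]; exact hv)).2
    have h4 := (h2 e).1
    rw [he] at h3 h4
    omega
  · rintro rfl
    have heq : ∀ w, R.nb w = Finset.univ → cV R.nb w = cV R.nb v := by
      intro w hw
      have h1 := cV_full hw
      have h2 := cV_full hv
      omega
    have hcard := cV_lt_card (Nb := R.nb) v
    refine ⟨fun e => ⟨fun h => ⟨cU_lt hv hne _, (heq _ h).ge⟩, fun h => ⟨cV_lt hv h, hcard.le⟩⟩,
      fun e => ⟨?_, hcard⟩⟩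
    by_cases h : R.nb (R.hi e) = Finset.univ
    · rw [heq _ h]; omega
    · have := cV_lt hv h; omega

end Inst

end GenMed
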