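import Pool.Agent.GenMed.PPLem
import Pool.Agent.GenMed.Count
import Pool.Agent.PolyTime.More

/-!
# If PP is contained in NP, then the decision problem is in NP
-/

namespace GenMed

open NPC FP

/-- is `l` a permutation of `0, …, n - 1`? -/
def permB (n : ℕ) (l : List ℕ) : Bool :=
  decide (l.length = n) && (List.range n).all (fun i => decide (i ∈ l))

theorem permB_iff {n : ℕ} {l : List ℕ} : permB n l = true ↔ l.Perm (List.range n) := by
  simp only [permB, Bool.and_eq_true, decide_eq_true_eq, List.all_eq_true, List.mem_range]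
  constructor
  · rintro ⟨h1, h2⟩
    have h3 : (List.range n).Subperm l := List.nodup_range.subperm (fun u hu =>
      h2 u (List.mem_range.1 hu))
    exact (h3.perm_of_length_le (by rw [List.length_range, h1])).symm
  · intro h
    exact ⟨by rw [h.length_eq, List.length_range], fun i hi => h.mem_iff.2 (List.mem_range.2 hi)⟩

theorem perm_iff_ofFn {n : ℕ} {l : List ℕ} : l.Perm (List.range n) ↔
    ∃ μ : Equiv.Perm (Fin n), l = List.ofFn (fun i => (μ i : ℕ)) := by
  constructor
  · intro h
    have hlen : l.length = n := by rw [h.length_eq, List.length_range]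
    have hnd : l.Nodup := h.nodup_iff.2 List.nodup_range
    have hlt : ∀ i : Fin n, l[(i : ℕ)]'(by rw [hlen]; exact i.2) < n := fun i =>
      List.mem_range.1 (h.mem_iff.1 (List.getElem_mem _))
    let f : Fin n → Fin n := fun i => ⟨l[(i : ℕ)]'(by rw [hlen]; exact i.2), hlt i⟩
    have hf : Function.Injective f := by
      intro i j hij
      have h1 := congrArg Fin.val hij
      exact Fin.ext ((hnd.getElem_inj_iff).1 h1)
    refine ⟨Equiv.ofBijective f (Finite.injective_iff_bijective.1 hf), ?_⟩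
    apply List.ext_getElem
    · simp [hlen]
    · intro i h1 h2
      simp [f]
  · rintro ⟨μ, rfl⟩
    rw [List.perm_ext_iff_of_nodup _ List.nodup_range]
    · intro j
      simp only [List.mem_ofFn, List.mem_range]
      constructor
      · rintro ⟨i, rfl⟩; exact (μ i).2
      · intro hj; exact ⟨μ.symm ⟨j, hj⟩, by simp⟩
    · rw [List.nodup_ofFn]
      intro i j hij
      exact μ.injective (Fin.ext hij)

/-- stability of a list -/
def stabB (men women : List (List ℕ)) (n : ℕ) (l : List ℕ) : Bool :=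
  (List.range n).all (fun m => (List.range n).all (fun w =>
    !(decide (rank men m w < rank men m (l.getD m 0)) &&
      decide (rank women w m < rank women w (l.idxOf w)))))

theorem getD_ofFn {n : ℕ} (μ : Equiv.Perm (Fin n)) (m : Fin n) :
    (List.ofFn (fun i => (μ i : ℕ))).getD m 0 = μ m := by
  rw [List.getD_eq_getElem _ _ (by simp)]
  simp

theorem idxOf_ofFn {n : ℕ} (μ : Equiv.Perm (Fin n)) (w : Fin n) :
    (List.ofFn (fun i => (μ i : ℕ))).idxOf (w : ℕ) = μ.symm w := by
  have hnd : (List.ofFn (fun i => (μ i : ℕ))).Nodup := by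
    rw [List.nodup_ofFn]
    intro i j hij
    exact μ.injective (Fin.ext hij)
  have h1 : (List.ofFn (fun i => (μ i : ℕ)))[((μ.symm w : Fin n) : ℕ)]'(by simp) = w := by simp
  conv_lhs => rw [← h1]
  exact hnd.idxOf_getElem _ _

theorem stabB_iff {n : ℕ} (men women : List (List ℕ)) (μ : Equiv.Perm (Fin n)) :
    stabB men women n (List.ofFn (fun i => (μ i : ℕ))) = true ↔ Stable men women μ := by
  simp only [stabB, List.all_eq_true, List.mem_range, Bool.not_eq_true', Bool.and_eq_false_iff,
    decide_eq_false_iff_not]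
  constructor
  · intro h m w hmw
    have := h m m.2 w w.2
    rw [getD_ofFn, idxOf_ofFn] at this
    rcases this with h1 | h1
    · exact h1 hmw.1
    · exact h1 hmw.2
  · intro h m hm w hw
    have := h ⟨m, hm⟩ ⟨w, hw⟩
    have e1 := getD_ofFn μ ⟨m, hm⟩
    have e2 := idxOf_ofFn μ ⟨w, hw⟩
    simp only at e1 e2
    rw [e1, e2]
    by_contra hcon
    rw [not_or, not_not, not_not] at hcon
    exact this hcon

/-- preference lists -/
def prefsB (n : ℕ) (P : List (List ℕ)) : Bool := decide (P.length = n) && P.all (fun l => permB n l)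

theorem prefsB_iff {n : ℕ} {P : List (List ℕ)} : prefsB n P = true ↔ IsPrefs n P := by
  simp only [prefsB, Bool.and_eq_true, decide_eq_true_eq, List.all_eq_true, permB_iff, IsPrefs]

/-- everything that can be checked directly -/
def shape (d : Data) : Bool :=
  decide (1 ≤ d.1.1.length) && (prefsB d.1.1.length d.1.1 && (prefsB d.1.1.length d.1.2 &&
    (permB d.1.1.length d.2.1 && (stabB d.1.1 d.1.2 d.1.1.length d.2.1 && decide (1 ≤ d.2.2)))))

theorem shape_iff (d : Data) : shape d = true ↔ ∃ μ : Equiv.Perm (Fin d.1.1.length),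
    1 ≤ d.1.1.length ∧ IsPrefs d.1.1.length d.1.1 ∧ IsPrefs d.1.1.length d.1.2 ∧
    d.2.1 = List.ofFn (fun i => (μ i : ℕ)) ∧ Stable d.1.1 d.1.2 μ ∧ 1 ≤ d.2.2 := by
  simp only [shape, Bool.and_eq_true, decide_eq_true_eq, prefsB_iff, permB_iff, perm_iff_ofFn]
  constructor
  · rintro ⟨h1, h2, h3, ⟨μ, h4⟩, h5, h6⟩
    refine ⟨μ, h1, h2, h3, h4, ?_, h6⟩
    rw [h4, stabB_iff] at h5
    exact h5
  · rintro ⟨μ, h1, h2, h3, h4, h5, h6⟩
    refine ⟨h1, h2, h3, ⟨μ, h4⟩, ?_, h6⟩
    rw [h4, stabB_iff]
    exact h5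

/-- certificates for `partner of m strictly better than in the given matching` -/
def certLt (q : (Data × ℕ) × List ℕ) : Bool :=
  permB q.1.1.1.1.length q.2 && (stabB q.1.1.1.1 q.1.1.1.2 q.1.1.1.1.length q.2 &&
    decide (rank q.1.1.1.1 q.1.2 (q.2.getD q.1.2 0) < rank q.1.1.1.1 q.1.2 (q.1.1.2.1.getD q.1.2 0)))

/-- certificates for `partner of m at least as good as in the given matching` -/
def certLe (q : (Data × ℕ) × List ℕ) : Bool :=
  permB q.1.1.1.1.length q.2 && (stabB q.1.1.1.1 q.1.1.1.2 q.1.1.1.1.length q.2 &&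
    decide (rank q.1.1.1.1 q.1.2 (q.2.getD q.1.2 0) ≤ rank q.1.1.1.1 q.1.2 (q.1.1.2.1.getD q.1.2 0)))

section
variable {α : Type} [Code α]

theorem poly_rank {P : α → List (List ℕ)} {i j : α → ℕ} (hP : Poly P) (hi : Poly i) (hj : Poly j) :
    Poly (fun x => rank (P x) (i x) (j x)) := by
  unfold rank
  fun_prop

theorem poly_permB {n : α → ℕ} {l : α → List ℕ} (hn : Poly n) (hb : PolyBdd n) (hl : Poly l) :
    Poly (fun x => permB (n x) (l x)) := by
  unfold permB
  fun_prop

theorem poly_stabB {A B : α → List (List ℕ)} {n : α → ℕ} {l : α → List ℕ} (hA : Poly A)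
    (hB : Poly B) (hn : Poly n) (hb : PolyBdd n) (hl : Poly l) :
    Poly (fun x => stabB (A x) (B x) (n x) (l x)) := by
  unfold stabB rank
  fun_prop

theorem poly_prefsB {n : α → ℕ} {P : α → List (List ℕ)} (hn : Poly n) (hb : PolyBdd n)
    (hP : Poly P) : Poly (fun x => prefsB (n x) (P x)) := by
  unfold prefsB permB
  fun_prop

end

theorem poly_shape : Poly shape := by
  unfold shape
  have h1 : Poly (fun d : Data => prefsB d.1.1.length d.1.1) :=
    poly_prefsB (by fun_prop) (by fun_prop) (by fun_prop)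
  have h2 : Poly (fun d : Data => prefsB d.1.1.length d.1.2) :=
    poly_prefsB (by fun_prop) (by fun_prop) (by fun_prop)
  have h3 : Poly (fun d : Data => permB d.1.1.length d.2.1) :=
    poly_permB (by fun_prop) (by fun_prop) (by fun_prop)
  have h4 : Poly (fun d : Data => stabB d.1.1 d.1.2 d.1.1.length d.2.1) :=
    poly_stabB (by fun_prop) (by fun_prop) (by fun_prop) (by fun_prop) (by fun_prop)
  fun_prop

theorem poly_certLt : Poly certLt := by
  unfold certLt
  have h1 : Poly (fun q : (Data × ℕ) × List ℕ => permB q.1.1.1.1.length q.2) :=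
    poly_permB (by fun_prop) (by fun_prop) (by fun_prop)
  have h2 : Poly (fun q : (Data × ℕ) × List ℕ => stabB q.1.1.1.1 q.1.1.1.2 q.1.1.1.1.length q.2) :=
    poly_stabB (by fun_prop) (by fun_prop) (by fun_prop) (by fun_prop) (by fun_prop)
  have h3 : Poly (fun q : (Data × ℕ) × List ℕ => rank q.1.1.1.1 q.1.2 (q.2.getD q.1.2 0)) :=
    poly_rank (by fun_prop) (by fun_prop) (by fun_prop)
  have h4 : Poly (fun q : (Data × ℕ) × List ℕ => rank q.1.1.1.1 q.1.2 (q.1.1.2.1.getD q.1.2 0)) :=
    poly_rank (by fun_prop) (by fun_prop) (by fun_prop)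
  fun_prop

theorem poly_certLe : Poly certLe := by
  unfold certLe
  have h1 : Poly (fun q : (Data × ℕ) × List ℕ => permB q.1.1.1.1.length q.2) :=
    poly_permB (by fun_prop) (by fun_prop) (by fun_prop)
  have h2 : Poly (fun q : (Data × ℕ) × List ℕ => stabB q.1.1.1.1 q.1.1.1.2 q.1.1.1.1.length q.2) :=
    poly_stabB (by fun_prop) (by fun_prop) (by fun_prop) (by fun_prop) (by fun_prop)
  have h3 : Poly (fun q : (Data × ℕ) × List ℕ => rank q.1.1.1.1 q.1.2 (q.2.getD q.1.2 0)) :=
    poly_rank (by fun_prop) (by fun_prop) (by fun_prop)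
  have h4 : Poly (fun q : (Data × ℕ) × List ℕ => rank q.1.1.1.1 q.1.2 (q.1.1.2.1.getD q.1.2 0)) :=
    poly_rank (by fun_prop) (by fun_prop) (by fun_prop)
  fun_prop

theorem size_list_le {β : Type} [Code β] (l : List β) (k : ℕ) (h : ∀ x ∈ l, size x ≤ k) :
    size l ≤ l.length * (2 * k + 1) := by
  induction l with
  | nil => simp [size_nil]
  | cons a l ih =>
    rw [size_cons, List.length_cons]
    have h1 := ih (fun x hx => h x (List.mem_cons_of_mem _ hx))
    have h2 := h a List.mem_cons_self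
    have h3 : (l.length + 1) * (2 * k + 1) = l.length * (2 * k + 1) + (2 * k + 1) := by ring
    omega

theorem size_permB {n : ℕ} {l : List ℕ} (h : permB n l = true) : size l ≤ n * (2 * n + 1) := by
  rw [permB_iff] at h
  have h1 := size_list_le l n (fun x hx => by
    have := List.mem_range.1 (h.mem_iff.1 hx)
    exact (size_nat_le x).trans this.le)
  rw [h.length_eq, List.length_range] at h1
  exact h1

theorem cert_bound {d : Data} {m : ℕ} {l : List ℕ} (h : permB d.1.1.length l = true) :
    size l ≤ (Polynomial.X * (2 * Polynomial.X + 1) : Polynomial ℕ).eval (size (d, m)) := by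
  have h1 : d.1.1.length ≤ size (d, m) := by
    have := length_le_size d.1.1
    rw [size_pair, size_prod d, size_prod d.1]
    omega
  refine (size_permB h).trans ?_
  simp only [Polynomial.eval_mul, Polynomial.eval_X, Polynomial.eval_add, Polynomial.eval_one,
    Polynomial.eval_ofNat]
  exact Nat.mul_le_mul h1 (by omega)

open Classical in
theorem ncard_certLt {d : Data} {μ : Equiv.Perm (Fin d.1.1.length)}
    (hμ : d.2.1 = List.ofFn (fun i => (μ i : ℕ))) (m : Fin d.1.1.length) :
    Set.ncard {l : List ℕ | certLt ((d, (m : ℕ)), l) = true} =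
      ((stableSet d.1.1.length d.1.1 d.1.2).filter
        (fun ν => rank d.1.1 m (ν m) < rank d.1.1 m (μ m))).card := by
  have h : {l : List ℕ | certLt ((d, (m : ℕ)), l) = true} =
      (fun ν : Equiv.Perm (Fin d.1.1.length) => List.ofFn (fun i => (ν i : ℕ))) ''
      (↑((stableSet d.1.1.length d.1.1 d.1.2).filter
        (fun ν => rank d.1.1 m (ν m) < rank d.1.1 m (μ m))) : Set (Equiv.Perm (Fin d.1.1.length))) := by
    ext l
    simp only [Set.mem_ofPred_eq, certLt, Bool.and_eq_true, permB_iff, perm_iff_ofFn,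
      decide_eq_true_eq, Set.mem_image, Finset.coe_filter, stableSet, Finset.mem_filter,
      Finset.mem_univ, true_and]
    constructor
    · rintro ⟨⟨ν, rfl⟩, h1, h2⟩
      rw [stabB_iff] at h1
      rw [getD_ofFn, hμ, getD_ofFn] at h2
      exact ⟨ν, ⟨h1, h2⟩, rfl⟩
    · rintro ⟨ν, ⟨h1, h2⟩, rfl⟩
      refine ⟨⟨ν, rfl⟩, ?_, ?_⟩
      · rw [stabB_iff]; exact h1
      · rw [getD_ofFn, hμ, getD_ofFn]; exact h2
  rw [h, Set.ncard_image_of_injective, Set.ncard_coe_finset]
  intro ν ν' hν
  have := List.ofFn_injective hν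
  exact Equiv.ext fun i => Fin.ext (congrFun this i)

open Classical in
theorem ncard_certLe {d : Data} {μ : Equiv.Perm (Fin d.1.1.length)}
    (hμ : d.2.1 = List.ofFn (fun i => (μ i : ℕ))) (m : Fin d.1.1.length) :
    Set.ncard {l : List ℕ | certLe ((d, (m : ℕ)), l) = true} =
      ((stableSet d.1.1.length d.1.1 d.1.2).filter
        (fun ν => rank d.1.1 m (ν m) ≤ rank d.1.1 m (μ m))).card := by
  have h : {l : List ℕ | certLe ((d, (m : ℕ)), l) = true} =
      (fun ν : Equiv.Perm (Fin d.1.1.length) => List.ofFn (fun i => (ν i : ℕ))) ''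
      (↑((stableSet d.1.1.length d.1.1 d.1.2).filter
        (fun ν => rank d.1.1 m (ν m) ≤ rank d.1.1 m (μ m))) : Set (Equiv.Perm (Fin d.1.1.length))) := by
    ext l
    simp only [Set.mem_ofPred_eq, certLe, Bool.and_eq_true, permB_iff, perm_iff_ofFn,
      decide_eq_true_eq, Set.mem_image, Finset.coe_filter, stableSet, Finset.mem_filter,
      Finset.mem_univ, true_and]
    constructor
    · rintro ⟨⟨ν, rfl⟩, h1, h2⟩
      rw [stabB_iff] at h1
      rw [getD_ofFn, hμ, getD_ofFn] at h2
      exact ⟨ν, ⟨h1, h2⟩, rfl⟩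
    · rintro ⟨ν, ⟨h1, h2⟩, rfl⟩
      refine ⟨⟨ν, rfl⟩, ?_, ?_⟩
      · rw [stabB_iff]; exact h1
      · rw [getD_ofFn, hμ, getD_ofFn]; exact h2
  rw [h, Set.ncard_image_of_injective, Set.ncard_coe_finset]
  intro ν ν' hν
  have := List.ofFn_injective hν
  exact Equiv.ext fun i => Fin.ext (congrFun this i)

/-- The decision problem as a conjunction of thresholds. -/
theorem yes_iff_thresholds (d : Data) : Yes d ↔ shape d = true ∧ ∀ m < d.1.1.length,
    Set.ncard {l : List ℕ | certLt ((d, m), l) = true} < d.2.2 ∧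
    d.2.2 - 1 < Set.ncard {l : List ℕ | certLe ((d, m), l) = true} := by
  classical
  constructor
  · rintro ⟨n, μ, ⟨h1, h2, h3, h4, h5, h6, h7⟩, hA⟩
    obtain rfl : d.1.1.length = n := h2.1
    refine ⟨(shape_iff d).2 ⟨μ, h1, h2, h3, h4, h5, h6⟩, ?_⟩
    intro m hm
    have hA' := (isAlpha_iff _ _ _ _ h6 _).1 hA ⟨m, hm⟩
    have e1 := ncard_certLt h4 ⟨m, hm⟩
    have e2 := ncard_certLe h4 ⟨m, hm⟩
    simp only at e1 e2
    rw [e1, e2]
    exact ⟨hA'.1, lt_of_lt_of_le (by omega : d.2.2 - 1 < d.2.2) hA'.2⟩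
  · rintro ⟨hs, ht⟩
    obtain ⟨μ, h1, h2, h3, h4, h5, h6⟩ := (shape_iff d).1 hs
    have hA : ∀ m : Fin d.1.1.length,
      ((stableSet d.1.1.length d.1.1 d.1.2).filter
        (fun ν => rank d.1.1 m (ν m) < rank d.1.1 m (μ m))).card < d.2.2 ∧
      d.2.2 ≤ ((stableSet d.1.1.length d.1.1 d.1.2).filter
        (fun ν => rank d.1.1 m (ν m) ≤ rank d.1.1 m (μ m))).card := by
      intro m
      obtain ⟨t1, t2⟩ := ht m m.2
      rw [ncard_certLt h4 m] at t1
      rw [ncard_certLe h4 m] at t2
      exact ⟨t1, by omega⟩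
    refine ⟨_, μ, ⟨h1, h2, h3, h4, h5, h6, ?_⟩, (isAlpha_iff _ _ _ _ h6 _).2 hA⟩
    exact (hA ⟨0, h1⟩).2.trans (Finset.card_filter_le _ _)

theorem gmsm_mem_np (h : PP ⊆ NPC.NP) : GMSM ∈ NPC.NP := by
  have hj : Poly (fun q : Data × ℕ => q.1.2.2) := by fun_prop
  have hj' : Poly (fun q : Data × ℕ => q.1.2.2 - 1) := by fun_prop
  have h1 := mem_PP_lt certLt poly_certLt (Polynomial.X * (2 * Polynomial.X + 1)) (by
    rintro ⟨d, m⟩ l hl
    simp only [certLt, Bool.and_eq_true] at hl
    exact cert_bound hl.1) _ hj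
  have h2 := mem_PP_gt certLe poly_certLe (Polynomial.X * (2 * Polynomial.X + 1)) (by
    rintro ⟨d, m⟩ l hl
    simp only [certLe, Bool.and_eq_true] at hl
    exact cert_bound hl.1) _ hj'
  obtain ⟨VA, PA, hVA, hbA, hA⟩ := NP_elim (h h1)
  obtain ⟨VB, PB, hVB, hbB, hB⟩ := NP_elim (h h2)
  let W : Data × List (List Bool × List Bool) → Bool := fun q => shape q.1 &&
    (decide (q.2.length = q.1.1.1.length) && (List.range q.1.1.1.length).all (fun m =>
      VA (enc (q.1, m), (q.2.getD m ([], [])).1) && VB (enc (q.1, m), (q.2.getD m ([], [])).2)))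
  have hW : Poly W := by
    have e1 : Poly (fun q : Data × List (List Bool × List Bool) => shape q.1) :=
      poly_shape.comp Poly.fst'
    have e2 : Poly (fun p : (Data × List (List Bool × List Bool)) × ℕ =>
        VA (enc (p.1.1, p.2), (p.1.2.getD p.2 ([], [])).1)) :=
      hVA.comp (Poly.pair (Poly.encode (f := fun p : (Data × List (List Bool × List Bool)) × ℕ =>
        (p.1.1, p.2)) (by fun_prop)) (by fun_prop))
    have e3 : Poly (fun p : (Data × List (List Bool × List Bool)) × ℕ =>
        VB (enc (p.1.1, p.2), (p.1.2.getD p.2 ([], [])).2)) :=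
      hVB.comp (Poly.pair (Poly.encode (f := fun p : (Data × List (List Bool × List Bool)) × ℕ =>
        (p.1.1, p.2)) (by fun_prop)) (by fun_prop))
    fun_prop
  rw [gmsm_eq]
  refine mem_NP_lang W hW (Polynomial.X * (2 * (6 * PA.comp (3 * Polynomial.X + 1) +
    3 * PB.comp (3 * Polynomial.X + 1) + 1) + 1)) ?_ ?_
  · rintro d cs hcs
    simp only [W, Bool.and_eq_true, decide_eq_true_eq, List.all_eq_true, List.mem_range] at hcs
    obtain ⟨-, hl, hc⟩ := hcs
    have hn : d.1.1.length ≤ size d := by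
      have := length_le_size d.1.1
      rw [size_prod d, size_prod d.1]
      omega
    have hdm : ∀ m < d.1.1.length, size (d, m) ≤ 3 * size d + 1 := by
      intro m hm
      have := size_nat_le m
      rw [size_pair]
      omega
    have hel : ∀ c ∈ cs, size c ≤ 6 * PA.eval (3 * size d + 1) + 3 * PB.eval (3 * size d + 1) + 1 := by
      intro c hc'
      obtain ⟨m, hm, rfl⟩ := List.mem_iff_getElem.1 hc'
      have hm' : m < d.1.1.length := by rw [← hl]; exact hm
      obtain ⟨c1, c2⟩ := hc m hm'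
      have b1 := (hbA _ _ c1).trans (eval_mono PA (hdm m hm'))
      have b2 := (hbB _ _ c2).trans (eval_mono PB (hdm m hm'))
      rw [List.getD_eq_getElem _ _ hm] at b1 b2
      rw [size_prod, size_str, size_str]
      omega
    refine (size_list_le cs _ hel).trans ?_
    rw [hl]
    simp only [Polynomial.eval_mul, Polynomial.eval_X, Polynomial.eval_add, Polynomial.eval_one,
      Polynomial.eval_ofNat, Polynomial.eval_comp]
    exact Nat.mul_le_mul_right _ hn
  · intro d
    rw [yes_iff_thresholds]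
    constructor
    · rintro ⟨hs, ht⟩
      have hcert : ∀ m, ∃ c : List Bool × List Bool, m < d.1.1.length →
          VA (enc (d, m), c.1) = true ∧ VB (enc (d, m), c.2) = true := by
        intro m
        by_cases hm : m < d.1.1.length
        · obtain ⟨t1, t2⟩ := ht m hm
          obtain ⟨w1, hw1⟩ := (hA (enc (d, m))).1 ((enc_mem_lang _ _).2 t1)
          obtain ⟨w2, hw2⟩ := (hB (enc (d, m))).1 ((enc_mem_lang _ _).2 t2)
          exact ⟨(w1, w2), fun _ => ⟨hw1, hw2⟩⟩
        · exact ⟨([], []), fun hm' => absurd hm' hm⟩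
      choose c hc using hcert
      refine ⟨(List.range d.1.1.length).map c, ?_⟩
      simp only [W, Bool.and_eq_true, decide_eq_true_eq, List.all_eq_true, List.mem_range]
      refine ⟨hs, by simp, ?_⟩
      intro m hm
      have e : ((List.range d.1.1.length).map c).getD m ([], []) = c m := by
        rw [List.getD_eq_getElem _ _ (by simpa using hm)]
        simp
      rw [e]
      exact hc m hm
    · rintro ⟨cs, hcs⟩
      simp only [W, Bool.and_eq_true, decide_eq_true_eq, List.all_eq_true, List.mem_range] at hcs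
      obtain ⟨hs, hl, hc⟩ := hcs
      refine ⟨hs, ?_⟩
      intro m hm
      obtain ⟨c1, c2⟩ := hc m hm
      exact ⟨(enc_mem_lang (fun q : Data × ℕ => Set.ncard {c : List ℕ | certLt (q, c) = true} <
          q.1.2.2) (d, m)).1 ((hA _).2 ⟨_, c1⟩),
        (enc_mem_lang (fun q : Data × ℕ => q.1.2.2 - 1 <
          Set.ncard {c : List ℕ | certLe (q, c) = true}) (d, m)).1 ((hB _).2 ⟨_, c2⟩)⟩

end GenMed
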