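import Pool.Agent.GenMed.Tab2

/-!
# The forbidden patterns of a tableau
-/

namespace GenMed

open NPC Function

open Classical in
/-- the forbidden patterns at a cell of class `c` -/
noncomputable def localPat (a : ℕ) (al : Cl × Bool → ℕ → Prop) (Wr : ℕ → ℕ → ℕ → ℕ → Prop)
    (c : Cl × Bool) : List (List ((ℕ × ℕ) × ℕ)) :=
  ((List.range a).filter (fun s => decide (¬ al c s))).map (fun s => [((0, 0), s)]) ++
  ((List.range a).flatMap (fun s => (List.range s).map (fun s' => [((0, 0), s'), ((0, 0), s)])) ++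
  (if c.1.win = true then ((quads a).filter (fun q => decide (¬ Wr q.1 q.2.1 q.2.2.1 q.2.2.2))).map
    (fun q => [((0, 0), q.1), ((0, 1), q.2.1), ((0, 2), q.2.2.1), ((1, 1), q.2.2.2)]) else []))

/-- globalisation -/
def glob2 (a R t i : ℕ) (l : (ℕ × ℕ) × ℕ) : ℕ := ((t + l.1.1) * R + (i + l.1.2)) * a + l.2

/-- all forbidden patterns -/
noncomputable def pats (a : ℕ) (al : Cl × Bool → ℕ → Prop) (Wr : ℕ → ℕ → ℕ → ℕ → Prop)
    (n1 n3 N : ℕ) (y : List Bool) : List (List ℕ) :=
  (List.range (N + 2)).flatMap (fun t => (List.range (N + 2)).flatMap (fun i =>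
    (localPat a al Wr (cls2 n1 n3 N y t i)).map (fun h => h.map (glob2 a (N + 2) t i))))

theorem ev_iff {R a : ℕ} (z : Fin (R * R) → Fin a) {t i s : ℕ} (ht : t < R) (hi : i < R)
    (hs : s < a) : (∃ c : Fin (R * R), (c : ℕ) * a + z c = (t * R + i) * a + s) ↔ ev z t i = s := by
  unfold ev
  rw [dif_pos (idx_lt ht hi)]
  constructor
  · rintro ⟨c, hc⟩
    obtain ⟨h1, h2⟩ := cell_inj (z c).2 hs hc
    have h3 : c = ⟨t * R + i, idx_lt ht hi⟩ := Fin.ext h1
    rw [← h3]; exact h2
  · intro h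
    exact ⟨⟨t * R + i, idx_lt ht hi⟩, by rw [h]⟩

theorem ev_lt {R a : ℕ} (z : Fin (R * R) → Fin a) {t i : ℕ} (ht : t < R) (hi : i < R) :
    ev z t i < a := by
  unfold ev
  rw [dif_pos (idx_lt ht hi)]
  exact (z _).2

section
variable {a : ℕ} {al : Cl × Bool → ℕ → Prop} {Wr : ℕ → ℕ → ℕ → ℕ → Prop} {n1 n3 N : ℕ}
  {y : List Bool}

theorem mem_pats {h : List ℕ} : h ∈ pats a al Wr n1 n3 N y ↔ ∃ t < N + 2, ∃ i < N + 2,
    (∃ s < a, ¬ al (cls2 n1 n3 N y t i) s ∧ h = [(t * (N + 2) + i) * a + s]) ∨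
    (∃ s < a, ∃ s' < s, h = [(t * (N + 2) + i) * a + s', (t * (N + 2) + i) * a + s]) ∨
    ((NPC.cls n1 n3 N y t i).win = true ∧ ∃ s1 < a, ∃ s2 < a, ∃ s3 < a, ∃ s4 < a,
      ¬ Wr s1 s2 s3 s4 ∧ h = [(t * (N + 2) + i) * a + s1, (t * (N + 2) + (i + 1)) * a + s2,
        (t * (N + 2) + (i + 2)) * a + s3, ((t + 1) * (N + 2) + (i + 1)) * a + s4]) := by
  simp only [pats, List.mem_flatMap, List.mem_range, List.mem_map]
  refine exists_congr fun t => and_congr_right fun ht => exists_congr fun i =>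
    and_congr_right fun hi => ?_
  unfold localPat
  constructor
  · rintro ⟨h', h1, rfl⟩
    rw [List.mem_append, List.mem_append] at h1
    rcases h1 with h1 | h1 | h1
    · left
      simp only [List.mem_map, List.mem_filter, List.mem_range, decide_eq_true_eq] at h1
      obtain ⟨s, ⟨h2, h3⟩, rfl⟩ := h1
      exact ⟨s, h2, h3, rfl⟩
    · right; left
      simp only [List.mem_flatMap, List.mem_map, List.mem_range] at h1
      obtain ⟨s, h2, s', h3, rfl⟩ := h1
      exact ⟨s, h2, s', h3, rfl⟩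
    · right; right
      by_cases hw : (cls2 n1 n3 N y t i).1.win = true
      · rw [if_pos hw] at h1
        simp only [List.mem_map, List.mem_filter, decide_eq_true_eq] at h1
        obtain ⟨⟨s1, s2, s3, s4⟩, ⟨h2, h3⟩, rfl⟩ := h1
        obtain ⟨b1, b2, b3, b4⟩ := mem_quads.1 h2
        exact ⟨hw, s1, b1, s2, b2, s3, b3, s4, b4, h3, rfl⟩
      · rw [if_neg hw] at h1
        exact absurd h1 (by simp)
  · rintro (⟨s, h2, h3, rfl⟩ | ⟨s, h2, s', h3, rfl⟩ | ⟨hw, s1, b1, s2, b2, s3, b3, s4, b4, h3, rfl⟩)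
    · refine ⟨[((0, 0), s)], ?_, rfl⟩
      rw [List.mem_append]
      left
      simp only [List.mem_map, List.mem_filter, List.mem_range, decide_eq_true_eq]
      exact ⟨s, ⟨h2, h3⟩, rfl⟩
    · refine ⟨[((0, 0), s'), ((0, 0), s)], ?_, rfl⟩
      rw [List.mem_append, List.mem_append]
      right; left
      simp only [List.mem_flatMap, List.mem_map, List.mem_range]
      exact ⟨s, h2, s', h3, rfl⟩
    · refine ⟨[((0, 0), s1), ((0, 1), s2), ((0, 2), s3), ((1, 1), s4)], ?_, rfl⟩
      rw [List.mem_append, List.mem_append]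
      right; right
      have hw' : (cls2 n1 n3 N y t i).1.win = true := hw
      rw [if_pos hw']
      simp only [List.mem_map, List.mem_filter, decide_eq_true_eq]
      exact ⟨(s1, s2, s3, s4), ⟨mem_quads.2 ⟨b1, b2, b3, b4⟩, h3⟩, rfl⟩

theorem pats_iff (hN : 0 < N) (z : Fin ((N + 2) * (N + 2)) → Fin a) :
    (∀ h ∈ pats a al Wr n1 n3 N y, ¬ ∀ u ∈ h, ∃ c : Fin ((N + 2) * (N + 2)),
      (c : ℕ) * a + z c = u) ↔ GridOK a al Wr n1 n3 N y z := by
  constructor
  · intro h t ht i hi
    constructor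
    · by_contra hcon
      apply h _ (mem_pats.2 ⟨t, ht, i, hi, Or.inl ⟨ev z t i, ev_lt z ht hi, hcon, rfl⟩⟩)
      intro u hu
      simp only [List.mem_cons, List.not_mem_nil, or_false] at hu
      rw [hu]
      exact (ev_iff z ht hi (ev_lt z ht hi)).2 rfl
    · intro hw
      obtain ⟨w1, w2⟩ := cls_win ht hN hw
      by_contra hcon
      apply h _ (mem_pats.2 ⟨t, ht, i, hi, Or.inr (Or.inr ⟨hw, ev z t i, ev_lt z ht hi,
        ev z t (i + 1), ev_lt z ht (by omega), ev z t (i + 2), ev_lt z ht w2,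
        ev z (t + 1) (i + 1), ev_lt z w1 (by omega), hcon, rfl⟩)⟩)
      intro u hu
      simp only [List.mem_cons, List.not_mem_nil, or_false] at hu
      rcases hu with rfl | rfl | rfl | rfl
      · exact (ev_iff z ht hi (ev_lt z ht hi)).2 rfl
      · exact (ev_iff z ht (by omega) (ev_lt z ht (by omega))).2 rfl
      · exact (ev_iff z ht w2 (ev_lt z ht w2)).2 rfl
      · exact (ev_iff z w1 (by omega) (ev_lt z w1 (by omega))).2 rfl
  · intro h g hg hcon
    obtain ⟨t, ht, i, hi, hg⟩ := mem_pats.1 hg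
    obtain ⟨h1, h2⟩ := h t ht i hi
    rcases hg with ⟨s, hs, h3, rfl⟩ | ⟨s, hs, s', hs', rfl⟩ |
      ⟨hw, s1, b1, s2, b2, s3, b3, s4, b4, h3, rfl⟩
    · have := (ev_iff z ht hi hs).1 (hcon _ (by simp))
      rw [this] at h1
      exact h3 h1
    · have e1 := (ev_iff z ht hi hs).1 (hcon _ (by simp))
      have e2 := (ev_iff z ht hi (by omega : s' < a)).1 (hcon _ (by simp))
      omega
    · obtain ⟨w1, w2⟩ := cls_win ht hN hw
      have e1 := (ev_iff z ht hi b1).1 (hcon _ (by simp))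
      have e2 := (ev_iff z ht (by omega : i + 1 < N + 2) b2).1 (hcon _ (by simp))
      have e3 := (ev_iff z ht w2 b3).1 (hcon _ (by simp))
      have e4 := (ev_iff z w1 (by omega : i + 1 < N + 2) b4).1 (hcon _ (by simp))
      have := h2 hw
      rw [e1, e2, e3, e4] at this
      exact h3 this

theorem pats_pair : ∀ c < (N + 2) * (N + 2), ∀ s < a, ∀ s' < s,
    [c * a + s', c * a + s] ∈ pats a al Wr n1 n3 N y := by
  intro c hc s hs s' hs'
  have h1 : c / (N + 2) < N + 2 := Nat.div_lt_of_lt_mul hc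
  have h2 : c % (N + 2) < N + 2 := Nat.mod_lt _ (by omega)
  have h3 : c / (N + 2) * (N + 2) + c % (N + 2) = c := Nat.div_add_mod' _ _
  refine mem_pats.2 ⟨_, h1, _, h2, Or.inr (Or.inl ⟨s, hs, s', hs', ?_⟩)⟩
  rw [h3]

theorem exists_not_mem {q : ℕ} {h : List ℕ} (hl : h.length < q) : ∃ u < q, u ∉ h := by
  by_contra hcon
  push Not at hcon
  have h1 : (List.range q).Subperm h := List.nodup_range.subperm (fun u hu =>
    hcon u (List.mem_range.1 hu))
  have := h1.length_le
  rw [List.length_range] at this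
  omega

theorem var_lt' {K a c s : ℕ} (hc : c < K) (hs : s < a) : c * a + s < K * a := by
  calc c * a + s < c * a + a := by omega
    _ = (c + 1) * a := by ring
    _ ≤ K * a := Nat.mul_le_mul_right _ hc

theorem hok_hyp (ha : 0 < a) (hN : 0 < N) (r t : ℕ) :
    HOK ((N + 2) * (N + 2) * a) (hyp ((N + 2) * (N + 2) * a) r t (pats a al Wr n1 n3 N y)) := by
  have hq : 9 ≤ (N + 2) * (N + 2) * a := by
    calc 9 = 3 * 3 * 1 := rfl
      _ ≤ (N + 2) * (N + 2) * a := Nat.mul_le_mul (Nat.mul_le_mul (by omega) (by omega)) ha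
  intro h hh
  rw [hyp, List.mem_append] at hh
  rcases hh with hh | hh
  · simp only [List.mem_flatMap, List.mem_range, List.mem_replicate] at hh
    obtain ⟨u, hu, -, rfl⟩ := hh
    refine ⟨by simp, by simp, by simpa using hu, exists_not_mem (by simp; omega)⟩
  · simp only [List.mem_flatMap, List.mem_replicate] at hh
    obtain ⟨h', hh, -, rfl⟩ := hh
    obtain ⟨t, ht, i, hi, hg⟩ := mem_pats.1 hh
    rcases hg with ⟨s, hs, h3, rfl⟩ | ⟨s, hs, s', hs', rfl⟩ |
      ⟨hw, s1, b1, s2, b2, s3, b3, s4, b4, h3, rfl⟩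
    · refine ⟨by simp, by simp, ?_, exists_not_mem (by simp; omega)⟩
      intro u hu
      simp only [List.mem_cons, List.not_mem_nil, or_false] at hu
      rw [hu]
      exact var_lt' (idx_lt ht hi) hs
    · refine ⟨by simp, ?_, ?_, exists_not_mem (by simp; omega)⟩
      · simp; omega
      · intro u hu
        simp only [List.mem_cons, List.not_mem_nil, or_false] at hu
        rcases hu with rfl | rfl
        · exact var_lt' (idx_lt ht hi) (by omega)
        · exact var_lt' (idx_lt ht hi) hs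
    · obtain ⟨w1, w2⟩ := cls_win ht hN hw
      refine ⟨by simp, ?_, ?_, exists_not_mem (by simp; omega)⟩
      · have key : ∀ {c c' s s' : ℕ}, s < a → s' < a → c ≠ c' → c * a + s ≠ c' * a + s' :=
          fun hs hs' hc h => hc (cell_inj hs hs' h).1
        have hc4 : (t + 1) * (N + 2) + (i + 1) = t * (N + 2) + (i + 1) + (N + 2) := by ring
        simp only [List.nodup_cons, List.mem_cons, List.not_mem_nil, or_false, not_or,
          not_false_eq_true, List.nodup_nil, and_true]
        refine ⟨⟨key b1 b2 (by omega), key b1 b3 (by omega), key b1 b4 (by omega)⟩,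
          ⟨key b2 b3 (by omega), key b2 b4 (by omega)⟩, key b3 b4 (by omega)⟩
      · intro u hu
        simp only [List.mem_cons, List.not_mem_nil, or_false] at hu
        rcases hu with rfl | rfl | rfl | rfl
        · exact var_lt' (idx_lt ht hi) b1
        · exact var_lt' (idx_lt ht (by omega)) b2
        · exact var_lt' (idx_lt ht w2) b3
        · exact var_lt' (idx_lt w1 (by omega)) b4

open Classical in
/-- The number of correct grids, from the threshold. -/
theorem extract_grid (hN : 0 < N) {r t : ℕ} (hr : (N + 2) * (N + 2) * a + 2 ≤ r)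
    (ht : (N + 2) * (N + 2) * a + r * ((N + 2) * (N + 2)) + 1 ≤ t) :
    (NN ((N + 2) * (N + 2) * a) (hyp ((N + 2) * (N + 2) * a) r t (pats a al Wr n1 n3 N y)) % 2 ^ t) /
      2 ^ (r * ((N + 2) * (N + 2))) =
      (Finset.univ.filter (fun z : Fin ((N + 2) * (N + 2)) → Fin a =>
        GridOK a al Wr n1 n3 N y z)).card := by
  rw [extract_csp (Nat.mul_pos (by omega) (by omega)) hr ht pats_pair]
  congr 1
  apply Finset.filter_congr
  intro z _
  exact pats_iff hN z

end

end GenMed
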