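import Pool.Agent.GenMed.Query
import Pool.Agent.PolyTime.ThreeSat

/-!
# The instance is computed in polynomial time
-/

namespace GenMed

open NPC FP

section
variable {α : Type} [Code α]

theorem poly_cls {C : α → List ℕ} {i : α → ℕ} (hC : Poly C) (hi : Poly i) :
    Poly (fun x => cls (C x) (i x)) := by
  unfold cls
  fun_prop

theorem poly_nxt {C : α → List ℕ} {i : α → ℕ} (hC : Poly C) (hi : Poly i) :
    Poly (fun x => nxt (C x) (i x)) := by
  have h := poly_cls hC hi
  unfold nxt
  fun_prop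

theorem poly_prv {C : α → List ℕ} {i : α → ℕ} (hC : Poly C) (hi : Poly i) :
    Poly (fun x => prv (C x) (i x)) := by
  have h := poly_cls hC hi
  unfold prv
  fun_prop

theorem poly_nA {E : α → List (ℕ × ℕ)} {i : α → ℕ} (hE : Poly E) (hi : Poly i) :
    Poly (fun x => nA (E x) (i x)) := by
  unfold nA
  exact poly_nxt (by fun_prop) hi

theorem poly_nB {E : α → List (ℕ × ℕ)} {i : α → ℕ} (hE : Poly E) (hi : Poly i) :
    Poly (fun x => nB (E x) (i x)) := by
  unfold nB
  exact poly_nxt (by fun_prop) hi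

theorem poly_pA {E : α → List (ℕ × ℕ)} {i : α → ℕ} (hE : Poly E) (hi : Poly i) :
    Poly (fun x => pA (E x) (i x)) := by
  unfold pA
  exact poly_prv (by fun_prop) hi

theorem poly_pB {E : α → List (ℕ × ℕ)} {i : α → ℕ} (hE : Poly E) (hi : Poly i) :
    Poly (fun x => pB (E x) (i x)) := by
  unfold pB
  exact poly_prv (by fun_prop) hi

theorem poly_pref {n x y z : α → ℕ} (hn : Poly n) (hb : PolyBdd n) (hx : Poly x) (hy : Poly y)
    (hz : Poly z) : Poly (fun e => pref (n e) (x e) (y e) (z e)) := by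
  unfold pref
  fun_prop

theorem poly_menOf {E : α → List (ℕ × ℕ)} (hE : Poly E) : Poly (fun x => menOf (E x)) := by
  unfold menOf
  refine FP.Poly.map (g := fun x e => pref (E x).length e (nA (E x) e) (nA (E x) (nB (E x) e)))
    (by fun_prop) ?_
  have h1 : Poly (fun p : α × ℕ => E p.1) := by fun_prop
  have h2 : Poly (fun p : α × ℕ => p.2) := by fun_prop
  exact poly_pref (by fun_prop) (PolyBdd.length h1) h2 (poly_nA h1 h2) (poly_nA h1 (poly_nB h1 h2))

theorem poly_womenOf {E : α → List (ℕ × ℕ)} (hE : Poly E) : Poly (fun x => womenOf (E x)) := by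
  unfold womenOf
  refine FP.Poly.map (g := fun x e => pref (E x).length (pB (E x) (pA (E x) e)) (pA (E x) e) e)
    (by fun_prop) ?_
  have h1 : Poly (fun p : α × ℕ => E p.1) := by fun_prop
  have h2 : Poly (fun p : α × ℕ => p.2) := by fun_prop
  exact poly_pref (by fun_prop) (PolyBdd.length h1) (poly_pB h1 (poly_pA h1 h2)) (poly_pA h1 h2) h2

theorem poly_topList {E : α → List (ℕ × ℕ)} (hE : Poly E) : Poly (fun x => topList (E x)) := by
  unfold topList
  refine FP.Poly.map (g := fun x e => nA (E x) (nB (E x) e)) (by fun_prop) ?_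
  have h1 : Poly (fun p : α × ℕ => E p.1) := by fun_prop
  have h2 : Poly (fun p : α × ℕ => p.2) := by fun_prop
  exact poly_nA h1 (poly_nB h1 h2)

theorem poly_preList {E : α → List (ℕ × ℕ)} {h : α → ℕ} (hE : Poly E) (hh : Poly h) :
    Poly (fun x => preList (E x) (h x)) := by
  unfold preList
  refine FP.Poly.map (g := fun x e => if ((E x).getD e (0, 0)).2 < h x then nA (E x) (nB (E x) e)
    else nA (E x) e) (by fun_prop) ?_
  have h1 : Poly (fun p : α × ℕ => E p.1) := by fun_prop
  have h2 : Poly (fun p : α × ℕ => p.2) := by fun_prop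
  have h3 := poly_nA h1 (poly_nB h1 h2)
  have h4 := poly_nA h1 h2
  fun_prop

theorem poly_incH {q m : α → ℕ} {H : α → List (List ℕ)} (hq : Poly q) (hqb : PolyBdd q)
    (hm : Poly m) (hmb : PolyBdd m) (hH : Poly H) : Poly (fun x => incH (q x) (m x) (H x)) := by
  unfold incH allH incOf
  fun_prop

theorem poly_dataP {q m j : α → ℕ} {H : α → List (List ℕ)} (hq : Poly q) (hqb : PolyBdd q)
    (hm : Poly m) (hmb : PolyBdd m) (hH : Poly H) (hj : Poly j) :
    Poly (fun x => dataP (q x) (m x) (H x) (j x)) := by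
  have h := poly_incH hq hqb hm hmb hH
  unfold dataP
  exact Poly.pair (Poly.pair (poly_menOf h) (poly_womenOf h))
    (Poly.pair (poly_preList h (by fun_prop)) hj)

theorem poly_dataZ {q m j : α → ℕ} {H : α → List (List ℕ)} (hq : Poly q) (hqb : PolyBdd q)
    (hm : Poly m) (hmb : PolyBdd m) (hH : Poly H) (hj : Poly j) :
    Poly (fun x => dataZ (q x) (m x) (H x) (j x)) := by
  have h := poly_incH hq hqb hm hmb hH
  unfold dataZ
  exact Poly.pair (Poly.pair (poly_menOf h) (poly_womenOf h)) (Poly.pair (poly_topList h) hj)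

theorem poly_jay {m h c : α → ℕ} (hm : Poly m) (hmb : PolyBdd m) (hh : Poly h) (hhb : PolyBdd h)
    (hc : Poly c) : Poly (fun x => jay (m x) (h x) (c x)) := by
  unfold jay
  have h1 : Poly (fun x => 2 ^ (m x - 1)) := Poly.twoPow (by fun_prop) (by fun_prop)
  have h2 : Poly (fun x => 2 ^ h x) := Poly.twoPow hh hhb
  fun_prop

theorem poly_hyp {q r t : α → ℕ} {P : α → List (List ℕ)} (hq : Poly q) (hqb : PolyBdd q)
    (hr : Poly r) (hrb : PolyBdd r) (ht : Poly t) (htb : PolyBdd t) (hP : Poly P) :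
    Poly (fun x => hyp (q x) (r x) (t x) (P x)) := by
  unfold hyp
  fun_prop

theorem poly_pats (a : ℕ) (al : Cl × Bool → ℕ → Prop) (Wr : ℕ → ℕ → ℕ → ℕ → Prop)
    {n1 n3 N : α → ℕ} {y : α → List Bool} (h1 : Poly n1) (h3 : Poly n3) (hN : Poly N)
    (hNb : PolyBdd N) (hy : Poly y) :
    Poly (fun x => pats a al Wr (n1 x) (n3 x) (N x) (y x)) := by
  unfold pats
  have hcl : Poly (fun p : (α × ℕ) × ℕ =>
      localPat a al Wr (cls2 (n1 p.1.1) (n3 p.1.1) (N p.1.1) (y p.1.1) p.1.2 p.2)) := by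
    have h4 := Poly.cls (n1 := fun p : (α × ℕ) × ℕ => n1 p.1.1) (n3 := fun p => n3 p.1.1)
      (N := fun p => N p.1.1) (y := fun p => y p.1.1) (t := fun p => p.1.2) (i := fun p => p.2)
      (by fun_prop) (by fun_prop) (by fun_prop) (by fun_prop) (by fun_prop) (by fun_prop)
    have h5 : Poly (fun p : (α × ℕ) × ℕ => decide (p.2 = N p.1.1 + 1 ∨ p.1.2 = N p.1.1 + 1)) := by
      fun_prop
    exact (Poly.ofFinite (localPat a al Wr)).comp (Poly.pair h4 h5)
  unfold glob2
  fun_prop

end

end GenMed
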