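import Pool.Agent.GenMed.Pat

/-!
# The two questions about the instance of a hypergraph
-/

namespace GenMed

/-- the matching just below the woman-optimal one, as a list -/
def preList (E : List (ℕ × ℕ)) (h : ℕ) : List ℕ :=
  (List.range E.length).map (fun e => if (E.getD e (0, 0)).2 < h then nA E (nB E e) else nA E e)

/-- the woman-optimal matching, as a list -/
def topList (E : List (ℕ × ℕ)) : List ℕ :=
  (List.range E.length).map (fun e => nA E (nB E e))

/-- the incidence list of the instance -/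
def incH (q m : ℕ) (H : List (List ℕ)) : List (ℕ × ℕ) := incOf q (allH q m H)

/-- the first question -/
def dataP (q m : ℕ) (H : List (List ℕ)) (j : ℕ) : Data :=
  ((menOf (incH q m H), womenOf (incH q m H)), (preList (incH q m H) H.length, j))

/-- the second question -/
def dataZ (q m : ℕ) (H : List (List ℕ)) (j : ℕ) : Data :=
  ((menOf (incH q m H), womenOf (incH q m H)), (topList (incH q m H), j))

/-- the rank at which the questions are asked -/
def jay (m h c : ℕ) : ℕ := c + (2 ^ (m - 1) - 1) * 2 ^ h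

theorem yes_iff {d : Data} {n : ℕ} {μ : Equiv.Perm (Fin n)} (h : Input d n μ) :
    Yes d ↔ IsAlpha n d.1.1 d.1.2 d.2.2 μ := by
  constructor
  · rintro ⟨n', μ', h', hA⟩
    have hn : n' = n := by rw [← h'.2.1.1, ← h.2.1.1]
    subst hn
    have h1 : (fun i => (μ' i : ℕ)) = fun i => (μ i : ℕ) := by
      apply List.ofFn_injective
      rw [← h'.2.2.2.1, ← h.2.2.2.1]
    have h2 : μ' = μ := Equiv.ext fun i => Fin.ext (congrFun h1 i)
    rw [← h2]; exact hA
  · intro hA; exact ⟨n, μ, h, hA⟩

theorem map_range_ofFn {n : ℕ} (f : ℕ → ℕ) (g : Fin n → ℕ) (h : ∀ i : Fin n, f i = g i) :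
    (List.range n).map f = List.ofFn g := by
  apply List.ext_getElem
  · simp
  · intro i h1 h2
    simp only [List.getElem_map, List.getElem_range, List.getElem_ofFn]
    exact h ⟨i, by simpa using h1⟩

theorem questions {q m : ℕ} {H : List (List ℕ)} (hH : HOK q H) (hq : 0 < q) (hm : 2 ≤ m) (c : ℕ)
    (hc : c < 2 ^ (H.length + m - 1)) :
    Legal (dataP q m H (jay m H.length c)) ∧ Legal (dataZ q m H (jay m H.length c + 1)) ∧
    ((Yes (dataP q m H (jay m H.length c)) ∧ Yes (dataZ q m H (jay m H.length c + 1))) ↔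
      c = NN q H) := by
  set E := incH q m H with hE
  have hG : Good E (q + 1) (H.length + m) := good_incOf hH hq hm
  have hR := ranksOf hG
  have hfull : ∀ v, (rotOf hG).nb v = Finset.univ ↔ H.length ≤ (v : ℕ) :=
    fun v => hnb_full_iff hH hq hm v
  have hn : 1 ≤ E.length := by
    obtain ⟨p, hp, -⟩ := hG.two1 0 (by omega)
    exact List.length_pos_of_mem hp
  -- the matchings
  set T : Finset (Fin (H.length + m)) :=
    Finset.univ.filter (fun v => (rotOf hG).nb v ≠ Finset.univ) with hT
  have idP : (rotOf hG).Ideal (Finset.univ, T) := fun _ _ => Finset.mem_univ _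
  have idZ : (rotOf hG).Ideal (Finset.univ, Finset.univ) := fun _ _ => Finset.mem_univ _
  set μP := (rotOf hG).mat (Finset.univ, T) with hμP
  set μZ := (rotOf hG).mat (Finset.univ, Finset.univ) with hμZ
  have eP : ∀ e, μP e = if (rotOf hG).nb ((rotOf hG).hi e) = Finset.univ then (rotOf hG).a e
      else (rotOf hG).a ((rotOf hG).b e) := by
    intro e
    rw [hμP, Rot.mat_apply _ idP]
    by_cases h : (rotOf hG).nb ((rotOf hG).hi e) = Finset.univ
    · rw [if_pos h, if_neg (by simp [hT, h]), if_pos (Finset.mem_univ _)]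
    · rw [if_neg h, if_pos (by simp [hT, h])]
  have eZ : ∀ e, μZ e = (rotOf hG).a ((rotOf hG).b e) := by
    intro e
    rw [hμZ, Rot.mat_apply _ idZ, if_pos (Finset.mem_univ _)]
  have sP : Stable (menOf E) (womenOf E) μP := Rot.mat_stable hR _ idP
  have sZ : Stable (menOf E) (womenOf E) μZ := Rot.mat_stable hR _ idZ
  -- as lists
  have lP : preList E H.length = List.ofFn (fun i => (μP i : ℕ)) := by
    apply map_range_ofFn
    intro e
    rw [eP e]
    have h1 : (E.getD e (0, 0)).2 = ((rotOf hG).hi e : ℕ) := by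
      rw [List.getD_eq_getElem _ _ e.2]; rfl
    rw [h1]
    by_cases h : H.length ≤ ((rotOf hG).hi e : ℕ)
    · rw [if_neg (by omega), if_pos ((hfull _).2 h)]
      rfl
    · rw [if_pos (by omega), if_neg (fun h' => h ((hfull _).1 h'))]
      rfl
  have lZ : topList E = List.ofFn (fun i => (μZ i : ℕ)) := by
    apply map_range_ofFn
    intro e
    rw [eZ e]
    rfl
  -- bounds
  have hcard : (stableSet E.length (menOf E) (womenOf E)).card = (ids (rotOf hG).nb).card :=
    card_stableSet hR
  have hge : 2 ^ (H.length + m) ≤ (ids (rotOf hG).nb).card := by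
    have := card_ids_ge (Nb := (rotOf hG).nb)
    rwa [Fintype.card_fin] at this
  have hpow1 : 2 ^ (H.length + m) = 2 * 2 ^ (H.length + m - 1) := by
    rw [← pow_succ']; congr 1; omega
  have hpow2 : 2 ^ (H.length + m - 1) = 2 ^ (m - 1) * 2 ^ H.length := by
    rw [← pow_add]; congr 1; omega
  have h3 : 2 ≤ 2 ^ (m - 1) := by
    calc 2 = 2 ^ 1 := rfl
      _ ≤ 2 ^ (m - 1) := Nat.pow_le_pow_right (by norm_num) (by omega)
  have h4 : (2 ^ (m - 1) - 1) * 2 ^ H.length + 2 ^ H.length = 2 ^ (m - 1) * 2 ^ H.length := by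
    rw [← Nat.succ_mul]; congr 1; omega
  have h5 : 0 < 2 ^ H.length := by positivity
  have h6 : 2 ^ H.length ≤ (2 ^ (m - 1) - 1) * 2 ^ H.length := Nat.le_mul_of_pos_left _ (by omega)
  have hj1 : 1 ≤ jay m H.length c := by unfold jay; omega
  have hj2 : jay m H.length c + 1 ≤ (ids (rotOf hG).nb).card := by
    unfold jay; omega
  have inP : Input (dataP q m H (jay m H.length c)) E.length μP :=
    ⟨hn, men_isPrefs hG, women_isPrefs hG, lP, sP, hj1,
      (Nat.le_succ _).trans (hj2.trans hcard.ge)⟩
  have inZ : Input (dataZ q m H (jay m H.length c + 1)) E.length μZ :=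
    ⟨hn, men_isPrefs hG, women_isPrefs hG, lZ, sZ, by
      change 1 ≤ jay m H.length c + 1
      omega, hj2.trans hcard.ge⟩
  refine ⟨⟨_, _, inP⟩, ⟨_, _, inZ⟩, ?_⟩
  rw [yes_iff inP, yes_iff inZ]
  have hv : (rotOf hG).nb ⟨H.length, by omega⟩ = Finset.univ :=
    (hfull ⟨H.length, by omega⟩).2 le_rfl
  have hne : (⟨H.length + 1, by omega⟩ : Fin (H.length + m)) ≠ ⟨H.length, by omega⟩ := by
    intro h
    rw [Fin.mk.injEq] at h
    omega
  refine (alpha_pair_iff hR _ hj1 hv hne μP μZ eP eZ).trans ?_
  have hth := threshold hH hq hm (v := ⟨H.length, by omega⟩) hv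
  constructor
  · intro h
    have h' := h.trans hth
    unfold jay at h'
    omega
  · intro h
    refine Eq.trans ?_ hth.symm
    unfold jay
    omega

end GenMed
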