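import Pool.Agent.GenMed.Defs

/-!
# Stable matchings of instances with prescribed rotations (two levels)
-/

namespace GenMed

/-- The data of a two-level system of rotations on the men `Fin n`. -/
structure Rot (n : ℕ) (U V : Type) where
  lo : Fin n → U
  hi : Fin n → V
  a : Equiv.Perm (Fin n)
  b : Equiv.Perm (Fin n)
  lo_a : ∀ e, lo (a e) = lo e
  hi_b : ∀ e, hi (b e) = hi e
  conn_a : ∀ S : Set (Fin n), (∀ e ∈ S, a e ∈ S) → ∀ e e', lo e = lo e' → e ∈ S → e' ∈ S
  conn_b : ∀ S : Set (Fin n), (∀ e ∈ S, b e ∈ S) → ∀ e e', hi e = hi e' → e ∈ S → e' ∈ S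
  ne_a : ∀ e, a e ≠ e
  ne_b : ∀ e, b e ≠ e
  lo_b : ∀ e, lo (b e) ≠ lo e
  surj_lo : Function.Surjective lo
  surj_hi : Function.Surjective hi

/-- The ranks realise the system. -/
structure Rot.Ranks {n : ℕ} {U V : Type} (R : Rot n U V) (rm rw : Fin n → Fin n → ℕ) : Prop where
  m0 : ∀ e, rm e e = 0
  m1 : ∀ e, rm e (R.a e) = 1
  m2 : ∀ e, rm e (R.a (R.b e)) = 2
  m3 : ∀ e y, y ≠ e → y ≠ R.a e → y ≠ R.a (R.b e) → 3 ≤ rm e y
  w0 : ∀ y, rw y (R.b.symm (R.a.symm y)) = 0
  w1 : ∀ y, rw y (R.a.symm y) = 1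
  w2 : ∀ y, rw y y = 2
  w3 : ∀ y e, e ≠ y → e ≠ R.a.symm y → e ≠ R.b.symm (R.a.symm y) → 3 ≤ rw y e

/-- stability in terms of ranks -/
def StableR {n : ℕ} (rm rw : Fin n → Fin n → ℕ) (μ : Equiv.Perm (Fin n)) : Prop :=
  ∀ e y, ¬ (rm e y < rm e (μ e) ∧ rw y e < rw y (μ.symm y))

namespace Rot

variable {n : ℕ} {U V : Type} (R : Rot n U V)

theorem ab_ne (e : Fin n) : R.a (R.b e) ≠ e := by
  intro h
  have := R.lo_a (R.b e)
  rw [h] at this
  exact R.lo_b e this.symm

theorem ab_ne_a (e : Fin n) : R.a (R.b e) ≠ R.a e := fun h => R.ne_b e (R.a.injective h)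

variable {R} {rm rw : Fin n → Fin n → ℕ} (hR : R.Ranks rm rw)

include hR

theorem short {μ : Equiv.Perm (Fin n)} (h : StableR rm rw μ) (e : Fin n) :
    μ e = e ∨ μ e = R.a e ∨ μ e = R.a (R.b e) := by
  by_contra hc
  push_neg at hc
  obtain ⟨h1, h2, h3⟩ := hc
  apply h e (R.a (R.b e))
  constructor
  · rw [hR.m2]
    exact hR.m3 e _ h1 h2 h3
  · have h4 := hR.w0 (R.a (R.b e))
    rw [Equiv.symm_apply_apply, Equiv.symm_apply_apply] at h4
    rw [h4]
    set y := R.a (R.b e) with hy
    have h5 : μ.symm y ≠ e := by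
      intro h6
      apply h3
      rw [← h6, Equiv.apply_symm_apply]
    have h7 : R.b.symm (R.a.symm y) = e := by rw [hy]; simp
    by_contra h8
    have h9 : rw y (μ.symm y) = 0 := by omega
    by_cases c1 : μ.symm y = y
    · rw [c1, hR.w2] at h9; omega
    · by_cases c2 : μ.symm y = R.a.symm y
      · rw [c2, hR.w1] at h9; omega
      · by_cases c3 : μ.symm y = R.b.symm (R.a.symm y)
        · rw [h7] at c3; exact h5 c3
        · have := hR.w3 y _ c1 c2 c3; omega

theorem moved_step {μ : Equiv.Perm (Fin n)} (h : StableR rm rw μ) (e : Fin n) (he : μ e ≠ e) :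
    μ (R.a e) ≠ R.a e := by
  intro h1
  rcases short hR h e with h2 | h2 | h2
  · exact he h2
  · rw [← h1] at h2
    exact R.ne_a e (μ.injective h2).symm
  · apply h e (R.a e)
    constructor
    · rw [h2, hR.m1, hR.m2]; omega
    · have h3 : μ.symm (R.a e) = R.a e := by rw [Equiv.symm_apply_eq, h1]
      rw [h3, hR.w2]
      have h4 := hR.w1 (R.a e)
      rw [Equiv.symm_apply_apply] at h4
      rw [h4]; omega

theorem moved_iff {μ : Equiv.Perm (Fin n)} (h : StableR rm rw μ) {e e' : Fin n}
    (hl : R.lo e = R.lo e') (he : μ e ≠ e) : μ e' ≠ e' :=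
  R.conn_a {e | μ e ≠ e} (fun e he => moved_step hR h e he) e e' hl he

theorem top_step {μ : Equiv.Perm (Fin n)} (h : StableR rm rw μ) (e : Fin n)
    (he : μ e = R.a (R.b e)) : μ (R.b e) = R.a (R.b (R.b e)) := by
  rcases short hR h (R.b e) with h1 | h1 | h1
  · exfalso
    have h2 : μ (R.a (R.b e)) ≠ R.a (R.b e) := by
      intro h3
      rw [← he] at h3
      have := μ.injective h3
      rw [he] at this
      exact R.ab_ne e this
    exact moved_iff hR h (R.lo_a (R.b e)) h2 h1
  · exfalso
    rw [← he] at h1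
    exact R.ne_b e (μ.injective h1)
  · exact h1

theorem top_iff {μ : Equiv.Perm (Fin n)} (h : StableR rm rw μ) {e e' : Fin n}
    (hl : R.hi e = R.hi e') (he : μ e = R.a (R.b e)) : μ e' = R.a (R.b e') :=
  R.conn_b {e | μ e = R.a (R.b e)} (fun e he => top_step hR h e he) e e' hl he

omit hR

/-- a permutation restricted to an invariant set -/
def part (a : Equiv.Perm (Fin n)) (P : Fin n → Prop) [DecidablePred P]
    (hP : ∀ e, P (a e) ↔ P e) : Equiv.Perm (Fin n) where
  toFun e := if P e then a e else e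
  invFun e := if P e then a.symm e else e
  left_inv e := by
    by_cases h : P e
    · simp [h, hP]
    · simp [h]
  right_inv e := by
    by_cases h : P e
    · have : P (a.symm e) := by
        rw [← hP, Equiv.apply_symm_apply]; exact h
      simp [h, this]
    · simp [h]

variable [DecidableEq U] [DecidableEq V]

/-- The matching of an ideal. -/
def mat (R : Rot n U V) (p : Finset U × Finset V) : Equiv.Perm (Fin n) :=
  (part R.b (fun e => R.hi e ∈ p.2) (fun e => by rw [R.hi_b])).trans
    (part R.a (fun e => R.lo e ∈ p.1) (fun e => by rw [R.lo_a]))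

/-- The ideals. -/
def Ideal (R : Rot n U V) (p : Finset U × Finset V) : Prop := ∀ e, R.hi e ∈ p.2 → R.lo e ∈ p.1

theorem mat_apply (p : Finset U × Finset V) (hp : R.Ideal p) (e : Fin n) :
    R.mat p e = if R.hi e ∈ p.2 then R.a (R.b e) else if R.lo e ∈ p.1 then R.a e else e := by
  by_cases h : R.hi e ∈ p.2
  · have h2 : R.lo (R.b e) ∈ p.1 := hp (R.b e) (by rw [R.hi_b]; exact h)
    simp [mat, part, h, h2]
  · simp [mat, part, h]

include hR

theorem mat_stable (p : Finset U × Finset V) (hp : R.Ideal p) : StableR rm rw (R.mat p) := by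
  rintro e y ⟨h1, h2⟩
  -- the partner of `y` is in her short list
  have hy : rw y ((R.mat p).symm y) ≤ 2 := by
    set f := (R.mat p).symm y with hf
    have h3 : R.mat p f = y := by rw [hf, Equiv.apply_symm_apply]
    rw [mat_apply p hp] at h3
    split_ifs at h3
    · rw [← h3]
      have := hR.w0 (R.a (R.b f))
      rw [Equiv.symm_apply_apply, Equiv.symm_apply_apply] at this
      omega
    · rw [← h3]
      have := hR.w1 (R.a f)
      rw [Equiv.symm_apply_apply] at this
      omega
    · rw [← h3, hR.w2]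
  have he : rm e (R.mat p e) ≤ 2 := by
    rw [mat_apply p hp]
    split_ifs
    · rw [hR.m2]
    · rw [hR.m1]; omega
    · rw [hR.m0]; omega
  by_cases c1 : y = e
  · subst c1
    rw [hR.w2] at h2
    omega
  · by_cases c2 : y = R.a e
    · subst c2
      rw [hR.m1] at h1
      have h3 : R.hi e ∈ p.2 := by
        by_contra h4
        rw [mat_apply p hp, if_neg h4] at h1
        split_ifs at h1
        · rw [hR.m1] at h1; omega
        · rw [hR.m0] at h1; omega
      have h4 : R.lo e ∈ p.1 := hp e h3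
      have h5 := hR.w1 (R.a e)
      rw [Equiv.symm_apply_apply] at h5
      rw [h5] at h2
      -- the partner of `a e` is `a e`
      set f := (R.mat p).symm (R.a e) with hf
      have h6 : R.mat p f = R.a e := by rw [hf, Equiv.apply_symm_apply]
      rw [mat_apply p hp] at h6
      split_ifs at h6 with c3 c4
      · have h7 := hR.w0 (R.a (R.b f))
        rw [Equiv.symm_apply_apply, Equiv.symm_apply_apply, h6] at h7
        omega
      · have h7 := hR.w1 (R.a f)
        rw [Equiv.symm_apply_apply, h6] at h7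
        omega
      · rw [h6, R.lo_a] at c4
        exact c4 h4
    · by_cases c3 : y = R.a (R.b e)
      · subst c3
        rw [hR.m2] at h1; omega
      · have := hR.m3 e y c1 c2 c3
        omega

theorem exists_ideal [Fintype U] [Fintype V] {μ : Equiv.Perm (Fin n)} (h : StableR rm rw μ) :
    ∃ p : Finset U × Finset V, R.Ideal p ∧ R.mat p = μ := by
  classical
  let S : Finset U := Finset.univ.filter (fun u => ∃ e, R.lo e = u ∧ μ e ≠ e)
  let T : Finset V := Finset.univ.filter (fun v => ∃ e, R.hi e = v ∧ μ e = R.a (R.b e))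
  have hS : ∀ e, R.lo e ∈ S ↔ μ e ≠ e := by
    intro e
    simp only [S, Finset.mem_filter, Finset.mem_univ, true_and]
    constructor
    · rintro ⟨e', h1, h2⟩
      exact moved_iff hR h h1 h2
    · intro h1; exact ⟨e, rfl, h1⟩
  have hT : ∀ e, R.hi e ∈ T ↔ μ e = R.a (R.b e) := by
    intro e
    simp only [T, Finset.mem_filter, Finset.mem_univ, true_and]
    constructor
    · rintro ⟨e', h1, h2⟩
      exact top_iff hR h h1 h2
    · intro h1; exact ⟨e, rfl, h1⟩
  have hI : R.Ideal (S, T) := by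
    intro e he
    rw [hS]
    rw [hT] at he
    rw [he]
    exact R.ab_ne e
  refine ⟨(S, T), hI, ?_⟩
  ext e
  rw [mat_apply _ hI]
  simp only [hS, hT]
  split_ifs with h1 h2
  · rw [h1]
  · rcases short hR h e with h3 | h3 | h3
    · exact absurd h3 h2
    · rw [h3]
    · exact absurd h3 h1
  · rw [not_not] at h2; rw [h2]

omit hR

theorem mat_top_iff (p : Finset U × Finset V) (hp : R.Ideal p) (e : Fin n) :
    R.mat p e = R.a (R.b e) ↔ R.hi e ∈ p.2 := by
  rw [mat_apply p hp]
  split_ifs with h1 h2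
  · simp [h1]
  · simp only [h1, iff_false]
    exact fun h => R.ab_ne_a e h.symm
  · simp only [h1, iff_false]
    exact fun h => R.ab_ne e h.symm

theorem mat_moved_iff (p : Finset U × Finset V) (hp : R.Ideal p) (e : Fin n) :
    R.mat p e ≠ e ↔ R.lo e ∈ p.1 := by
  rw [mat_apply p hp]
  split_ifs with h1 h2
  · simp only [hp e h1, iff_true]
    exact R.ab_ne e
  · simp only [h2, iff_true]
    exact R.ne_a e
  · simp [h2]

theorem mat_injOn : Set.InjOn R.mat {p | R.Ideal p} := by
  intro p hp q hq h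
  have h1 : p.1 = q.1 := by
    ext u
    obtain ⟨e, rfl⟩ := R.surj_lo u
    rw [← mat_moved_iff p hp, ← mat_moved_iff q hq, h]
  have h2 : p.2 = q.2 := by
    ext v
    obtain ⟨e, rfl⟩ := R.surj_hi v
    rw [← mat_top_iff p hp, ← mat_top_iff q hq, h]
  exact Prod.ext h1 h2

end Rot

end GenMed
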