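import Pool.Agent.NPC.Cnf
import Pool.Agent.GenMed.Extract

/-!
# A parsimonious tableau
-/

namespace GenMed

open NPC Function Turing

namespace MachP

variable (M : Mach) (q0 : M.Q) (k₀ k₁ : M.K) (sy : Sym → M.Γ k₀) (ac : M.Γ k₁)
  (g1 : M.Q × (∀ k, Option (M.Γ k)))

/-- allowed cells: the certificate has full length and the redundant cells are fixed -/
def allow2 (c : Cl × Bool) (s : M.Cell) : Prop :=
  M.allow q0 k₀ k₁ sy ac c.1 s ∧ (c.1 = .rw → s.2 k₀ ≠ none) ∧ (c.2 = true → s.1 = g1)

/-- `z` is a correct tableau. -/
def Solves2 (n1 n3 N : ℕ) (y : List Bool) (z : ℕ → ℕ → M.Cell) : Prop :=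
  ∀ t < N + 2, ∀ i < N + 2,
    allow2 M q0 k₀ k₁ sy ac g1 (NPC.cls n1 n3 N y t i, decide (i = N + 1 ∨ t = N + 1)) (z t i) ∧
    ((NPC.cls n1 n3 N y t i).win = true →
      M.W (z t i) (z t (i + 1)) (z t (i + 2)) (z (t + 1) (i + 1)))

theorem Solves2.solves {n1 n3 N : ℕ} {y : List Bool} {z : ℕ → ℕ → M.Cell}
    (h : Solves2 M q0 k₀ k₁ sy ac g1 n1 n3 N y z) : M.Solves q0 k₀ k₁ sy ac n1 n3 N y z :=
  fun t ht i hi => ⟨(h t ht i hi).1.1, (h t ht i hi).2⟩

/-- the tableau of a run -/
def tab [DecidableEq M.K] (x w : List Bool) (N : ℕ) (t i : ℕ) : M.Cell :=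
  (if i = N + 1 ∨ t = N + 1 then g1 else ((M.conf q0 k₀ sy (encPair (x, w)) t).1,
    M.heads (M.conf q0 k₀ sy (encPair (x, w)) t).2),
    fun k => ct ((M.conf q0 k₀ sy (encPair (x, w)) t).2 k) i)

/-- The tableau of an accepting run is correct. -/
theorem solves2_tab [DecidableEq M.K] (x w : List Bool) (p N : ℕ) (hN : x.length + 2 + p ≤ N)
    (hw : w.length = p)
    (hH : ∀ t k, ((M.conf q0 k₀ sy (encPair (x, w)) t).2 k).length < N)
    (hfin : (M.conf q0 k₀ sy (encPair (x, w)) (N + 1)).1 = g1.1)
    (hacc : ct ((M.conf q0 k₀ sy (encPair (x, w)) (N + 1)).2 k₁) 1 = some (some ac)) :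
    Solves2 M q0 k₀ k₁ sy ac g1 (x.length + 1) (x.length + 2 + p) N (false :: x.reverse)
      (tab M q0 k₀ sy g1 x w N) := by
  -- the original tableau
  have hold : M.Solves q0 k₀ k₁ sy ac (x.length + 1) (x.length + 2 + p) N (false :: x.reverse)
      (fun t i => (((M.conf q0 k₀ sy (encPair (x, w)) t).1,
        M.heads (M.conf q0 k₀ sy (encPair (x, w)) t).2),
        fun k => ct ((M.conf q0 k₀ sy (encPair (x, w)) t).2 k) i)) := by
    intro t ht i hi
    constructor
    · have hrow0 : ∀ k, (M.conf q0 k₀ sy (encPair (x, w)) 0).2 k =
          update (fun _ => []) k₀ ((encPair (x, w)).map sy) k := fun k => rfl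
      have hinit : ∀ i, M.Init q0 k₀ (((M.conf q0 k₀ sy (encPair (x, w)) 0).1,
          M.heads (M.conf q0 k₀ sy (encPair (x, w)) 0).2),
          fun k => ct ((M.conf q0 k₀ sy (encPair (x, w)) 0).2 k) (i + 1)) := by
        intro i
        refine ⟨rfl, ?_⟩
        intro k hk
        change ct ((M.conf q0 k₀ sy (encPair (x, w)) 0).2 k) (i + 1) = none
        rw [hrow0, update_of_ne hk, ct_eq_none]
        simp
      have hk0 : (M.conf q0 k₀ sy (encPair (x, w)) 0).2 k₀ = (encPair (x, w)).map sy := by
        rw [hrow0, update_self]
      unfold NPC.cls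
      by_cases h1 : i < 1
      · rw [if_pos h1]
        obtain rfl : i = 0 := by omega
        by_cases h2 : t < 1
        · rw [if_pos h2]
          obtain rfl : t = 0 := by omega
          exact ⟨rfl, fun k => ct_zero _⟩
        · rw [if_neg h2]
          split_ifs
          · exact fun k => ct_zero _
          · exact fun k => ct_zero _
      · rw [if_neg h1]
        obtain ⟨i, rfl⟩ : ∃ j, i = j + 1 := ⟨i - 1, by omega⟩
        by_cases h2 : i + 1 < N
        · rw [if_pos h2]
          by_cases h3 : t < 1
          · rw [if_pos h3]
            obtain rfl : t = 0 := by omega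
            by_cases h4 : i + 1 < x.length + 1
            · rw [if_pos h4]
              rw [prep_getElem x i (by omega)]
              by_cases h5 : x.reverse[i]'(by simp; omega) = true
              · rw [if_pos (by rw [h5])]
                refine ⟨hinit i, ?_⟩
                change ct ((M.conf q0 k₀ sy (encPair (x, w)) 0).2 k₀) (i + 1) = _
                rw [hk0, ct_input1 sy x w i (by omega), h5]
              · rw [if_neg (by simpa using h5)]
                refine ⟨hinit i, ?_⟩
                change ct ((M.conf q0 k₀ sy (encPair (x, w)) 0).2 k₀) (i + 1) = _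
                rw [hk0, ct_input1 sy x w i (by omega)]
                rw [Bool.not_eq_true] at h5
                rw [h5]
            · rw [if_neg h4]
              by_cases h5 : i + 1 < x.length + 1 + 1
              · rw [if_pos h5]
                obtain rfl : i = x.length := by omega
                refine ⟨hinit _, ?_⟩
                change ct ((M.conf q0 k₀ sy (encPair (x, w)) 0).2 k₀) (x.length + 1) = _
                rw [hk0, ct_input2]
              · rw [if_neg h5]
                obtain ⟨j, rfl⟩ : ∃ j, i = x.length + 1 + j := ⟨i - (x.length + 1), by omega⟩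
                have hc : ct ((M.conf q0 k₀ sy (encPair (x, w)) 0).2 k₀) (x.length + 1 + j + 1) =
                    (w.reverse[j]?).map (fun b => some (sy (some b))) := by
                  rw [hk0, show x.length + 1 + j + 1 = x.length + 2 + j by ring, ct_input3]
                by_cases h6 : x.length + 1 + j + 1 < x.length + 2 + p
                · rw [if_pos h6]
                  refine ⟨hinit _, ?_⟩
                  change ct ((M.conf q0 k₀ sy (encPair (x, w)) 0).2 k₀) (x.length + 1 + j + 1) = none ∨
                    ∃ b : Bool, ct ((M.conf q0 k₀ sy (encPair (x, w)) 0).2 k₀)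
                      (x.length + 1 + j + 1) = _
                  rw [hc]
                  rcases w.reverse[j]? with _ | b
                  · left; rfl
                  · right; exact ⟨b, rfl⟩
                · rw [if_neg h6]
                  refine ⟨hinit _, ?_⟩
                  change ct ((M.conf q0 k₀ sy (encPair (x, w)) 0).2 k₀) (x.length + 1 + j + 1) = none
                  rw [hc, List.getElem?_eq_none (by simp; omega)]
                  rfl
          · rw [if_neg h3]
            by_cases h4 : t < N + 1
            · rw [if_pos h4]; trivial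
            · rw [if_neg h4]
              by_cases h5 : i + 1 < 2
              · rw [if_pos h5]
                obtain rfl : i = 0 := by omega
                obtain rfl : t = N + 1 := by omega
                exact hacc
              · rw [if_neg h5]; trivial
        · rw [if_neg h2]
          intro k
          change ct ((M.conf q0 k₀ sy (encPair (x, w)) t).2 k) (i + 1) = none
          rw [ct_eq_none]
          have := hH t k
          omega
    · intro _
      refine ⟨rfl, ?_, ?_, ?_, ?_⟩
      · change (M.conf q0 k₀ sy (encPair (x, w)) (t + 1)).1 = _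
        rw [M.conf_succ]
        rfl
      · intro k ha hb
        change ct ((M.conf q0 k₀ sy (encPair (x, w)) t).2 k) i ≠ none at ha
        change ct ((M.conf q0 k₀ sy (encPair (x, w)) t).2 k) (i + 1) = none at hb
        change ct ((M.conf q0 k₀ sy (encPair (x, w)) t).2 k) i = some _
        rw [ne_eq, ct_eq_none] at ha
        rw [ct_eq_none] at hb
        have : ((M.conf q0 k₀ sy (encPair (x, w)) t).2 k).length = i := by omega
        rw [← this, ct_top]
        rfl
      · intro k hb
        change ct ((M.conf q0 k₀ sy (encPair (x, w)) t).2 k) (i + 1) = none at hb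
        change ct ((M.conf q0 k₀ sy (encPair (x, w)) t).2 k) (i + 2) = none
        rw [ct_eq_none] at hb ⊢
        omega
      · intro k
        change ct ((M.conf q0 k₀ sy (encPair (x, w)) (t + 1)).2 k) (i + 1) = _
        rw [M.conf_succ]
        exact ct_app _ _ _
  intro t ht i hi
  obtain ⟨h1, h2⟩ := hold t ht i hi
  refine ⟨⟨?_, ?_, ?_⟩, ?_⟩
  · -- the global part does not matter except in `c00` and row `0`
    by_cases hb : i = N + 1 ∨ t = N + 1
    · have hcl : NPC.cls (x.length + 1) (x.length + 2 + p) N (false :: x.reverse) t i = .cR ∨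
          NPC.cls (x.length + 1) (x.length + 2 + p) N (false :: x.reverse) t i = .cLl ∨
          NPC.cls (x.length + 1) (x.length + 2 + p) N (false :: x.reverse) t i = .acc ∨
          NPC.cls (x.length + 1) (x.length + 2 + p) N (false :: x.reverse) t i = .top := by
        unfold NPC.cls
        rcases hb with hb | hb
        · left
          rw [if_neg (by omega), if_neg (by omega)]
        · by_cases c1 : i < 1
          · rw [if_pos c1, if_neg (by omega), if_neg (by omega)]; right; left; rfl
          · rw [if_neg c1]
            by_cases c2 : i < N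
            · rw [if_pos c2, if_neg (by omega), if_neg (by omega)]
              by_cases c3 : i < 2
              · rw [if_pos c3]; right; right; left; rfl
              · rw [if_neg c3]; right; right; right; rfl
            · rw [if_neg c2]; left; rfl
      rcases hcl with hcl | hcl | hcl | hcl <;> rw [hcl] at h1 ⊢ <;> exact h1
    · have : tab M q0 k₀ sy g1 x w N t i = (((M.conf q0 k₀ sy (encPair (x, w)) t).1,
        M.heads (M.conf q0 k₀ sy (encPair (x, w)) t).2),
        fun k => ct ((M.conf q0 k₀ sy (encPair (x, w)) t).2 k) i) := by
        unfold tab; rw [if_neg hb]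
      rw [this]; exact h1
  · intro hrw
    have hti : t = 0 ∧ ∃ j < p, i = x.length + 2 + j := by
      change NPC.cls (x.length + 1) (x.length + 2 + p) N (false :: x.reverse) t i = .rw at hrw
      unfold NPC.cls at hrw
      split_ifs at hrw
      refine ⟨by omega, i - (x.length + 2), by omega, by omega⟩
    obtain ⟨rfl, j, hj, rfl⟩ := hti
    change ct ((M.conf q0 k₀ sy (encPair (x, w)) 0).2 k₀) (x.length + 2 + j) ≠ none
    change ct (update (fun _ => []) k₀ ((encPair (x, w)).map sy) k₀) (x.length + 2 + j) ≠ none
    rw [update_self, ct_input3, List.getElem?_eq_getElem (by simp; omega)]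
    simp
  · intro hd
    rw [decide_eq_true_iff] at hd
    unfold tab
    rw [if_pos hd]
  · intro hwin
    obtain ⟨w1, w2⟩ := cls_win ht (by omega) hwin
    have hW := h2 hwin
    have e1 : ∀ t' i', t' < N + 1 → i' < N + 1 → tab M q0 k₀ sy g1 x w N t' i' =
        (((M.conf q0 k₀ sy (encPair (x, w)) t').1,
        M.heads (M.conf q0 k₀ sy (encPair (x, w)) t').2),
        fun k => ct ((M.conf q0 k₀ sy (encPair (x, w)) t').2 k) i') := by
      intro t' i' ht' hi'
      unfold tab
      rw [if_neg (by omega)]
    obtain ⟨a1, a2, a3, a4, a5⟩ := hW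
    rw [e1 t i (by omega) (by omega), e1 t (i + 1) (by omega) (by omega)]
    refine ⟨a1, ?_, a3, a4, a5⟩
    by_cases ht' : t + 1 = N + 1
    · have : (tab M q0 k₀ sy g1 x w N (t + 1) (i + 1)).1 = g1 := by
        unfold tab; rw [if_pos (Or.inr ht')]
      rw [this, ← hfin]
      rw [← ht']
      exact a2
    · rw [e1 (t + 1) (i + 1) (by omega) (by omega)]
      exact a2

/-- A correct tableau is the tableau of an accepting run. -/
theorem tab_of_solves2 [DecidableEq M.K] (x : List Bool) (p N : ℕ) (hN : x.length + 2 + p ≤ N)
    (hH : ∀ w : List Bool, w.length ≤ p → ∀ t k, ((M.conf q0 k₀ sy (encPair (x, w)) t).2 k).length < N)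
    (z : ℕ → ℕ → M.Cell)
    (hz2 : Solves2 M q0 k₀ k₁ sy ac g1 (x.length + 1) (x.length + 2 + p) N (false :: x.reverse) z) :
    ∃ w : List Bool, w.length = p ∧
      ct ((M.conf q0 k₀ sy (encPair (x, w)) (N + 1)).2 k₁) 1 = some (some ac) ∧
      ∀ t < N + 2, ∀ i < N + 2, z t i = tab M q0 k₀ sy g1 x w N t i := by
  have hz := hz2.solves
  -- windows
  have hW : ∀ t < N + 1, ∀ i < N, M.W (z t i) (z t (i + 1)) (z t (i + 2)) (z (t + 1) (i + 1)) := by
    intro t ht i hi
    apply (hz t (by omega) i (by omega)).2
    unfold NPC.cls
    by_cases h1 : i < 1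
    · rw [if_pos h1]
      by_cases h2 : t < 1
      · rw [if_pos h2]; rfl
      · rw [if_neg h2, if_pos ht]; rfl
    · rw [if_neg h1, if_pos hi]
      by_cases h2 : t < 1
      · rw [if_pos h2]
        split_ifs <;> rfl
      · rw [if_neg h2, if_pos ht]; rfl
  -- row 0
  have hrow : ∀ i, 0 < i → i < N → M.allow q0 k₀ k₁ sy ac
      (if i < x.length + 1 then (if (false :: x.reverse)[i]? = some true then .r1 else .r0)
        else if i < x.length + 1 + 1 then .rsep
        else if i < x.length + 2 + p then .rw
        else .rblank) (z 0 i) := by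
    intro i h0 hi
    have := (hz 0 (by omega) i (by omega)).1
    unfold NPC.cls at this
    rw [if_neg (by omega), if_pos hi, if_pos (by omega)] at this
    exact this
  have hinit : ∀ i, 0 < i → i < N → M.Init q0 k₀ (z 0 i) := by
    intro i h0 hi
    have := hrow i h0 hi
    split_ifs at this <;> exact this.1
  have hR : ∀ t < N + 2, ∀ i, N ≤ i → i < N + 2 → ∀ k, (z t i).2 k = none := by
    intro t ht i hi hi2
    have := (hz t ht i hi2).1
    unfold NPC.cls at this
    rw [if_neg (by omega), if_neg (by omega)] at this
    exact this
  have hL : ∀ t < N + 2, ∀ k, (z t 0).2 k = some none := by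
    intro t ht k
    have := (hz t ht 0 (by omega)).1
    unfold NPC.cls at this
    rw [if_pos (by omega)] at this
    split_ifs at this
    · exact this.2 k
    · exact this k
    · exact this k
  obtain ⟨w, hw, hC⟩ := read_cert sy x p N hN (fun i => (z 0 i).2 k₀) (hL 0 (by omega) k₀)
    (by
      intro i hi
      have := hrow (i + 1) (by omega) (by omega)
      rw [if_pos (by omega), prep_getElem x i hi] at this
      split_ifs at this with h
      · rw [Option.some.injEq] at h
        rw [h]; exact this.2
      · rw [Option.some.injEq, Bool.not_eq_true] at h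
        rw [h]; exact this.2)
    (by
      have := hrow (x.length + 1) (by omega) (by omega)
      rw [if_neg (by omega), if_pos (by omega)] at this
      exact this.2)
    (by
      intro j hj
      have := hrow (x.length + 2 + j) (by omega) (by omega)
      rw [if_neg (by omega), if_neg (by omega), if_pos (by omega)] at this
      exact this.2)
    (by
      intro i hi hi2
      rcases Nat.lt_or_ge i N with h | h
      · have := hrow i (by omega) h
        rw [if_neg (by omega), if_neg (by omega), if_neg (by omega)] at this
        exact this.2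
      · exact hR 0 (by omega) i h hi2 k₀)
    (fun i hi h => (hW 0 (by omega) i hi).2.2.2.1 k₀ h)
  -- the certificate has full length
  have hwp : w.length = p := by
    by_contra hne
    have hlt : w.length < p := by omega
    have h1 := (hz2 0 (by omega) (x.length + 2 + w.length) (by omega)).1.2.1 (by
      change NPC.cls _ _ _ _ _ _ = _
      unfold NPC.cls
      rw [if_neg (by omega), if_pos (by omega), if_pos (by omega), if_neg (by omega),
        if_neg (by omega), if_pos (by omega)])
    apply h1
    have h2 := hC (x.length + 2 + w.length) (by omega)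
    rw [h2, ct_input3, List.getElem?_eq_none (by simp)]
    rfl
  refine ⟨w, hwp, ?_⟩
  -- all cells of a row have the same global information
  have hrowinfo : ∀ t < N + 1, (z t 1).1.1 = (M.conf q0 k₀ sy (encPair (x, w)) t).1 →
      (∀ i < N + 2, ∀ k, (z t i).2 k = ct ((M.conf q0 k₀ sy (encPair (x, w)) t).2 k) i) →
      ∀ i ≤ N, (z t i).1 = ((M.conf q0 k₀ sy (encPair (x, w)) t).1,
        M.heads (M.conf q0 k₀ sy (encPair (x, w)) t).2) := by
    intro t ht ih1 ih2
    have hg : ∀ i ≤ N, (z t i).1 = (z t 1).1 := by
      intro i
      induction i with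
      | zero => intro _; exact (hW t (by omega) 0 (by omega)).1
      | succ i ihi =>
        intro hi
        rw [← ihi (by omega)]
        exact ((hW t (by omega) i (by omega)).1).symm
    intro i hi
    refine Prod.ext ?_ ?_
    · rw [hg i hi, ih1]
    · funext k
      have hlen := hH w hw t k
      set L := ((M.conf q0 k₀ sy (encPair (x, w)) t).2 k).length with hL'
      have h1 := (hW t (by omega) L hlen).2.2.1 k
        (by
          rw [ih2 L (by omega) k, ne_eq, ct_eq_none]
          omega)
        (by
          rw [ih2 (L + 1) (by omega) k, ct_eq_none]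
          omega)
      rw [ih2 L (by omega) k, hL', ct_top] at h1
      rw [hg i hi, ← hg (L + 1) (by omega)]
      have h2 := Option.some.inj h1
      rw [← hL'] at h2
      exact h2.symm
  -- the rows are the configurations
  have key : ∀ t < N + 2, (z t 1).1.1 = (M.conf q0 k₀ sy (encPair (x, w)) t).1 ∧
      ∀ i < N + 2, ∀ k, (z t i).2 k = ct ((M.conf q0 k₀ sy (encPair (x, w)) t).2 k) i := by
    intro t
    induction t with
    | zero =>
      intro _
      refine ⟨(hinit 1 one_pos (by omega)).1, ?_⟩
      intro i hi k
      change _ = ct (update (fun _ => []) k₀ ((encPair (x, w)).map sy) k) i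
      by_cases hk : k = k₀
      · subst hk
        rw [update_self]
        exact hC i hi
      · rw [update_of_ne hk]
        rcases i with _ | i
        · rw [hL 0 (by omega) k, ct_zero]
        · have h1 : ct ([] : List (M.Γ k)) (i + 1) = none := by rw [ct_eq_none]; simp
          rw [h1]
          rcases Nat.lt_or_ge (i + 1) N with h | h
          · exact (hinit (i + 1) (by omega) h).2 k hk
          · exact hR 0 (by omega) (i + 1) h hi k
    | succ t ih =>
      intro ht
      obtain ⟨ih1, ih2⟩ := ih (by omega)
      have hinfo := hrowinfo t (by omega) ih1 ih2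
      have hnext : ∀ i < N, ∀ k, (z (t + 1) (i + 1)).2 k =
          ct ((M.conf q0 k₀ sy (encPair (x, w)) (t + 1)).2 k) (i + 1) := by
        intro i hi k
        rw [(hW t (by omega) i hi).2.2.2.2 k, hinfo (i + 1) (by omega),
          ih2 i (by omega) k, ih2 (i + 1) (by omega) k, ih2 (i + 2) (by omega) k, M.conf_succ]
        exact (ct_app _ _ _).symm
      refine ⟨?_, ?_⟩
      · have := (hW t (by omega) 0 (by omega)).2.1
        rw [hinfo 1 (by omega)] at this
        rw [M.conf_succ]
        exact this
      · intro i hi k
        rcases i with _ | i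
        · rw [hL (t + 1) ht k, ct_zero]
        · rcases Nat.lt_or_ge i N with h | h
          · exact hnext i h k
          · rw [hR (t + 1) ht (i + 1) (by omega) hi k]
            symm
            rw [ct_eq_none]
            have := hH w hw (t + 1) k
            omega
  refine ⟨?_, ?_⟩
  · obtain ⟨-, h2⟩ := key (N + 1) (by omega)
    rw [← h2 1 (by omega) k₁]
    have := (hz (N + 1) (by omega) 1 (by omega)).1
    unfold NPC.cls at this
    rw [if_neg (by omega), if_pos (by omega), if_neg (by omega), if_neg (by omega),
      if_pos (by omega)] at this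
    exact this
  · intro t ht i hi
    obtain ⟨k1, k2⟩ := key t ht
    unfold tab
    by_cases hb : i = N + 1 ∨ t = N + 1
    · rw [if_pos hb]
      refine Prod.ext ?_ (funext fun k => k2 i hi k)
      exact (hz2 t ht i hi).1.2.2 (by simpa using hb)
    · rw [if_neg hb]
      refine Prod.ext ?_ (funext fun k => k2 i hi k)
      exact hrowinfo t (by omega) k1 k2 i (by omega)

/-- The tableau determines the certificate. -/
theorem tab_inj [DecidableEq M.K] (hsy : Injective sy) (x w w' : List Bool) (p N : ℕ)
    (hN : x.length + 2 + p ≤ N) (hw : w.length = p) (hw' : w'.length = p)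
    (h : ∀ i < N + 2, tab M q0 k₀ sy g1 x w N 0 i = tab M q0 k₀ sy g1 x w' N 0 i) : w = w' := by
  have h1 : w.reverse = w'.reverse := by
    apply List.ext_getElem?
    intro j
    rcases Nat.lt_or_ge j p with hj | hj
    · have h2 := congrArg (fun s => s.2 k₀) (h (x.length + 2 + j) (by omega))
      change ct (update (fun _ => []) k₀ ((encPair (x, w)).map sy) k₀) (x.length + 2 + j) =
        ct (update (fun _ => []) k₀ ((encPair (x, w')).map sy) k₀) (x.length + 2 + j) at h2
      rw [update_self, update_self, ct_input3, ct_input3] at h2
      have hinj : Injective (fun b : Bool => some (sy (some b))) := by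
        intro a b hab
        exact Option.some.inj (hsy (Option.some.inj hab))
      exact Option.map_injective hinj h2
    · rw [List.getElem?_eq_none (by simp; omega), List.getElem?_eq_none (by simp; omega)]
  exact List.reverse_injective h1

end MachP

end GenMed
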