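import Pool.Agent.GenMed.Tab

/-!
# Accepted certificates of a polynomial-time verifier and tableaux
-/

namespace GenMed

open NPC Function Turing

/-- The tableau of a polynomial-time verifier. -/
theorem exists_mach {V : List Bool × List Bool → Bool} (hV : PolyTime encPair encBool V)
    (p : Polynomial ℕ) :
    ∃ (M : Mach) (_ : Finite M.Q) (_ : Finite M.K) (_ : DecidableEq M.K) (_ : ∀ k, Finite (M.Γ k))
      (q0 : M.Q) (k₀ k₁ : M.K) (sy : Sym → M.Γ k₀) (ac : M.Γ k₁)
      (g1 : M.Q × (∀ k, Option (M.Γ k))) (N : Polynomial ℕ), Injective sy ∧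
      ∀ x : List Bool, (x.length + 2 + p.eval x.length ≤ N.eval x.length) ∧
        (∀ w : List Bool, w.length ≤ p.eval x.length → ∀ t k,
          ((M.conf q0 k₀ sy (encPair (x, w)) t).2 k).length < N.eval x.length) ∧
        (∀ w : List Bool, w.length ≤ p.eval x.length →
          (M.conf q0 k₀ sy (encPair (x, w)) (N.eval x.length + 1)).1 = g1.1) ∧
        (∀ w : List Bool, w.length ≤ p.eval x.length →
          (ct ((M.conf q0 k₀ sy (encPair (x, w)) (N.eval x.length + 1)).2 k₁) 1 =
            some (some ac) ↔ V (x, w) = true)) := by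
  obtain ⟨F, hF⟩ := hV
  obtain ⟨D, hD⟩ := exists_ssize_bound F.tm
  let _ := F.tm.ΛFin
  let _ := F.tm.kFin
  let _ := F.tm.σFin
  let _ : DecidableEq (machOf F.tm).K := F.tm.kDecidableEq
  have hnone : (none : Option (TM2.Stmt F.tm.Γ F.tm.Λ F.tm.σ)) ∈
      TM2.stmts F.tm.m Finset.univ := by
    simp [TM2.stmts]
  refine ⟨machOf F.tm, ?_, ?_, F.tm.kDecidableEq, hF, (⟨some (F.tm.m F.tm.main), by
      simp only [TM2.stmts, Finset.mem_insertNone, Finset.mem_biUnion, Finset.mem_univ, true_and,
        Option.mem_def, Option.some.injEq, forall_eq']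
      exact ⟨F.tm.main, TM2.stmts₁_self⟩⟩, F.tm.initialState), F.tm.k₀, F.tm.k₁,
    F.inputAlphabet.symm, F.outputAlphabet.symm (some true),
    ((⟨none, hnone⟩, F.tm.initialState), fun _ => none),
    Polynomial.C D * F.time.comp (Polynomial.X + 1 + p) + Polynomial.X + p + 3,
    F.inputAlphabet.symm.injective, ?_⟩
  · exact inferInstanceAs (Finite ({q : Option (TM2.Stmt F.tm.Γ F.tm.Λ F.tm.σ) //
      q ∈ TM2.stmts F.tm.m Finset.univ} × F.tm.σ))
  · exact inferInstanceAs (Finite F.tm.K)
  · intro x
    set n1 := x.length + 1 with hn1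
    have hNe : (Polynomial.C D * F.time.comp (Polynomial.X + 1 + p) + Polynomial.X + p + 3).eval
        x.length = D * F.time.eval (n1 + p.eval x.length) + n1 + p.eval x.length + 2 := by
      simp [Polynomial.eval_comp, hn1]
      ring
    rw [hNe]
    have hN0 : x.length + 2 + p.eval x.length ≤
        D * F.time.eval (n1 + p.eval x.length) + n1 + p.eval x.length + 2 := by omega
    set N := D * F.time.eval (n1 + p.eval x.length) + n1 + p.eval x.length + 2 with hN
    set q0 : (machOf F.tm).Q := (⟨some (F.tm.m F.tm.main), by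
      simp only [TM2.stmts, Finset.mem_insertNone, Finset.mem_biUnion, Finset.mem_univ, true_and,
        Option.mem_def, Option.some.injEq, forall_eq']
      exact ⟨F.tm.main, TM2.stmts₁_self⟩⟩, F.tm.initialState) with hq0
    -- description of the run
    have hrun : ∀ w : List Bool, w.length ≤ p.eval x.length →
        ∃ n' ≤ D * F.time.eval (n1 + p.eval x.length), ∀ t,
          (forget F.tm ((machOf F.tm).conf q0 F.tm.k₀ F.inputAlphabet.symm (encPair (x, w)) (n' + t))) =
            ((none, F.tm.initialState), update (fun _ => []) F.tm.k₁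
              ((encBool (V (x, w))).map F.outputAlphabet.invFun)) := by
      intro w hw
      have h1 := (F.outputsFun (x, w)).evals_in_steps
      have h1' := (F.outputsFun (x, w)).steps_le_m
      set n := (F.outputsFun (x, w)).steps with hn
      have s1 : Steps (TM2.step F.tm.m) n ⟨some F.tm.main, F.tm.initialState,
          update (fun _ => []) F.tm.k₀ ((encPair (x, w)).map F.inputAlphabet.invFun)⟩
          ⟨none, F.tm.initialState, update (fun _ => []) F.tm.k₁
            ((encBool (V (x, w))).map F.outputAlphabet.invFun)⟩ := by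
        have := h1
        rw [Option.map_some, initList_eq, haltList_eq] at this
        exact this
      obtain ⟨n', hn', h2⟩ := rstep_steps F.tm.m D hD n _ _ s1
      refine ⟨n', ?_, ?_⟩
      · refine hn'.trans ?_
        rw [Nat.mul_comm]
        apply Nat.mul_le_mul_left
        refine h1'.trans (eval_mono _ ?_)
        simp only [encPair, List.length_append, List.length_map, List.length_cons]
        omega
      · intro t
        change forget F.tm ((machOf F.tm).step^[n' + t]
          ((machOf F.tm).initc q0 F.tm.k₀ F.inputAlphabet.symm (encPair (x, w)))) = _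
        rw [Nat.add_comm, iterate_add_apply, forget_iterate, forget_iterate]
        have e1 : forget F.tm ((machOf F.tm).initc q0 F.tm.k₀ F.inputAlphabet.symm (encPair (x, w))) =
            ((some (F.tm.m F.tm.main), F.tm.initialState),
              update (fun _ => []) F.tm.k₀ ((encPair (x, w)).map F.inputAlphabet.invFun)) := rfl
        rw [e1]
        have h3 : (rstep F.tm.m)^[n'] ((some (F.tm.m F.tm.main), F.tm.initialState),
              update (fun _ => []) F.tm.k₀ ((encPair (x, w)).map F.inputAlphabet.invFun)) =
            ((none, F.tm.initialState), update (fun _ => []) F.tm.k₁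
              ((encBool (V (x, w))).map F.outputAlphabet.invFun)) := h2
        rw [h3]
        exact rstep_none _ _ _ _
    have hlen0 : ∀ w : List Bool, w.length ≤ p.eval x.length → ∀ t k,
        (((machOf F.tm).conf q0 F.tm.k₀ F.inputAlphabet.symm (encPair (x, w)) t).2 k).length ≤
          n1 + p.eval x.length + t := by
      intro w hw t k
      have h1 := length_rstep_le F.tm.m t (forget F.tm
        ((machOf F.tm).initc q0 F.tm.k₀ F.inputAlphabet.symm (encPair (x, w)))) k
      rw [← forget_iterate] at h1
      refine h1.trans (Nat.add_le_add_right ?_ t)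
      refine (length_update_le F.tm F.tm.k₀ ((encPair (x, w)).map F.inputAlphabet.symm) k).trans ?_
      rw [List.length_map]
      simp only [encPair, List.length_append, List.length_map, List.length_cons]
      omega
    refine ⟨hN0, ?_, ?_, ?_⟩
    · intro w hw t k
      obtain ⟨n', hn', h2⟩ := hrun w hw
      rcases Nat.lt_or_ge t n' with h | h
      · have := hlen0 w hw t k
        omega
      · obtain ⟨s, rfl⟩ : ∃ s, t = n' + s := ⟨t - n', by omega⟩
        have e1 := h2 s
        have e0 := h2 0
        have e2 : ((machOf F.tm).conf q0 F.tm.k₀ F.inputAlphabet.symm (encPair (x, w)) (n' + s)).2 k =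
            ((machOf F.tm).conf q0 F.tm.k₀ F.inputAlphabet.symm (encPair (x, w)) (n' + 0)).2 k := by
          have a1 := congrArg (fun c => c.2 k) e1
          have a0 := congrArg (fun c => c.2 k) e0
          exact a1.trans a0.symm
        rw [e2]
        have := hlen0 w hw (n' + 0) k
        omega
    · intro w hw
      obtain ⟨n', hn', h2⟩ := hrun w hw
      obtain ⟨s, hs⟩ : ∃ s, N + 1 = n' + s := ⟨N + 1 - n', by omega⟩
      have e1 := h2 s
      rw [← hs] at e1
      have a1 := congrArg (fun c => c.1) e1
      have a2 := congrArg Prod.fst a1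
      have a3 := congrArg Prod.snd a1
      exact Prod.ext (Subtype.ext a2) a3
    · intro w hw
      obtain ⟨n', hn', h2⟩ := hrun w hw
      obtain ⟨s, hs⟩ : ∃ s, N + 1 = n' + s := ⟨N + 1 - n', by omega⟩
      have e1 := h2 s
      rw [← hs] at e1
      have a1 := congrArg (fun c => c.2 F.tm.k₁) e1
      have a2 : ((machOf F.tm).conf q0 F.tm.k₀ F.inputAlphabet.symm (encPair (x, w)) (N + 1)).2 F.tm.k₁ =
          (encBool (V (x, w))).map F.outputAlphabet.invFun := by
        refine Eq.trans a1 ?_
        change update (fun _ => []) F.tm.k₁ _ F.tm.k₁ = _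
        rw [update_self]
      rw [a2]
      constructor
      · intro h
        have h3 : some (some (F.outputAlphabet.symm (some (V (x, w))))) =
          some (some (F.outputAlphabet.symm (some true))) := h
        have h4 := F.outputAlphabet.symm.injective (Option.some.inj (Option.some.inj h3))
        exact Option.some.inj h4
      · intro h
        change some (some (F.outputAlphabet.symm (some (V (x, w))))) = _
        rw [h]
        rfl

/-- the symbol of the cell `(t, i)` -/
def ev {R a : ℕ} (z : Fin (R * R) → Fin a) (t i : ℕ) : ℕ :=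
  if h : t * R + i < R * R then z ⟨t * R + i, h⟩ else 0

/-- the classes of the cells -/
def cls2 (n1 n3 N : ℕ) (y : List Bool) (t i : ℕ) : Cl × Bool :=
  (NPC.cls n1 n3 N y t i, decide (i = N + 1 ∨ t = N + 1))

/-- `z` is a correct grid. -/
def GridOK (a : ℕ) (al : Cl × Bool → ℕ → Prop) (Wr : ℕ → ℕ → ℕ → ℕ → Prop) (n1 n3 N : ℕ)
    (y : List Bool) (z : Fin ((N + 2) * (N + 2)) → Fin a) : Prop :=
  ∀ t < N + 2, ∀ i < N + 2, al (cls2 n1 n3 N y t i) (ev z t i) ∧
    ((NPC.cls n1 n3 N y t i).win = true →
      Wr (ev z t i) (ev z t (i + 1)) (ev z t (i + 2)) (ev z (t + 1) (i + 1)))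

theorem idx_lt {R t i : ℕ} (ht : t < R) (hi : i < R) : t * R + i < R * R := by
  calc t * R + i < t * R + R := by omega
    _ = (t + 1) * R := by ring
    _ ≤ R * R := Nat.mul_le_mul_right _ ht

open Classical in
/-- The number of accepted certificates of length exactly `p (|x|)` is the number of correct
grids. -/
theorem count_grid {V : List Bool × List Bool → Bool} (hV : PolyTime encPair encBool V)
    (p : Polynomial ℕ) :
    ∃ (a : ℕ) (al : Cl × Bool → ℕ → Prop) (Wr : ℕ → ℕ → ℕ → ℕ → Prop) (N : Polynomial ℕ),
      0 < a ∧ ∀ x : List Bool, 0 < N.eval x.length ∧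
        (Finset.univ.filter (fun z : Fin ((N.eval x.length + 2) * (N.eval x.length + 2)) → Fin a =>
          GridOK a al Wr (x.length + 1) (x.length + 2 + p.eval x.length) (N.eval x.length)
            (false :: x.reverse) z)).card =
        (Finset.univ.filter (fun w : Fin (p.eval x.length) → Bool =>
          V (x, List.ofFn w) = true)).card := by
  obtain ⟨M, hQ, hK, hKd, hΓ, q0, k₀, k₁, sy, ac, g1, N, hsy, h⟩ := exists_mach hV p
  have := hQ
  have := hK
  have := hΓ
  have : Finite M.Cell := inferInstance
  obtain ⟨a, ⟨e⟩⟩ := Finite.exists_equiv_fin M.Cell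
  let dflt : M.Cell := ((q0, fun _ => none), fun _ => none)
  let dec : ℕ → M.Cell := fun s => if h : s < a then e.symm ⟨s, h⟩ else dflt
  have hdec : ∀ c, dec (e c) = c := by
    intro c
    simp only [dec]
    rw [dif_pos (e c).2]
    exact e.symm_apply_apply c
  have hdec2 : ∀ s : Fin a, e (dec s) = s := by
    intro s
    simp only [dec]
    rw [dif_pos s.2]
    exact e.apply_symm_apply s
  refine ⟨a, fun c s => MachP.allow2 M q0 k₀ k₁ sy ac g1 c (dec s),
    fun s1 s2 s3 s4 => M.W (dec s1) (dec s2) (dec s3) (dec s4), N, ?_, ?_⟩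
  · have := (e dflt).2
    omega
  · intro x
    obtain ⟨h1, h2, h3, h4⟩ := h x
    refine ⟨by omega, ?_⟩
    set NN' := N.eval x.length with hNN
    set R := NN' + 2 with hR
    -- grids from certificates
    let f : (Fin (p.eval x.length) → Bool) → (Fin (R * R) → Fin a) := fun w c =>
      e (MachP.tab M q0 k₀ sy g1 x (List.ofFn w) NN' ((c : ℕ) / R) ((c : ℕ) % R))
    have hfev : ∀ w t i, t < R → i < R → ev (f w) t i =
        e (MachP.tab M q0 k₀ sy g1 x (List.ofFn w) NN' t i) := by
      intro w t i ht hi
      have e1 : (t * R + i) / R = t := by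
        rw [Nat.mul_comm, Nat.mul_add_div (by omega), Nat.div_eq_of_lt hi, Nat.add_zero]
      have e2 : (t * R + i) % R = i := by
        rw [Nat.mul_comm, Nat.mul_add_mod, Nat.mod_eq_of_lt hi]
      unfold ev
      rw [dif_pos (idx_lt ht hi)]
      simp only [f, e1, e2]
    symm
    refine Finset.card_nbij f ?_ ?_ ?_
    · intro w hw
      simp only [Finset.coe_filter, Finset.mem_univ, true_and, Set.mem_ofPred_eq] at hw ⊢
      have hlen : (List.ofFn w).length = p.eval x.length := by simp
      have hs := MachP.solves2_tab M q0 k₀ k₁ sy ac g1 x (List.ofFn w) (p.eval x.length) NN' h1 hlen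
        (h2 _ hlen.le) (h3 _ hlen.le) ((h4 _ hlen.le).2 hw)
      intro t ht i hi
      obtain ⟨s1, s2⟩ := hs t ht i hi
      constructor
      · beta_reduce
        rw [hfev w t i ht hi, hdec]
        exact s1
      · intro hwin
        obtain ⟨w1, w2⟩ := cls_win ht (by omega) hwin
        beta_reduce
        rw [hfev w t i ht hi, hfev w t (i + 1) ht (by omega), hfev w t (i + 2) ht (by omega),
          hfev w (t + 1) (i + 1) (by omega) (by omega), hdec, hdec, hdec, hdec]
        exact s2 hwin
    · intro w _ w' _ hww
      have : List.ofFn w = List.ofFn w' := by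
        apply MachP.tab_inj M q0 k₀ sy g1 hsy x _ _ (p.eval x.length) NN' h1 (by simp) (by simp)
        intro i hi
        have : ev (f w) 0 i = ev (f w') 0 i := congrArg (fun z => ev z 0 i) hww
        rw [hfev w 0 i (by omega) hi, hfev w' 0 i (by omega) hi] at this
        exact e.injective (Fin.ext this)
      exact List.ofFn_injective this
    · intro z hz
      simp only [Finset.coe_filter, Finset.mem_univ, true_and, Set.mem_ofPred_eq] at hz
      obtain ⟨w, hw1, hw2, hw3⟩ := MachP.tab_of_solves2 M q0 k₀ k₁ sy ac g1 x (p.eval x.length) NN'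
        h1 h2 (fun t i => dec (ev z t i)) (fun t ht i hi => hz t ht i hi)
      have hofn : List.ofFn (fun i : Fin (p.eval x.length) => w[(i : ℕ)]'(by rw [hw1]; exact i.2)) = w := by
        apply List.ext_getElem
        · simp [hw1]
        · intro i h5 h6
          simp
      refine ⟨fun i => w[(i : ℕ)]'(by rw [hw1]; exact i.2), ?_, ?_⟩
      · simp only [Finset.coe_filter, Finset.mem_univ, true_and, Set.mem_ofPred_eq]
        rw [hofn]
        exact (h4 w hw1.le).1 hw2
      · funext c
        have hc1 : (c : ℕ) / R < R := Nat.div_lt_of_lt_mul c.2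
        have hc2 : (c : ℕ) % R < R := Nat.mod_lt _ (by omega)
        have hc3 := hw3 _ hc1 _ hc2
        simp only [f]
        rw [hofn, ← hc3]
        have hc4 : (c : ℕ) / R * R + (c : ℕ) % R = c := Nat.div_add_mod' _ _
        have hc5 : ev z ((c : ℕ) / R) ((c : ℕ) % R) = z c := by
          unfold ev
          rw [dif_pos (by rw [hc4]; exact c.2)]
          congr 2
          exact Fin.ext hc4
        rw [hc5]
        exact hdec2 (z c)

end GenMed
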